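import Pool.Agent.Run7.h642.PL.Mp

/-!
# The number of the monic irreducible factors
-/

set_option autoImplicit false
set_option linter.all false
set_option maxHeartbeats 1000000

open Polynomial

namespace Pool.Agent.Run7.h642.PL

section
variable {K : Type} [Field K]

theorem nfac_eq {p : K[X]} (hp : p ≠ 0) :
    nfac p = Nat.card {q : K[X] // q.Monic ∧ Irreducible q ∧ q ∣ p} := by
  classical
  unfold nfac
  rw [← Nat.card_coe_set_eq]
  have hpI : ∀ {I : Ideal K[X]}, Ideal.span {p} ≤ I → I ≠ ⊥ := by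
    rintro I hI rfl
    exact hp (hI (Ideal.mem_span_singleton_self p))
  have hmin : ∀ q : K[X], q.Monic → Irreducible q → q ∣ p →
      Ideal.span {q} ∈ (Ideal.span {p}).minimalPrimes := by
    intro q hqm hq hqp
    have hqP : (Ideal.span {q}).IsPrime := (Ideal.span_singleton_prime hq.ne_zero).2 hq.prime
    refine ⟨⟨hqP, Ideal.span_singleton_le_span_singleton.2 hqp⟩, ?_⟩
    rintro J ⟨hJ, hpJ⟩ hJq
    have hJm : J.IsMaximal := hJ.isMaximal (hpI hpJ)
    exact (hJm.eq_of_le hqP.ne_top hJq).ge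
  refine (Nat.card_congr (Equiv.ofBijective (fun q : {q : K[X] // q.Monic ∧ Irreducible q ∧ q ∣ p} =>
    (⟨Ideal.span {q.1}, hmin q.1 q.2.1 q.2.2.1 q.2.2.2⟩ : (Ideal.span {p}).minimalPrimes)) ?_)).symm
  constructor
  · rintro ⟨q, hqm, hq, hqp⟩ ⟨q', hqm', hq', hqp'⟩ h
    have h1 : Ideal.span {q} = Ideal.span {q'} := congrArg Subtype.val h
    exact Subtype.ext (eq_of_monic_of_associated hqm hqm' (Ideal.span_singleton_eq_span_singleton.1 h1))
  · rintro ⟨I, hI⟩
    have hIP : I.IsPrime := hI.1.1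
    obtain ⟨q, hq⟩ := (IsPrincipalIdealRing.principal I).principal
    have hq' : I = Ideal.span {q} := hq
    have hq0 : q ≠ 0 := by
      rintro rfl
      apply hpI hI.1.2
      rw [hq', Ideal.span_singleton_eq_bot]
    have hqpr : Prime q := (Ideal.span_singleton_prime hq0).1 (hq' ▸ hIP)
    have hqp : q ∣ p := Ideal.mem_span_singleton.1 (hq' ▸ hI.1.2 (Ideal.mem_span_singleton_self p))
    have has : Associated (normalize q) q := (normalize_associated q)
    refine ⟨⟨normalize q, monic_normalize hq0, (has.irreducible_iff).2 hqpr.irreducible,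
      (has.dvd_iff_dvd_left).2 hqp⟩, ?_⟩
    apply Subtype.ext
    show Ideal.span {normalize q} = I
    rw [hq']
    exact Ideal.span_singleton_eq_span_singleton.2 has

end

section
open NumberField IsDedekindDomain Filter Topology
open Pool.Agent.Y707.PR (HasResidue)
open Pool.Agent.Run7.h642.NG

variable {k : Type} [Field k] [NumberField k] {R : Type} [CommRing R] [Algebra.FiniteType ℤ R]
  [Algebra (𝓞 k) R]

/-- **The residue of the negative.** -/
theorem res_negI {f : Pf R} (hf : PIso f) {N : R} {e : ℕ} {r : ℤ}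
    (h1 : ∃ (C : ℝ) (m : ℕ), 0 ≤ C ∧ m ≠ 0 ∧ ∀ (F : Type) [Field F] [Finite F], ((m : ℕ) : F) ≠ 0 →
      ∀ ψ : 𝓞 k →+* F, |sO f (algebraMap (𝓞 k) R) N F ψ| ≤ C * (Nat.card F : ℝ) ^ e)
    (h2 : Pool.Agent.R410.NG.Asy (fun F _ _ => sA f N F) e (-(r : ℝ)))
    (S : Finset (HeightOneSpectrum (𝓞 k))) : HasResidue S (fun v => -avO f N e v) 1 (r : ℝ) := by
  have h3 : Pool.Agent.R410.NG.Asy (fun F _ _ => sA (ngf f) N F) e (r : ℝ) := by
    have h4 := h2.neg
    rw [neg_neg] at h4
    exact h4.congr 1 one_ne_zero fun F _ _ _ => sA_ngf f N F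
  have h5 := res_model (piso_ngf hf) (by
    obtain ⟨C, m, hC, hm, h⟩ := h1
    refine ⟨C, m, hC, hm, fun F _ _ hF ψ => ?_⟩
    rw [sO_ngf, abs_neg]
    exact h F hF ψ) h3 S
  have h6 : (fun v : HeightOneSpectrum (𝓞 k) => avO (ngf f) N e v) = fun v => -avO f N e v :=
    funext fun v => avO_ngf f N e v
  rw [h6] at h5
  exact_mod_cast h5

end

end Pool.Agent.Run7.h642.PL
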