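import Pool.Agent.Run7.h642.PL.Def

/-!
# A smooth curve which is transversal to infinity is irreducible
-/

set_option autoImplicit false
set_option linter.all false

open Polynomial

namespace Pool.Agent.Run7.h642.PL

open Pool.Agent.Run7.h954.CP

section
variable {k : Type*} [Field k] {h : ℕ}

/-- two curves without common points at infinity have a common point -/
theorem not_coprime (hh : 0 < h) {P Q : k[X][X]} {a b : ℕ} (ha : 0 < a) (hb : 0 < b)
    (hP : P.Monic) (hPd : P.natDegree = a) (hQ : Q.Monic) (hQd : Q.natDegree = b)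
    (hPw : 0 < wd 1 h P) (hQw : 0 < wd 1 h Q)
    (hP1 : (lf1 h P).natDegree = a) (hco : IsCoprime (lf1 h P) (lf1 h Q)) : ¬ IsCoprime P Q := by
  rintro ⟨U₀, V₀, h0⟩
  -- reduce
  obtain ⟨U, V, hV, hUV⟩ : ∃ U V : k[X][X], V.natDegree < a ∧ U * P + V * Q = 1 := by
    refine ⟨U₀ + (V₀ /ₘ P) * Q, V₀ %ₘ P, ?_, ?_⟩
    · have h1 := natDegree_modByMonic_lt V₀ hP (by
        intro h3
        rw [h3, natDegree_one] at hPd
        omega)
      rwa [hPd] at h1
    · have h1 := modByMonic_add_div V₀ P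
      linear_combination h0 + Q * h1
  have hP0 : P ≠ 0 := hP.ne_zero
  have hQ0 : Q ≠ 0 := hQ.ne_zero
  by_cases hV0 : V = 0
  · rw [hV0, zero_mul, add_zero] at hUV
    have h1 : IsUnit P := IsUnit.of_mul_eq_one U (by rw [mul_comm]; exact hUV)
    rw [hP.isUnit_iff] at h1
    rw [h1, natDegree_one] at hPd
    omega
  by_cases hU0 : U = 0
  · rw [hU0, zero_mul, zero_add] at hUV
    have h1 : IsUnit Q := IsUnit.of_mul_eq_one V (by rw [mul_comm]; exact hUV)
    rw [hQ.isUnit_iff] at h1
    rw [h1, natDegree_one] at hQd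
    omega
  -- the weighted degrees agree
  have hwU : wd 1 h (U * P) = wd 1 h U + wd 1 h P := wd_mul hU0 hP0
  have hwV : wd 1 h (V * Q) = wd 1 h V + wd 1 h Q := wd_mul hV0 hQ0
  have hsum : lf 1 h (U * P) + lf 1 h (V * Q) = 0 := by
    have e1 : ph 1 h (U * P) + ph 1 h (V * Q) = 1 := by
      rw [← map_add, hUV, map_one]
    have e2 : ∀ N, 0 < N → (ph 1 h (U * P)).coeff N = -(ph 1 h (V * Q)).coeff N := by
      intro N hN
      have h2 := congrArg (fun p => coeff p N) e1
      simp only [coeff_add] at h2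
      rw [coeff_one, if_neg hN.ne'] at h2
      exact eq_neg_of_add_eq_zero_left h2
    have hUP : ph 1 h (U * P) ≠ 0 := (map_ne_zero_iff _ (ph_inj 1 h)).2 (mul_ne_zero hU0 hP0)
    have hVQ : ph 1 h (V * Q) ≠ 0 := (map_ne_zero_iff _ (ph_inj 1 h)).2 (mul_ne_zero hV0 hQ0)
    have hle1 : wd 1 h (U * P) ≤ wd 1 h (V * Q) := by
      apply le_natDegree_of_ne_zero
      intro h3
      have h4 := e2 (wd 1 h (U * P)) (by omega)
      rw [h3, neg_zero] at h4
      exact hUP (leadingCoeff_eq_zero.1 h4)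
    have hle2 : wd 1 h (V * Q) ≤ wd 1 h (U * P) := by
      apply le_natDegree_of_ne_zero
      intro h3
      have h4 := e2 (wd 1 h (V * Q)) (by omega)
      rw [h3, eq_comm, neg_eq_zero] at h4
      exact hVQ (leadingCoeff_eq_zero.1 h4)
    have heq : wd 1 h (U * P) = wd 1 h (V * Q) := le_antisymm hle1 hle2
    have h5 := e2 (wd 1 h (U * P)) (by omega)
    have h6 : lf 1 h (U * P) = (ph 1 h (U * P)).coeff (wd 1 h (U * P)) := rfl
    have h7 : lf 1 h (V * Q) = (ph 1 h (V * Q)).coeff (wd 1 h (V * Q)) := rfl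
    rw [h6, h7, ← heq, h5, neg_add_cancel]
  have hsum1 : lf1 h U * lf1 h P + lf1 h V * lf1 h Q = 0 := by
    rw [← lf1_mul, ← lf1_mul]
    unfold lf1
    rw [← map_add, hsum, map_zero]
  have hdvd : lf1 h P ∣ lf1 h V * lf1 h Q := ⟨-lf1 h U, by linear_combination hsum1⟩
  have hdvd' : lf1 h P ∣ lf1 h V := hco.dvd_of_dvd_mul_right hdvd
  have h1 := natDegree_le_of_dvd hdvd' (lf1_ne hV0)
  have h2 := lf1_natDegree (h := h) V
  omega

theorem dx_mul (P Q : k[X][X]) : dx (P * Q) = dx P * Q + P * dx Q := by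
  have hs : ∀ P : k[X][X], Bivariate.swap (Bivariate.swap P) = P := fun P =>
    Bivariate.swap_swap_apply P
  unfold dx
  rw [map_mul, derivative_mul, map_add, map_mul, map_mul, hs, hs]

/-- **A smooth curve which is transversal to infinity is irreducible.** -/
theorem pl_prime {g : ℕ} (hg : 0 < g) (hh : 0 < h) {H : k[X][X]} (hH : IsPl g h H) (hs : IsSmooth H)
    (hψ : (psi g h H).Separable) : Prime H := by
  obtain ⟨hm, hd⟩ := hH.monic hh
  rw [← irreducible_iff_prime, hm.irreducible_iff_natDegree]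
  refine ⟨?_, ?_⟩
  · intro h1
    rw [h1, natDegree_one] at hd
    omega
  · intro P Q hP hQ hPQ
    by_contra hcon
    push Not at hcon
    obtain ⟨h1, h2⟩ := hcon
    have hP0 : P ≠ 0 := hP.ne_zero
    have hQ0 : Q ≠ 0 := hQ.ne_zero
    have hdeg : P.natDegree + Q.natDegree = g := by
      rw [← hP.natDegree_mul hQ, hPQ, hd]
    have hw : wd 1 h P + wd 1 h Q = g * h := by
      rw [← wd_mul hP0 hQ0, hPQ, hH.wd_eq hh]
    have key : ∀ P : k[X][X], P.Monic → h * P.natDegree ≤ wd 1 h P := by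
      intro P hP
      have h3 : (P.coeff P.natDegree).coeff 0 ≠ 0 := by
        have h4 : P.coeff P.natDegree = 1 := hP.coeff_natDegree
        rw [h4, coeff_one, if_pos rfl]
        exact one_ne_zero
      have h4 := le_wd (n := 1) (m := h) h3
      omega
    have kP := key P hP
    have kQ := key Q hQ
    have hsum : h * P.natDegree + h * Q.natDegree = g * h := by
      rw [← mul_add, hdeg, mul_comm]
    have wP : wd 1 h P = h * P.natDegree := by omega
    have wQ : wd 1 h Q = h * Q.natDegree := by omega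
    have hlP : (lf1 h P).natDegree = P.natDegree := by
      apply le_antisymm (lf1_natDegree P)
      apply le_natDegree_of_ne_zero
      rw [lf1_coeff, wP, if_pos le_rfl, Nat.sub_self, hP.coeff_natDegree, coeff_one, if_pos rfl]
      exact one_ne_zero
    have hψ' : lf1 h P * lf1 h Q = psi g h H := by
      rw [← lf1_mul, hPQ, hH.lf1_eq hh]
    rw [← hψ'] at hψ
    refine not_coprime hh (Nat.pos_of_ne_zero h1) (Nat.pos_of_ne_zero h2) hP rfl hQ rfl ?_ ?_ hlP
      hψ.isCoprime ?_
    · rw [wP]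
      exact Nat.mul_pos hh (Nat.pos_of_ne_zero h1)
    · rw [wQ]
      exact Nat.mul_pos hh (Nat.pos_of_ne_zero h2)
    · have h3 := hs
      unfold IsSmooth at h3
      rw [Ideal.eq_top_iff_one, Ideal.mem_span_insert] at h3
      obtain ⟨a, z, hz, h3⟩ := h3
      rw [Ideal.mem_span_insert] at hz
      obtain ⟨b, z', hz', rfl⟩ := hz
      obtain ⟨c, rfl⟩ := Ideal.mem_span_singleton'.1 hz'
      rw [← hPQ, derivative_mul, dx_mul] at h3
      refine ⟨a * Q + b * derivative Q + c * dx Q, b * derivative P + c * dx P, ?_⟩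
      rw [h3]
      ring

end

end Pool.Agent.Run7.h642.PL
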