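import Pool.Agent.Run7.h642.PL.Prm
import Pool.Agent.Run7.h954.CP.Cc
import Pool.Agent.Run7.h954.CP.Fnl

/-!
# Constants in the coordinate ring of a family of curves which are monic in the second coordinate
-/

set_option autoImplicit false
set_option linter.all false

open Polynomial

namespace Pool.Agent.Run7.h642.PL

open Pool.Agent.Run7.h954.CP

/-- monic of degree `n` -/
def Mo {P : Type} [CommRing P] (n : ℕ) (H : P[X][X]) : Prop := H.Monic ∧ H.natDegree = n

section
variable {P : Type} [CommRing P] {n : ℕ} {H : P[X][X]}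

theorem Mo.map {S : Type} [CommRing S] [Nontrivial S] (hH : Mo n H) (f : P →+* S) :
    Mo n (H.map (mapRingHom f)) := by
  refine ⟨hH.1.map _, ?_⟩
  rw [hH.1.natDegree_map, hH.2]

theorem exists_red' [Nontrivial P] (hn : 0 < n) (hH : Mo n H) (c : AdjoinRoot H) :
    ∃ Z : P[X][X], Z.natDegree < n ∧ AdjoinRoot.mk H Z = c := by
  obtain ⟨hm, hdeg⟩ := hH
  obtain ⟨Z, rfl⟩ := AdjoinRoot.mk_surjective c
  refine ⟨Z %ₘ H, ?_, ?_⟩
  · have h1 := natDegree_modByMonic_lt Z hm (by
      intro h3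
      rw [h3, natDegree_one] at hdeg
      omega)
    rwa [hdeg] at h1
  · rw [AdjoinRoot.mk_eq_mk]
    have e1 := modByMonic_add_div Z H
    exact ⟨-(Z /ₘ H), by linear_combination e1⟩

theorem red_zero' [Nontrivial P] (hn : 0 < n) (hH : Mo n H) {Z : P[X][X]} (hZ : Z.natDegree < n)
    (h : AdjoinRoot.mk H Z = 0) : Z = 0 := by
  obtain ⟨hm, hdeg⟩ := hH
  rw [AdjoinRoot.mk_eq_zero] at h
  by_contra h0
  exact (hm.not_dvd_of_natDegree_lt h0 (by rw [hdeg]; exact hZ)) h

theorem red_inj' [Nontrivial P] (hn : 0 < n) (hH : Mo n H) {Z W : P[X][X]} (hZ : Z.natDegree < n)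
    (hW : W.natDegree < n) (h : AdjoinRoot.mk H Z = AdjoinRoot.mk H W) : Z = W := by
  rw [← sub_eq_zero, ← map_sub] at h
  have h1 : (Z - W).natDegree < n := lt_of_le_of_lt (natDegree_sub_le _ _) (max_lt hZ hW)
  exact sub_eq_zero.1 (red_zero' hn hH h1 h)

theorem cst_inj' [Nontrivial P] (hn : 0 < n) (hH : Mo n H) : Function.Injective (cst H) := by
  intro a b h
  rw [cst_mk, cst_mk] at h
  have h1 := red_inj' hn hH (by rw [natDegree_C]; exact hn) (by rw [natDegree_C]; exact hn) h
  exact C_injective (C_injective h1)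

theorem cst_dvd_iff' [Nontrivial P] (hn : 0 < n) (hH : Mo n H) (q : P) {Z : P[X][X]}
    (hZ : Z.natDegree < n) : cst H q ∣ AdjoinRoot.mk H Z ↔ C (C q) ∣ Z := by
  constructor
  · rintro ⟨c, hc⟩
    obtain ⟨W, hW, rfl⟩ := exists_red' hn hH c
    rw [cst_mk, ← map_mul] at hc
    have h1 : (C (C q) * W).natDegree < n := lt_of_le_of_lt (natDegree_C_mul_le _ _) hW
    exact ⟨W, red_inj' hn hH hZ h1 hc⟩
  · rintro ⟨W, rfl⟩
    rw [map_mul, cst_mk]
    exact Dvd.intro _ rfl

theorem cst_dvd' [Nontrivial P] (hn : 0 < n) (hH : Mo n H) {q p : P} (h : cst H q ∣ cst H p) :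
    q ∣ p := by
  rw [cst_mk H p, cst_dvd_iff' hn hH q (by rw [natDegree_C]; exact hn), cc_dvd] at h
  have := h 0 0
  rwa [coeff_C_zero, coeff_C_zero] at this

/-- a prime constant over which the curve is irreducible is prime -/
theorem cst_prime' [IsDomain P] (hn : 0 < n) (hH : Mo n H) {q : P} (hq : Prime q)
    (hdom : IsDomain (AdjoinRoot (H.map (mapRingHom (Ideal.Quotient.mk (Ideal.span {q})))))) :
    Prime (cst H q) := by
  have hI : (Ideal.span {q}).IsPrime := (Ideal.span_singleton_prime hq.ne_zero).2 hq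
  have hnt : Nontrivial (P ⧸ Ideal.span {q}) := Ideal.Quotient.nontrivial_iff.2 hI.ne_top
  let φ : P →+* P ⧸ Ideal.span {q} := Ideal.Quotient.mk _
  have hH' : Mo n (H.map (mapRingHom φ)) := hH.map φ
  let ψ := rootMap (mapRingHom φ) H (H.map (mapRingHom φ)) rfl
  have hker : ∀ c, ψ c = 0 ↔ cst H q ∣ c := by
    intro c
    obtain ⟨Z, hZ, rfl⟩ := exists_red' hn hH c
    rw [cst_dvd_iff' hn hH q hZ]
    show rootMap _ _ _ _ _ = 0 ↔ _
    rw [rootMap_mk, cc_dvd]
    constructor
    · intro h i j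
      have h1 := red_zero' hn hH' (lt_of_le_of_lt natDegree_map_le hZ) h
      have h2 := congrArg (fun W : (P ⧸ Ideal.span {q})[X][X] => (W.coeff j).coeff i) h1
      simp only [coeff_map, coe_mapRingHom, coeff_zero] at h2
      exact Ideal.mem_span_singleton.1 (Ideal.Quotient.eq_zero_iff_mem.1 h2)
    · intro h
      have h1 : Z.map (mapRingHom φ) = 0 := by
        ext j i
        rw [coeff_map, coe_mapRingHom, coeff_map, coeff_zero, coeff_zero]
        exact Ideal.Quotient.eq_zero_iff_mem.2 (Ideal.mem_span_singleton.2 (h i j))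
      rw [h1, map_zero]
  refine ⟨(map_ne_zero_iff _ (cst_inj' hn hH)).2 hq.ne_zero, ?_, ?_⟩
  · intro hu
    have h1 : ψ 1 = 0 := (hker 1).2 (hu.dvd)
    rw [map_one] at h1
    exact one_ne_zero h1
  · intro a b h
    rw [← hker, map_mul] at h
    rcases mul_eq_zero.1 h with h1 | h1
    · exact Or.inl ((hker a).1 h1)
    · exact Or.inr ((hker b).1 h1)

/-- a nonzero coefficient -/
theorem exists_coeff' [Nontrivial P] (hn : 0 < n) (hH : Mo n H) {f : AdjoinRoot H} (hf : f ≠ 0) :
    ∃ r : P, r ≠ 0 ∧ ∀ (P' : Type) [CommRing P'] [Nontrivial P'] (φ : P →+* P') (H' : P'[X][X])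
      (hH' : H.map (mapRingHom φ) = H') (q : P'), cst H' q ∣ rootMap (mapRingHom φ) H H' hH' f →
        q ∣ φ r := by
  obtain ⟨Z, hZ, rfl⟩ := exists_red' hn hH f
  have hZ0 : Z ≠ 0 := by
    rintro rfl
    rw [map_zero] at hf
    exact hf rfl
  obtain ⟨j, i, hij⟩ : ∃ j i, (Z.coeff j).coeff i ≠ 0 := by
    by_contra h
    push Not at h
    apply hZ0
    ext j i
    exact h j i
  refine ⟨_, hij, ?_⟩
  intro P' _ _ φ H' hH' q h
  subst hH'
  rw [rootMap_mk, cst_dvd_iff' hn (hH.map φ) q (lt_of_le_of_lt natDegree_map_le hZ), cc_dvd] at h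
  have h1 := h i j
  rwa [coeff_map, coe_mapRingHom, coeff_map] at h1

end

section
variable {P : Type} [CommRing P] [IsDomain P] {g h : ℕ}

/-- a family of smooth curves which are transversal to infinity is a domain -/
theorem pl_domain (hg : 0 < g) (hh : 0 < h) {H : P[X][X]} (hH : IsPl g h H)
    {κ : Type} [Field κ] [Algebra P κ] [IsFractionRing P κ]
    (hs : IsSmooth (H.map (mapRingHom (algebraMap P κ))))
    (hψ : (psi g h (H.map (mapRingHom (algebraMap P κ)))).Separable) : IsDomain (AdjoinRoot H) := by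
  have h1 := pl_prime hg hh (hH.map (algebraMap P κ)) hs hψ
  have h2 : IsDomain (AdjoinRoot (H.map (mapRingHom (algebraMap P κ)))) := AdjoinRoot.isDomain_of_prime h1
  have hi : Function.Injective (algebraMap P κ) := IsFractionRing.injective P κ
  have hinj : Function.Injective (rootMap (mapRingHom (algebraMap P κ)) H _ rfl) :=
    rootMap_inj _ (Polynomial.map_injective _ hi) H (hH.monic hh).1 _ rfl
  exact hinj.isDomain _

/-- A prime constant outside the bad divisor is prime. -/
theorem pl_cst_prime (hg : 0 < g) (hh : 0 < h) {H : P[X][X]} (hH : IsPl g h H) {N : P}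
    (hN : ∀ (F : Type) [Field F] (φ : P →+* F), φ N ≠ 0 →
      IsSmooth (H.map (mapRingHom φ)) ∧ (psi g h (H.map (mapRingHom φ))).Separable) {q : P}
    (hq : Prime q) (hqN : ¬ q ∣ N) : Prime (cst H q) := by
  have hI : (Ideal.span {q}).IsPrime := (Ideal.span_singleton_prime hq.ne_zero).2 hq
  let P' := P ⧸ Ideal.span {q}
  have hdom : IsDomain P' := Ideal.Quotient.isDomain _
  let κ := FractionRing P'
  let φ : P →+* P' := Ideal.Quotient.mk _
  have hφ : ((algebraMap P' κ).comp φ) N ≠ 0 := by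
    rw [RingHom.comp_apply]
    refine (map_ne_zero_iff _ (IsFractionRing.injective P' κ)).2 ?_
    intro h0
    exact hqN (Ideal.mem_span_singleton.1 (Ideal.Quotient.eq_zero_iff_mem.1 h0))
  obtain ⟨h1, h2⟩ := hN κ ((algebraMap P' κ).comp φ) hφ
  have e1 : H.map (mapRingHom ((algebraMap P' κ).comp φ)) =
      (H.map (mapRingHom φ)).map (mapRingHom (algebraMap P' κ)) := by
    rw [Polynomial.map_map, mapRingHom_comp]
  rw [e1] at h1 h2
  exact cst_prime' hg (hH.monic hh) hq (pl_domain hg hh (hH.map φ) h1 h2)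

/-- the good points -/
theorem exists_good' {K : Type} [Field K] [Algebra P K] [IsFractionRing P K] {G : P[X][X]}
    (hs : IsSmooth (G.map (mapRingHom (algebraMap P K))))
    (hψ : (psi g h (G.map (mapRingHom (algebraMap P K)))).Separable) :
    ∃ N : P, N ≠ 0 ∧ ∀ (F : Type) [Field F] (φ : P →+* F), φ N ≠ 0 →
      IsSmooth (G.map (mapRingHom φ)) ∧ (psi g h (G.map (mapRingHom φ))).Separable := by
  classical
  obtain ⟨N₁, hN₁, h1⟩ := exists_good (K := K) hs
  rw [psi_map, separable_def] at hψ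
  obtain ⟨a, b, hab⟩ := hψ
  have hloc : IsLoc (nonZeroDivisors P) (algebraMap P K) := isLoc_iff.2 inferInstance
  have hi : Function.Injective (algebraMap P K) := IsFractionRing.injective P K
  obtain ⟨l, hl, hden⟩ := exists_den hloc (a.support.image a.coeff ∪ b.support.image b.coeff)
  have hlift : ∀ p : K[X], p.support.image p.coeff ⊆ a.support.image a.coeff ∪ b.support.image b.coeff →
      ∃ p₀ : P[X], p₀.map (algebraMap P K) = C (algebraMap P K l) * p := by
    intro p hp
    have h3 : C (algebraMap P K l) * p ∈ lifts (algebraMap P K) := by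
      rw [lifts_iff_coeff_lifts]
      intro i
      rw [coeff_C_mul]
      by_cases h0 : p.coeff i = 0
      · exact ⟨0, by rw [h0, mul_zero, map_zero]⟩
      · exact hden _ (hp (Finset.mem_image_of_mem _ (mem_support_iff.2 h0)))
    exact h3
  obtain ⟨a', ha'⟩ := hlift a Finset.subset_union_left
  obtain ⟨b', hb'⟩ := hlift b Finset.subset_union_right
  have key : a' * psi g h G + b' * derivative (psi g h G) = C l := by
    apply Polynomial.map_injective _ hi
    rw [Polynomial.map_add, Polynomial.map_mul, Polynomial.map_mul, ha', hb', ← derivative_map, map_C]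
    linear_combination (C (algebraMap P K l)) * hab
  refine ⟨N₁ * l, mul_ne_zero hN₁ hl, ?_⟩
  intro F _ φ hφ
  rw [map_mul] at hφ
  refine ⟨h1 F φ (left_ne_zero_of_mul hφ), ?_⟩
  have hφl := right_ne_zero_of_mul hφ
  rw [psi_map, separable_def]
  have h2 := congrArg (Polynomial.map φ) key
  rw [Polynomial.map_add, Polynomial.map_mul, Polynomial.map_mul, ← derivative_map, map_C] at h2
  have h3 : (C (φ l)⁻¹ : F[X]) * C (φ l) = 1 := by
    rw [← C_mul, inv_mul_cancel₀ hφl, C_1]
  refine ⟨C (φ l)⁻¹ * a'.map φ, C (φ l)⁻¹ * b'.map φ, ?_⟩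
  rw [← h3, ← h2]
  ring

end

end Pool.Agent.Run7.h642.PL
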