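import Pool.Agent.Run7.h642.PL.Rk
import Pool.Agent.Run7.h642.PL.Mo
import Pool.Agent.Run7.h954.CP.SitM

/-!
# The comparison of the ranks over the ground field
-/

set_option autoImplicit false
set_option linter.all false
set_option maxHeartbeats 1000000

open Polynomial

namespace Pool.Agent.Run7.h642.PL

open Pool.Agent.Run7.h954.CP

theorem qrank_congr {G G' : Type} [CommGroup G] [CommGroup G'] (e : G ≃* G') (N : Subgroup G)
    (N' : Subgroup G') (h : ∀ x, x ∈ N ↔ e x ∈ N') : qrank N = qrank N' := by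
  have h1 : N.map (e : G →* G') = N' := by
    ext y
    constructor
    · rintro ⟨x, hx, rfl⟩
      exact (h x).1 hx
    · intro hy
      refine ⟨e.symm y, (h _).2 (by rw [e.apply_symm_apply]; exact hy), e.apply_symm_apply y⟩
  unfold qrank
  exact (AddEquiv.toIntLinearEquiv (MulEquiv.toAdditive (QuotientGroup.congr N N' e h1))).rank_eq

/-- the rank of the group of units modulo constants -/
noncomputable def urank (K A : Type) [Field K] [CommRing A] [Algebra K A] : Cardinal :=
  qrank (Units.map (algebraMap K A : K →* A)).range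

theorem urank_eq {P K A E : Type} [CommRing P] [IsDomain P] [Field K] [CommRing A] [IsDomain A]
    [Field E] [Algebra K A] [Algebra A E] [Algebra P E] [Algebra K E] [IsScalarTower K A E]
    [IsFractionRing A E] (φ : P →+* K) (hφ : IsLoc (nonZeroDivisors P) φ)
    (hPE : ∀ p, algebraMap P E p = algebraMap K E (φ p)) :
    qrank ((UK P E).subgroupOf (UU A E)) = urank K A := by
  have hi : Function.Injective (algebraMap A E) := IsFractionRing.injective A E
  have hiφ : Function.Injective φ := hφ.inj le_rfl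
  have hinj : Function.Injective (Units.map (algebraMap A E : A →* E)) := Units.map_injective hi
  let e : Aˣ ≃* UU A E := MonoidHom.ofInjective hinj
  have he : ∀ u : Aˣ, ((e u : Eˣ) : E) = algebraMap A E u := fun u => rfl
  refine (qrank_congr e _ _ ?_).symm
  intro u
  rw [Subgroup.mem_subgroupOf]
  constructor
  · rintro ⟨κ, rfl⟩
    obtain ⟨p, hp, q, hq⟩ := hφ.den (κ : K)
    have hp0 : p ≠ 0 := nonZeroDivisors.ne_zero hp
    refine ⟨q, p, ?_, hp0, ?_⟩
    · rintro rfl
      rw [map_zero] at hq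
      exact mul_ne_zero κ.ne_zero ((map_ne_zero_iff _ hiφ).2 hp0) hq
    · rw [he, hPE, hPE, ← hq, map_mul]
      congr 1
      exact (IsScalarTower.algebraMap_apply K A E _).symm
  · rintro ⟨a, b, ha, hb, hab⟩
    rw [he, hPE, hPE] at hab
    have ha' : φ a ≠ 0 := (map_ne_zero_iff _ hiφ).2 ha
    have hb' : φ b ≠ 0 := (map_ne_zero_iff _ hiφ).2 hb
    refine ⟨Units.mk0 (φ a * (φ b)⁻¹) (mul_ne_zero ha' (inv_ne_zero hb')), ?_⟩
    ext
    apply hi
    show algebraMap A E (algebraMap K A (φ a * (φ b)⁻¹)) = algebraMap A E u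
    rw [← IsScalarTower.algebraMap_apply K A E, map_mul, map_inv₀, ← hab, mul_assoc,
      mul_inv_cancel₀ ((map_ne_zero_iff _ (algebraMap K E).injective).2 hb'), mul_one]

section
variable {M K E A₀ : Type} [Field M] [CharZero M] [Field K] [CharZero K] [Field E] [Algebra M K]
  [Algebra K E] [Algebra M E] [IsScalarTower M K E]
  [CommRing A₀] [IsDomain A₀] [Algebra A₀ M] [IsFractionRing A₀ M]
  {k : ℕ} {w : Fin (k + 1) → K} {z : Fin (k + 2) → E} {n : ℕ}
  {H₀ : (MvPolynomial (Fin (k + 1)) A₀)[X][X]} {H : K[X][X]}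

theorem rank_m' (hw : AlgebraicIndependent M w) (hK : IntermediateField.adjoin M (Set.range w) = ⊤)
    (hz : AlgebraicIndependent M z) (hE : IntermediateField.adjoin M (Set.range z) = ⊤)
    (hn : 0 < n)
    (hH₀ : Mo n H₀) (hH : H₀.map (mapRingHom (evw A₀ M w)) = H) [IsDedekindDomain (AdjoinRoot H)]
    [Algebra (AdjoinRoot H) E] [IsFractionRing (AdjoinRoot H) E] [IsScalarTower K (AdjoinRoot H) E]
    {f : AdjoinRoot H₀} (hf : f ≠ 0) {r : MvPolynomial (Fin (k + 1)) A₀} (hr0 : r ≠ 0)
    {g : MvPolynomial (Fin (k + 2)) A₀} (hg : g ≠ 0)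
    (haw : @aw (AdjoinRoot H₀) _ E _ ((algebraMap (AdjoinRoot H) E).comp
        (rootMap (mapRingHom (evw A₀ M w)) H₀ H hH)).toAlgebra (f * cst H₀ r) =
      @aw (MvPolynomial (Fin (k + 2)) A₀) _ E _ (evw A₀ M z).toAlgebra g)
    (hcp : ∀ q : MvPolynomial (Fin (k + 1)) M, Irreducible q →
      ¬ q ∣ MvPolynomial.map (algebraMap A₀ M) r →
      Prime (cst (H₀.map (mapRingHom (MvPolynomial.map (algebraMap A₀ M)))) q))
    (hr : ∀ (P' : Type) [CommRing P'] [Nontrivial P'] (φ : MvPolynomial (Fin (k + 1)) A₀ →+* P')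
      (H' : P'[X][X]) (hH' : H₀.map (mapRingHom φ) = H') (q : P'),
      cst H' q ∣ rootMap (mapRingHom φ) H₀ H' hH' f → q ∣ φ r) :
    Module.rank ℤ (Additive (ClassGroup (AdjoinRoot H))) +
      (((Ideal.span {MvPolynomial.map (algebraMap A₀ M) g}).minimalPrimes.ncard : ℕ) : Cardinal) =
      (((Ideal.span {rootMap (mapRingHom (evw A₀ M w)) H₀ H hH f}).minimalPrimes.ncard : ℕ) : Cardinal) +
      (((Ideal.span {MvPolynomial.map (algebraMap A₀ M) r}).minimalPrimes.ncard : ℕ) : Cardinal) +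
      urank K (AdjoinRoot H) ∧ urank K (AdjoinRoot H) ≤
      (((Ideal.span {MvPolynomial.map (algebraMap A₀ M) g}).minimalPrimes.ncard : ℕ) : Cardinal) := by
  have hA : Function.Injective (algebraMap A₀ M) := IsFractionRing.injective A₀ M
  let μ : MvPolynomial (Fin (k + 1)) A₀ →+* MvPolynomial (Fin (k + 1)) M :=
    MvPolynomial.map (algebraMap A₀ M)
  let μT : MvPolynomial (Fin (k + 2)) A₀ →+* MvPolynomial (Fin (k + 2)) M :=
    MvPolynomial.map (algebraMap A₀ M)
  have hμ : Function.Injective μ := MvPolynomial.map_injective _ hA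
  have hμT : Function.Injective μT := MvPolynomial.map_injective _ hA
  obtain ⟨H', hH'⟩ : ∃ H', H₀.map (mapRingHom μ) = H' := ⟨_, rfl⟩
  have hC' : Mo n H' := by rw [← hH']; exact hH₀.map μ
  have hcomp : (evw M M w).comp μ = evw A₀ M w := RingHom.ext fun p => evw_map p
  have hcompT : ∀ p, evw M M z (μT p) = evw A₀ M z p := fun p => evw_map p
  have hHK : H'.map (mapRingHom (evw M M w)) = H := by
    rw [← hH', Polynomial.map_map, mapRingHom_comp, hcomp]
    exact hH
  let κ := rootMap (mapRingHom (evw M M w)) H' H hHK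
  let ι := rootMap (mapRingHom μ) H₀ H' hH'
  have hκι : ∀ c, κ (ι c) = rootMap (mapRingHom (evw A₀ M w)) H₀ H hH c := fun c =>
    rootMap_comp _ _ _ (by rw [mapRingHom_comp, hcomp]) _ _ _ _ _ _ c
  have hMM : IsFractionRing M M := inferInstance
  have hlocK : IsLoc (nonZeroDivisors (MvPolynomial (Fin (k + 1)) M)) (evw M M w) := evw_loc hw hK
  have hlocT : IsLoc (nonZeroDivisors (MvPolynomial (Fin (k + 2)) M)) (evw M M z) := evw_loc hz hE
  letI a1 : Algebra (AdjoinRoot H') (AdjoinRoot H) := κ.toAlgebra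
  letI a2 : Algebra (MvPolynomial (Fin (k + 1)) M) (AdjoinRoot H) := ((cst H).comp (evw M M w)).toAlgebra
  letI a3 : Algebra (MvPolynomial (Fin (k + 1)) M) (AdjoinRoot H') := (cst H').toAlgebra
  letI a4 : Algebra (MvPolynomial (Fin (k + 1)) M) E := ((algebraMap K E).comp (evw M M w)).toAlgebra
  letI a5 : Algebra (AdjoinRoot H') E := ((algebraMap (AdjoinRoot H) E).comp κ).toAlgebra
  letI a6 : Algebra (MvPolynomial (Fin (k + 2)) M) E := (evw M M z).toAlgebra
  have hκcst : ∀ p, κ (cst H' p) = cst H (evw M M w p) := by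
    intro p
    rw [cst_mk, cst_mk]
    show rootMap _ _ _ _ _ = _
    rw [rootMap_mk, map_C, coe_mapRingHom, map_C]
  have hιcst : ∀ p, ι (cst H₀ p) = cst H' (μ p) := by
    intro p
    rw [cst_mk, cst_mk]
    show rootMap _ _ _ _ _ = _
    rw [rootMap_mk, map_C, coe_mapRingHom, map_C]
  have hcstE : ∀ κ₀ : K, algebraMap (AdjoinRoot H) E (cst H κ₀) = algebraMap K E κ₀ := by
    intro κ₀
    rw [IsScalarTower.algebraMap_apply K (AdjoinRoot H) E]
    rfl
  have hκinj : Function.Injective κ := rootMap_inj _ (Polynomial.map_injective _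
    (evw_inj Function.injective_id hw)) H' hC'.1 H hHK
  have hdomC : IsDomain (AdjoinRoot H') := hκinj.isDomain _
  have hιinj : Function.Injective ι := rootMap_inj _ (Polynomial.map_injective _ hμ) H₀
    hH₀.1 H' hH'
  have hrP : μ r ≠ 0 := (map_ne_zero_iff _ hμ).2 hr0
  have hfC : ι f ≠ 0 := (map_ne_zero_iff _ hιinj).2 hf
  have hgT : μT g ≠ 0 := (map_ne_zero_iff _ hμT).2 hg
  have hunit : ∀ (j : ℕ) (t : MvPolynomial (Fin j) M), IsUnit t → ∃ c : M, c ≠ 0 ∧ t = MvPolynomial.C c := by
    intro j t ht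
    obtain ⟨c, hc, h1⟩ := MvPolynomial.isUnit_iff_eq_C_of_isReduced.1 ht
    exact ⟨c, hc.ne_zero, h1⟩
  have hsit : SitU (MvPolynomial (Fin (k + 1)) M) (MvPolynomial (Fin (k + 2)) M) (AdjoinRoot H')
      (AdjoinRoot H) E (ι f) (μ r) (μT g) := by
    refine ⟨?_, ?_, ?_, ?_, ?_, ?_, ?_, ?_, ?_, ?_, ?_, hfC, hrP, hgT, ?_, ?_⟩
    · exact IsScalarTower.of_algebraMap_eq fun p => (hκcst p).symm
    · exact IsScalarTower.of_algebraMap_eq fun c => rfl
    · refine IsScalarTower.of_algebraMap_eq fun p => ?_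
      show algebraMap K E (evw M M w p) = algebraMap (AdjoinRoot H) E (κ (cst H' p))
      rw [hκcst, hcstE]
    · exact cst_inj' hn hC'
    · have h1 : IsLoc (((nonZeroDivisors (MvPolynomial (Fin (k + 1)) M)).map C).map (AdjoinRoot.of H')) κ := by
        refine (hlocK.poly).root ?_ H' hC'.1 H hHK
        rintro _ ⟨s, hs, rfl⟩
        exact mem_nonZeroDivisors_of_ne_zero fun h => nonZeroDivisors.ne_zero hs (C_eq_zero.1 h)
      have h2 : Algebra.algebraMapSubmonoid (AdjoinRoot H')
          (nonZeroDivisors (MvPolynomial (Fin (k + 1)) M)) =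
          ((nonZeroDivisors (MvPolynomial (Fin (k + 1)) M)).map C).map (AdjoinRoot.of H') := by
        ext c
        constructor
        · rintro ⟨p, hp, rfl⟩
          exact ⟨_, ⟨p, hp, rfl⟩, rfl⟩
        · rintro ⟨_, ⟨p, hp, rfl⟩, rfl⟩
          exact ⟨p, hp, rfl⟩
      rw [h2]
      exact h1
    · infer_instance
    · exact hlocT
    · intro t ht
      obtain ⟨c, hc, rfl⟩ := hunit _ t ht
      refine ⟨MvPolynomial.C c, (isUnit_iff_ne_zero.2 hc).map _, ?_⟩
      show algebraMap K E (evw M M w (MvPolynomial.C c)) = evw M M z (MvPolynomial.C c)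
      rw [evw_C, evw_C, ← IsScalarTower.algebraMap_apply M K E]
    · intro p hp
      obtain ⟨c, hc, rfl⟩ := hunit _ p hp
      refine ⟨MvPolynomial.C c, (isUnit_iff_ne_zero.2 hc).map _, ?_⟩
      show algebraMap K E (evw M M w (MvPolynomial.C c)) = evw M M z (MvPolynomial.C c)
      rw [evw_C, evw_C, ← IsScalarTower.algebraMap_apply M K E]
    · intro q hq hqr
      subst hH'
      exact hcp q hq hqr
    · intro q p _ h
      exact cst_dvd' hn hC' h
    · intro e
      letI a7 : Algebra (AdjoinRoot H₀) E := ((algebraMap (AdjoinRoot H) E).comp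
        (rootMap (mapRingHom (evw A₀ M w)) H₀ H hH)).toAlgebra
      letI a8 : Algebra (MvPolynomial (Fin (k + 2)) A₀) E := (evw A₀ M z).toAlgebra
      have hawE : aw E (f * cst H₀ r) = aw E g := haw
      have u1 : ∀ x : AdjoinRoot H₀, algebraMap (AdjoinRoot H') E (ι x) = algebraMap (AdjoinRoot H₀) E x := by
        intro x
        show algebraMap (AdjoinRoot H) E (κ (ι x)) = algebraMap (AdjoinRoot H) E (rootMap _ _ _ _ x)
        rw [hκι]
      have u2 : ∀ x, algebraMap (MvPolynomial (Fin (k + 2)) M) E (μT x) =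
          algebraMap (MvPolynomial (Fin (k + 2)) A₀) E x := hcompT
      have hdom₀ : IsDomain (AdjoinRoot H₀) := hιinj.isDomain _
      have u3 : f * cst H₀ r ≠ 0 := mul_ne_zero hf ((map_ne_zero_iff _ (cst_inj' hn hH₀)).2 hr0)
      have iA : Function.Injective (algebraMap (AdjoinRoot H) E) := IsFractionRing.injective _ _
      have u4 : algebraMap (AdjoinRoot H₀) E (f * cst H₀ r) ≠ 0 := by
        rw [← u1]
        exact (map_ne_zero_iff _ iA).2 ((map_ne_zero_iff _ hκinj).2 ((map_ne_zero_iff _ hιinj).2 u3))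
      have u5 : algebraMap (MvPolynomial (Fin (k + 2)) A₀) E g ≠ 0 :=
        (map_ne_zero_iff _ (evw_inj hA hz)).2 hg
      have u6 : ∀ a : A₀, algebraMap (AdjoinRoot H₀) E (cst H₀ (MvPolynomial.C a)) =
          algebraMap M E (algebraMap A₀ M a) := by
        intro a
        rw [← u1, hιcst]
        show algebraMap (AdjoinRoot H) E (κ (cst H' (MvPolynomial.map (algebraMap A₀ M)
          (MvPolynomial.C a)))) = _
        rw [MvPolynomial.map_C, hκcst, evw_C, hcstE]
        exact (IsScalarTower.algebraMap_apply M K E _).symm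
      have u7 : ∀ a : A₀, algebraMap (MvPolynomial (Fin (k + 2)) A₀) E (MvPolynomial.C a) =
          algebraMap M E (algebraMap A₀ M a) := fun a => evw_C a
      have u8 : ∀ c : M, algebraMap (MvPolynomial (Fin (k + 2)) M) E (MvPolynomial.C c) =
          algebraMap M E c := fun c => evw_C (A₀ := M) c
      have u9 : ∀ c : M, algebraMap (AdjoinRoot H') E (cst H' (MvPolynomial.C c)) =
          algebraMap M E c := by
        intro c
        show algebraMap (AdjoinRoot H) E (κ (cst H' (MvPolynomial.C c))) = _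
        rw [hκcst, evw_C, hcstE]
        exact (IsScalarTower.algebraMap_apply M K E _).symm
      have hAM := isLoc_iff.2 (inferInstance : IsFractionRing A₀ M)
      have hμloc : IsLoc ((nonZeroDivisors A₀).map MvPolynomial.C) μ := hAM.mv (Fin (k + 1))
      have hμTloc : IsLoc ((nonZeroDivisors A₀).map MvPolynomial.C) μT := hAM.mv (Fin (k + 2))
      have hιloc : IsLoc ((((nonZeroDivisors A₀).map MvPolynomial.C).map
          (C : MvPolynomial (Fin (k + 1)) A₀ →+* _)).map (AdjoinRoot.of H₀)) ι := by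
        refine (hμloc.poly).root ?_ H₀ hH₀.1 H' hH'
        rintro _ ⟨_, ⟨a, ha, rfl⟩, rfl⟩
        refine mem_nonZeroDivisors_of_ne_zero fun h => nonZeroDivisors.ne_zero ha ?_
        exact MvPolynomial.C_injective _ _ (by rw [C_eq_zero.1 h, map_zero])
      have l1 : aw E (ι (f * cst H₀ r)) ≤ aw E (μT g) := by
        refine aw_lift_le hιloc u1 u2 u4 u5 ?_ hawE.le
        rintro _ ⟨_, ⟨_, ⟨a, ha, rfl⟩, rfl⟩, rfl⟩
        refine ⟨MvPolynomial.C (algebraMap A₀ M a)⁻¹, ?_⟩
        rw [u8, map_inv₀]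
        exact congrArg _ (u6 a).symm
      have l2 : aw E (μT g) ≤ aw E (ι (f * cst H₀ r)) := by
        refine aw_lift_le hμTloc u2 u1 u5 u4 ?_ hawE.ge
        rintro _ ⟨a, ha, rfl⟩
        refine ⟨cst H' (MvPolynomial.C (algebraMap A₀ M a)⁻¹), ?_⟩
        rw [u9, map_inv₀]
        exact congrArg _ (u7 a).symm
      have l3 : aw E (ι f * cst H' (μ r)) = aw E (μT g) := by
        rw [← hιcst, ← map_mul]
        exact le_antisymm l1 l2
      show e ∈ aw E (ι f * cst H' (μ r)) ↔ e ∈ aw E (μT g)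
      rw [l3]
    · intro q hq hqr h
      exact hqr (hr _ _ _ hH' q h)
  have h9 := rank_rel' hsit
  have h10 : algebraMap (AdjoinRoot H') (AdjoinRoot H) (ι f) =
      rootMap (mapRingHom (evw A₀ M w)) H₀ H hH f := hκι f
  rw [h10] at h9
  rw [urank_eq (P := MvPolynomial (Fin (k + 1)) M) (K := K) (A := AdjoinRoot H) (E := E)
    (evw M M w) hlocK (fun p => rfl)] at h9
  exact h9

end

end Pool.Agent.Run7.h642.PL
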