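import Pool.Agent.Run7.h642.PL.Ac
import Pool.Agent.Run7.h642.PL.Sm
import Pool.Agent.Run7.h642.PL.Prm

/-!
# The rank and the sum of the traces
-/

set_option autoImplicit false
set_option linter.all false
set_option maxHeartbeats 1000000

open Polynomial

namespace Pool.Agent.Run7.h642.PL

open Pool.Agent.R410.NG (Asy Ff)
open Pool.Agent.R410.LW (ft_int)
open Pool.Agent.Run7.h954.CP

/-- **The rank and the sum of the traces.** -/
theorem core' {M K E A₀ : Type} [Field M] [CharZero M] [Field K] [CharZero K] [Field E] [Algebra M K]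
    [Algebra K E] [Algebra M E] [IsScalarTower M K E]
    [CommRing A₀] [IsDomain A₀] [Algebra.FiniteType ℤ A₀] [Algebra A₀ M] [IsFractionRing A₀ M]
    {d k : ℕ} {w : Fin (k + 1) → K} {z : Fin (k + 2) → E} {g h : ℕ}
    {H₀ : (MvPolynomial (Fin (k + 1)) A₀)[X][X]} {H : K[X][X]}
    (hd : Algebra.trdeg ℚ M = d) (hw : AlgebraicIndependent M w)
    (hK : IntermediateField.adjoin M (Set.range w) = ⊤)
    (hz : AlgebraicIndependent M z) (hE : IntermediateField.adjoin M (Set.range z) = ⊤)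
    (hg : 0 < g) (hh : 0 < h)
    (hH₀ : IsPl g h H₀) (hH : H₀.map (mapRingHom (evw A₀ M w)) = H) (hs : IsSmooth H)
    (hψ : (psi g h H).Separable) [IsDedekindDomain (AdjoinRoot H)]
    [Algebra (AdjoinRoot H) E] [IsFractionRing (AdjoinRoot H) E] [IsScalarTower K (AdjoinRoot H) E] :
    ∃ (ρ u : ℕ) (N : MvPolynomial (Fin (k + 1)) A₀), N ≠ 0 ∧
      (∀ (F : Type) [Field F] (φ : MvPolynomial (Fin (k + 1)) A₀ →+* F), φ N ≠ 0 →
        IsSmooth (H₀.map (mapRingHom φ)) ∧ (psi g h (H₀.map (mapRingHom φ))).Separable) ∧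
      Module.rank ℤ (Additive (ClassGroup (AdjoinRoot H))) = ρ ∧ urank K (AdjoinRoot H) = u ∧
      Asy (fun F _ _ => sC H₀ N F) (d + (k + 1)) ((u : ℝ) - ρ) := by
  classical
  have hA : Function.Injective (algebraMap A₀ M) := IsFractionRing.injective A₀ M
  letI a7 : Algebra (AdjoinRoot H₀) E := ((algebraMap (AdjoinRoot H) E).comp
    (rootMap (mapRingHom (evw A₀ M w)) H₀ H hH)).toAlgebra
  letI a8 : Algebra (MvPolynomial (Fin (k + 2)) A₀) E := (evw A₀ M z).toAlgebra
  have hftP : ∀ j : ℕ, @Algebra.FiniteType ℤ (MvPolynomial (Fin j) A₀) _ _ (Ring.toIntAlgebra _) := by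
    intro j
    have h1 : Algebra.FiniteType A₀ (MvPolynomial (Fin j) A₀) := inferInstance
    exact ft_int _ (Algebra.FiniteType.trans (inferInstance : Algebra.FiniteType ℤ A₀) h1)
  have hftC : @Algebra.FiniteType ℤ (AdjoinRoot H₀) _ _ (Ring.toIntAlgebra _) := by
    have h1 : Algebra.FiniteType A₀ (MvPolynomial (Fin (k + 1)) A₀) := inferInstance
    have h2 : Algebra.FiniteType ℤ (MvPolynomial (Fin (k + 1)) A₀) :=
      Algebra.FiniteType.trans (inferInstance : Algebra.FiniteType ℤ A₀) h1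
    have h3 : Algebra.FiniteType ℤ (AdjoinRoot H₀) := inferInstance
    exact ft_int _ h3
  have hftP2 := hftP (k + 2)
  have hlocK := evw_loc (A₀ := A₀) hw hK
  have hSC : (nonZeroDivisors (MvPolynomial (Fin (k + 1)) A₀)).map
      (C : MvPolynomial (Fin (k + 1)) A₀ →+* (MvPolynomial (Fin (k + 1)) A₀)[X]) ≤
      nonZeroDivisors (MvPolynomial (Fin (k + 1)) A₀)[X] := by
    rintro _ ⟨s, hs, rfl⟩
    exact mem_nonZeroDivisors_of_ne_zero fun h => nonZeroDivisors.ne_zero hs (C_eq_zero.1 h)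
  have hmo : Mo g H₀ := hH₀.monic hh
  have hm₀ := hmo.1
  have hloc := (hlocK.poly).root hSC H₀ hm₀ H hH
  have hinj : Function.Injective (rootMap (mapRingHom (evw A₀ M w)) H₀ H hH) :=
    rootMap_inj _ (Polynomial.map_injective _ (evw_inj hA hw)) H₀ hm₀ H hH
  have hd₀ : IsDomain (AdjoinRoot H₀) := hinj.isDomain _
  have hfrC : IsFractionRing (AdjoinRoot H₀) E := loc_frac (E := E) hloc hinj
  have hfrT : IsFractionRing (MvPolynomial (Fin (k + 2)) A₀) E := evw_loc hz hE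
  have iC : Function.Injective (algebraMap (AdjoinRoot H₀) E) := IsFractionRing.injective _ _
  have iT : Function.Injective (algebraMap (MvPolynomial (Fin (k + 2)) A₀) E) :=
    IsFractionRing.injective _ _
  -- the good points
  obtain ⟨N₀, hN₀, hgood⟩ : ∃ N : MvPolynomial (Fin (k + 1)) A₀, N ≠ 0 ∧
      ∀ (F : Type) [Field F] (φ : MvPolynomial (Fin (k + 1)) A₀ →+* F), φ N ≠ 0 →
      IsSmooth (H₀.map (mapRingHom φ)) ∧ (psi g h (H₀.map (mapRingHom φ))).Separable := by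
    letI aP : Algebra (MvPolynomial (Fin (k + 1)) A₀) K := (evw A₀ M w).toAlgebra
    have hfrP : IsFractionRing (MvPolynomial (Fin (k + 1)) A₀) K := hlocK
    refine exists_good' (K := K) (G := H₀) ?_ ?_
    · show IsSmooth (H₀.map (mapRingHom (evw A₀ M w)))
      rw [hH]
      exact hs
    · show (psi g h (H₀.map (mapRingHom (evw A₀ M w)))).Separable
      rw [hH]
      exact hψ
  obtain ⟨f, g₁, hf, hg₁, haw₁⟩ := bir_eq (R := AdjoinRoot H₀) (B := MvPolynomial (Fin (k + 2)) A₀)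
    (E := E)
  obtain ⟨r₁, hr1, hr₁⟩ := exists_coeff' hg hmo hf
  have hr0 : r₁ * N₀ ≠ 0 := mul_ne_zero hr1 hN₀
  have hr : ∀ (P' : Type) [CommRing P'] [Nontrivial P'] (φ : MvPolynomial (Fin (k + 1)) A₀ →+* P')
      (H' : P'[X][X]) (hH' : H₀.map (mapRingHom φ) = H') (q : P'),
      cst H' q ∣ rootMap (mapRingHom φ) H₀ H' hH' f → q ∣ φ (r₁ * N₀) := by
    intro P' _ _ φ H' hH' q hq
    rw [map_mul]
    exact (hr₁ P' φ H' hH' q hq).mul_right _
  obtain ⟨g₂, hg2, haw⟩ := aw_mul iC iT hf hg₁ haw₁ (cst H₀ (r₁ * N₀))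
    ((map_ne_zero_iff _ (cst_inj' hg hmo)).2 hr0)
  have hcomp : ∀ a : A₀, algebraMap (AdjoinRoot H₀) E (cst H₀ (MvPolynomial.C a)) =
      algebraMap (MvPolynomial (Fin (k + 2)) A₀) E (MvPolynomial.C a) := by
    intro a
    have e2 : algebraMap (MvPolynomial (Fin (k + 2)) A₀) E (MvPolynomial.C a) =
        algebraMap M E (algebraMap A₀ M a) := evw_C a
    rw [e2]
    show algebraMap (AdjoinRoot H) E (rootMap (mapRingHom (evw A₀ M w)) H₀ H hH
      (cst H₀ (MvPolynomial.C a))) = _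
    have e1 : rootMap (mapRingHom (evw A₀ M w)) H₀ H hH (cst H₀ (MvPolynomial.C a)) =
        algebraMap K (AdjoinRoot H) (algebraMap M K (algebraMap A₀ M a)) := by
      rw [cst_mk, rootMap_mk, map_C, coe_mapRingHom, map_C, evw_C]
      rfl
    rw [e1, ← IsScalarTower.algebraMap_apply K (AdjoinRoot H) E, ← IsScalarTower.algebraMap_apply M K E]
  -- the prime constants
  have hcp : ∀ q : MvPolynomial (Fin (k + 1)) M, Irreducible q →
      ¬ q ∣ MvPolynomial.map (algebraMap A₀ M) (r₁ * N₀) →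
      Prime (cst (H₀.map (mapRingHom (MvPolynomial.map (algebraMap A₀ M)))) q) := by
    intro q hq hqr
    refine pl_cst_prime hg hh (hH₀.map (MvPolynomial.map (algebraMap A₀ M)))
      (N := MvPolynomial.map (algebraMap A₀ M) N₀) ?_ hq.prime ?_
    · intro F _ φ hφ
      have h1 := hgood F (φ.comp (MvPolynomial.map (algebraMap A₀ M))) hφ
      rw [Polynomial.map_map, mapRingHom_comp]
      exact h1
    · intro hd
      apply hqr
      rw [map_mul]
      exact hd.mul_left _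
  obtain ⟨N, hN, hrN, hasy⟩ := asy_core' hd hw hK hg hmo hH iC iT hcomp hf hr0 hg2 haw hcp hr
  obtain ⟨hrank, hule⟩ := rank_m' hw hK hz hE hg hmo hH hf hr0 hg2 haw hcp hr
  obtain ⟨u, hu⟩ : ∃ u : ℕ, urank K (AdjoinRoot H) = u :=
    Cardinal.lt_aleph0.1 (lt_of_le_of_lt hule Cardinal.natCast_lt_aleph0)
  rw [hu] at hrank
  obtain ⟨ρ, hρ⟩ : ∃ ρ : ℕ, Module.rank ℤ (Additive (ClassGroup (AdjoinRoot H))) = ρ := by
    have h0 : Module.rank ℤ (Additive (ClassGroup (AdjoinRoot H))) ≤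
        Module.rank ℤ (Additive (ClassGroup (AdjoinRoot H))) +
        (((Ideal.span {MvPolynomial.map (algebraMap A₀ M) g₂}).minimalPrimes.ncard : ℕ) : Cardinal) :=
      self_le_add_right _ _
    apply Cardinal.lt_aleph0.1
    refine lt_of_le_of_lt h0 ?_
    rw [hrank, ← Nat.cast_add, ← Nat.cast_add]
    exact Cardinal.natCast_lt_aleph0
  rw [hρ] at hrank
  refine ⟨ρ, u, N, hN, ?_, hρ, hu, ?_⟩
  · intro F _ φ hφ
    refine hgood F φ fun h0 => hφ ?_
    obtain ⟨t, ht⟩ := hrN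
    rw [ht, map_mul, map_mul, h0, mul_zero, zero_mul]
  have h1 : ρ + (Ideal.span {MvPolynomial.map (algebraMap A₀ M) g₂}).minimalPrimes.ncard =
      (Ideal.span {rootMap (mapRingHom (evw A₀ M w)) H₀ H hH f}).minimalPrimes.ncard +
      (Ideal.span {MvPolynomial.map (algebraMap A₀ M) (r₁ * N₀)}).minimalPrimes.ncard + u := by
    exact_mod_cast hrank
  have h2 : (ρ : ℝ) + ((Ideal.span {MvPolynomial.map (algebraMap A₀ M) g₂}).minimalPrimes.ncard : ℕ) =
      ((Ideal.span {rootMap (mapRingHom (evw A₀ M w)) H₀ H hH f}).minimalPrimes.ncard : ℕ) +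
      ((Ideal.span {MvPolynomial.map (algebraMap A₀ M) (r₁ * N₀)}).minimalPrimes.ncard : ℕ) + u := by
    exact_mod_cast h1
  have h3 : ((((Ideal.span {MvPolynomial.map (algebraMap A₀ M) g₂}).minimalPrimes.ncard : ℕ) : ℝ) -
        ((Ideal.span {MvPolynomial.map (algebraMap A₀ M) (r₁ * N₀)}).minimalPrimes.ncard : ℕ) -
        ((Ideal.span {rootMap (mapRingHom (evw A₀ M w)) H₀ H hH f}).minimalPrimes.ncard : ℕ)) =
        (u : ℝ) - ρ := by linarith
  rw [← h3]
  exact hasy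

end Pool.Agent.Run7.h642.PL
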