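import Pool.Agent.Run7.h642.PL.Prm
import Pool.Agent.Run7.h954.CP.Ded

/-!
# The coordinate ring of a smooth affine plane curve is a Dedekind domain
-/

set_option autoImplicit false
set_option linter.all false
set_option maxHeartbeats 1000000

open Polynomial

namespace Pool.Agent.Run7.h642.PL

open Pool.Agent.Run7.h954.CP

section
variable {K : Type} [Field K]

/-- the substitution `x, y ↦ X, X ^ m + Y` -/
noncomputable def tT (m : ℕ) : K[X][X] →+* K[X][X] :=
  eval₂RingHom (mapRingHom (C : K →+* K[X])) (X ^ m + C X)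

/-- the inverse substitution -/
noncomputable def tT' (m : ℕ) : K[X][X] →+* K[X][X] :=
  eval₂RingHom (eval₂RingHom ((C : K[X] →+* K[X][X]).comp (C : K →+* K[X])) (X - C (X ^ m))) (C X)

theorem tT_C (m : ℕ) (a : K[X]) : tT m (C a) = a.map C := by
  unfold tT
  rw [coe_eval₂RingHom, eval₂_C, coe_mapRingHom]

theorem tT_X (m : ℕ) : tT m (X : K[X][X]) = X ^ m + C X := by
  unfold tT
  rw [coe_eval₂RingHom, eval₂_X]

theorem tT'_X (m : ℕ) : tT' m (X : K[X][X]) = C X := by
  unfold tT'
  rw [coe_eval₂RingHom, eval₂_X]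

theorem tT'_C (m : ℕ) (a : K[X]) : tT' m (C a) = eval₂ ((C : K[X] →+* K[X][X]).comp (C : K →+* K[X]))
    (X - C (X ^ m)) a := by
  unfold tT'
  rw [coe_eval₂RingHom, eval₂_C, coe_eval₂RingHom]

theorem tT'_CX (m : ℕ) : tT' m (C (X : K[X])) = X - C (X ^ m) := by
  rw [tT'_C, eval₂_X]

theorem tT'_CC (m : ℕ) (a : K) : tT' m (C (C a)) = C (C a) := by
  rw [tT'_C, eval₂_C]
  rfl

theorem tT'_tT (m : ℕ) : (tT' m).comp (tT m) = RingHom.id K[X][X] := by
  apply Polynomial.ringHom_ext'
  · apply Polynomial.ringHom_ext'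
    · ext a : 1
      show tT' m (tT m (C (C a))) = C (C a)
      rw [tT_C, map_C, tT'_CC]
    · show tT' m (tT m (C X)) = C X
      rw [tT_C, map_X, tT'_X]
  · show tT' m (tT m X) = X
    rw [tT_X, map_add, map_pow, tT'_X, tT'_CX, C_pow]
    ring

theorem tT_tT' (m : ℕ) : (tT m).comp (tT' m) = RingHom.id K[X][X] := by
  apply Polynomial.ringHom_ext'
  · apply Polynomial.ringHom_ext'
    · ext a : 1
      show tT m (tT' m (C (C a))) = C (C a)
      rw [tT'_CC, tT_C, map_C]
    · show tT m (tT' m (C X)) = C X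
      rw [tT'_CX, map_sub, tT_X, tT_C, Polynomial.map_pow, map_X]
      ring
  · show tT m (tT' m X) = X
    rw [tT'_X, tT_C, map_X]

/-- the substitution is an automorphism -/
noncomputable def tE (m : ℕ) : K[X][X] ≃+* K[X][X] :=
  RingEquiv.ofRingHom (tT m) (tT' m) (tT_tT' m) (tT'_tT m)

theorem dx_C (a : K[X]) : dx (C a : K[X][X]) = C (derivative a) := by
  unfold dx
  rw [Bivariate.swap_C, Polynomial.derivative_map, ← Bivariate.swap_C, Bivariate.swap_swap_apply]

theorem dx_X : dx (X : K[X][X]) = 0 := by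
  unfold dx
  rw [Bivariate.swap_Y, derivative_C, map_zero]

/-- the chain rule -/
theorem deriv_tT (m : ℕ) (P : K[X][X]) : derivative (tT m P) =
    tT m (dx P) + tT m (derivative P) * derivative (X ^ m) := by
  have hC : ∀ a : K[X], derivative (tT m (C a)) =
      tT m (dx (C a)) + tT m (derivative (C a)) * derivative (X ^ m) := by
    intro a
    rw [dx_C, derivative_C, map_zero, zero_mul, add_zero, tT_C, tT_C, derivative_map]
  have hX : derivative (tT m (X : K[X][X])) =
      tT m (dx X) + tT m (derivative X) * derivative (X ^ m) := by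
    rw [dx_X, map_zero, zero_add, derivative_X, map_one, one_mul, tT_X, derivative_add, derivative_C,
      add_zero]
  have hmul : ∀ P Q : K[X][X], derivative (tT m P) =
      tT m (dx P) + tT m (derivative P) * derivative (X ^ m) → derivative (tT m Q) =
      tT m (dx Q) + tT m (derivative Q) * derivative (X ^ m) → derivative (tT m (P * Q)) =
      tT m (dx (P * Q)) + tT m (derivative (P * Q)) * derivative (X ^ m) := by
    intro P Q hP hQ
    rw [map_mul, derivative_mul, hP, hQ, dx_mul, derivative_mul, map_add, map_mul, map_mul, map_add,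
      map_mul, map_mul]
    ring
  induction P using Polynomial.induction_on with
  | C a => exact hC a
  | add p q hp hq =>
    have h1 : dx (p + q) = dx p + dx q := by
      unfold dx
      rw [map_add, derivative_add, map_add]
    rw [map_add, derivative_add, hp, hq, h1, derivative_add, map_add, map_add]
    ring
  | monomial n a ih =>
    rw [pow_succ, ← mul_assoc]
    exact hmul _ _ ih hX

/-- the substitution makes the polynomial monic in `X` -/
theorem tT_monic {H : K[X][X]} (hH : H.Monic) (hd : 0 < H.natDegree) : ∃ m : ℕ, (tT m H).Monic := by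
  classical
  obtain ⟨m, hm⟩ : ∃ m : ℕ, ∀ j, (H.coeff j).natDegree < m := by
    refine ⟨(H.support.sup fun j => (H.coeff j).natDegree) + 1, fun j => ?_⟩
    by_cases hj : j ∈ H.support
    · exact Nat.lt_succ_of_le (Finset.le_sup (f := fun j => (H.coeff j).natDegree) hj)
    · rw [notMem_support_iff.1 hj, natDegree_zero]
      exact Nat.succ_pos _
  have hm0 : 0 < m := lt_of_le_of_lt (Nat.zero_le _) (hm 0)
  refine ⟨m, ?_⟩
  set V : K[X][X] := X ^ m + C X with hV
  have hVm : V.Monic := by
    rw [hV]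
    exact monic_X_pow_add_C _ hm0.ne'
  have hVd : V.natDegree = m := natDegree_X_pow_add_C
  have h1 : tT m H = ∑ j ∈ Finset.range H.natDegree, (H.coeff j).map C * V ^ j + V ^ H.natDegree := by
    have h2 : tT m H = eval₂ (mapRingHom (C : K →+* K[X])) V H := rfl
    rw [h2, eval₂_eq_sum_range, Finset.sum_range_succ, hH.coeff_natDegree, map_one, one_mul]
    rfl
  have h3 : (∑ j ∈ Finset.range H.natDegree, (H.coeff j).map C * V ^ j).degree <
      (V ^ H.natDegree).degree := by
    rw [degree_eq_natDegree (hVm.pow _).ne_zero, hVm.natDegree_pow, hVd]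
    refine lt_of_le_of_lt (degree_sum_le _ _) ?_
    rw [Finset.sup_lt_iff (WithBot.bot_lt_coe _)]
    intro j hj
    rw [Finset.mem_range] at hj
    refine lt_of_le_of_lt degree_le_natDegree ?_
    have h4 : ((H.coeff j).map (C : K →+* K[X]) * V ^ j).natDegree ≤ (H.coeff j).natDegree + j * m := by
      refine natDegree_mul_le.trans ?_
      rw [hVm.natDegree_pow, hVd]
      exact Nat.add_le_add_right natDegree_map_le _
    have h5 := hm j
    have h6 : (j + 1) * m ≤ H.natDegree * m := Nat.mul_le_mul_right _ hj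
    rw [add_mul, one_mul] at h6
    exact_mod_cast (show ((H.coeff j).map (C : K →+* K[X]) * V ^ j).natDegree < H.natDegree * m by omega)
  rw [h1, add_comm]
  exact (hVm.pow _).add_of_left h3

end

section
variable {K : Type} [Field K] [CharZero K]

theorem span_tE (m : ℕ) (H : K[X][X]) : (Ideal.span {tT m H} : Ideal K[X][X]) =
    Ideal.map ((tE m : K[X][X] ≃+* K[X][X]) : K[X][X] →+* K[X][X]) (Ideal.span {H}) := by
  rw [Ideal.map_span, Set.image_singleton]
  rfl

/-- the change of the coordinates -/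
noncomputable def tA (m : ℕ) (H : K[X][X]) : AdjoinRoot H ≃+* AdjoinRoot (tT m H) :=
  Ideal.quotientEquiv (Ideal.span {H}) (Ideal.span {tT m H}) (tE m) (span_tE m H)

theorem tA_mk (m : ℕ) (H P : K[X][X]) :
    tA m H (AdjoinRoot.mk H P) = AdjoinRoot.mk (tT m H) (tT m P) := rfl

theorem tA_symm_mk (m : ℕ) (H P : K[X][X]) :
    (tA m H).symm (AdjoinRoot.mk (tT m H) (tT m P)) = AdjoinRoot.mk H P := by
  rw [← tA_mk, RingEquiv.symm_apply_apply]

theorem int_closed' {H : K[X][X]} (hmon : H.Monic) (hpr : Prime H) (hs : IsSmooth H) {m : ℕ}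
    (hmon' : (tT m H).Monic) {L L' : Type} [Field L]
    [Field L'] [Algebra (AdjoinRoot H) L] [Algebra (AdjoinRoot (tT m H)) L']
    [IsFractionRing (AdjoinRoot H) L] [IsFractionRing (AdjoinRoot (tT m H)) L']
    (z : L) (hz : IsIntegral (AdjoinRoot H) z) : ∃ y, algebraMap (AdjoinRoot H) L y = z := by
  have hpr' : Prime (tT m H) := (MulEquiv.prime_iff (tE m : K[X][X] ≃+* K[X][X])).2 hpr
  haveI hdom : IsDomain (AdjoinRoot H) := AdjoinRoot.isDomain_of_prime hpr
  haveI hdom' : IsDomain (AdjoinRoot (tT m H)) := AdjoinRoot.isDomain_of_prime hpr'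
  let E : L ≃+* L' := IsFractionRing.ringEquivOfRingEquiv (tA m H)
  have hE : ∀ a, E (algebraMap _ L a) = algebraMap _ L' (tA m H a) :=
    fun a => IsFractionRing.ringEquivOfRingEquiv_algebraMap (tA m H) a
  have hEs : ∀ a, E.symm (algebraMap _ L' a) = algebraMap _ L ((tA m H).symm a) := by
    intro a
    rw [RingEquiv.symm_apply_eq, hE, RingEquiv.apply_symm_apply]
  obtain ⟨a1, h1⟩ := deriv_mul_mem hmon hpr z hz
  have hz' : IsIntegral (AdjoinRoot (tT m H)) (E z) := by
    refine hz.map_of_comp_eq (tA m H).toRingHom E.toRingHom ?_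
    exact RingHom.ext fun a => (hE a).symm
  obtain ⟨a2, h2⟩ := deriv_mul_mem hmon' hpr' (E z) hz'
  have h3 := congrArg E.symm h2
  obtain ⟨c, hc⟩ : ∃ c : K[X][X], tT m c = derivative (X ^ m) := (tE m).surjective _
  have h4 : derivative (tT m H) = tT m (dx H + derivative H * c) := by
    rw [deriv_tT, map_add, map_mul, hc]
  rw [map_mul, hEs, hEs, RingEquiv.symm_apply_apply, h4, tA_symm_mk] at h3
  unfold IsSmooth at hs
  have h5 : (1 : K[X][X]) ∈ Ideal.span {H, derivative H, dx H} := by rw [hs]; trivial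
  obtain ⟨u, v, w, h6⟩ := Submodule.mem_span_triple.1 h5
  have h7 : AdjoinRoot.mk H v * AdjoinRoot.mk H (derivative H) +
      AdjoinRoot.mk H w * AdjoinRoot.mk H (dx H) = 1 := by
    have := congrArg (AdjoinRoot.mk H) h6
    simp only [smul_eq_mul, map_add, map_mul, AdjoinRoot.mk_self, mul_zero, zero_add, map_one] at this
    exact this
  refine ⟨AdjoinRoot.mk H v * a1 + AdjoinRoot.mk H w * ((tA m H).symm a2 - AdjoinRoot.mk H c * a1), ?_⟩
  have h8 := congrArg (algebraMap (AdjoinRoot H) L) h7
  rw [map_add, map_mul, map_mul, map_one] at h8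
  rw [map_add, map_mul] at h3
  rw [map_add, map_mul] at h3
  rw [map_add, map_mul, map_mul, map_sub, map_mul, h1, h3]
  linear_combination z * h8

/-- **The coordinate ring of a smooth irreducible affine plane curve is a Dedekind domain.** -/
theorem dedekind_smooth {H : K[X][X]} (hmon : H.Monic) (hpr : Prime H) (hs : IsSmooth H) :
    IsDedekindDomain (AdjoinRoot H) := by
  haveI hdom : IsDomain (AdjoinRoot H) := AdjoinRoot.isDomain_of_prime hpr
  haveI hfin : Module.Finite K[X] (AdjoinRoot H) := hmon.finite_adjoinRoot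
  have hd : 0 < H.natDegree := by
    rcases Nat.eq_zero_or_pos H.natDegree with h0 | h0
    · exact (hpr.not_unit (by rw [hmon.natDegree_eq_zero.1 h0]; exact isUnit_one)).elim
    · exact h0
  obtain ⟨m, hm⟩ := tT_monic hmon hd
  have hpr' : Prime (tT m H) := (MulEquiv.prime_iff (tE m : K[X][X] ≃+* K[X][X])).2 hpr
  haveI hdom' : IsDomain (AdjoinRoot (tT m H)) := AdjoinRoot.isDomain_of_prime hpr'
  rw [isDedekindDomain_iff (AdjoinRoot H) (FractionRing (AdjoinRoot H))]
  refine ⟨hdom, ?_, ?_, ?_⟩
  · exact isNoetherianRing_of_surjective _ _ (AdjoinRoot.mk H) AdjoinRoot.mk_surjective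
  · exact Ring.DimensionLEOne.of_isIntegral K[X] (AdjoinRoot H)
  · intro z hz
    exact int_closed' (L' := FractionRing (AdjoinRoot (tT m H))) hmon hpr hs hm z hz

end

end Pool.Agent.Run7.h642.PL
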