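import Pool.Agent.Run7.h954.CP.Def
import Pool.Agent.Run7.h954.CP.Wt

/-!
# Plane curves of weighted degree `g h` which are monic in `y`
-/

set_option autoImplicit false
set_option linter.all false

open Polynomial

namespace Pool.Agent.Run7.h642.PL

open Pool.Agent.Run7.h954.CP

section
variable {R : Type*} [CommRing R]

/-- all the monomials `x^i y^j` satisfy `i + h j ≤ g h`, and the coefficient of `y^g` is `1` -/
def IsPl (g h : ℕ) (H : R[X][X]) : Prop :=
  (∀ i j : ℕ, (H.coeff j).coeff i ≠ 0 → i + h * j ≤ g * h) ∧ (H.coeff g).coeff 0 = 1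

/-- the polynomial of the points at infinity -/
noncomputable def psi (g h : ℕ) (H : R[X][X]) : R[X] :=
  ∑ j ∈ Finset.range (g + 1), C ((H.coeff j).coeff (h * (g - j))) * X ^ j

theorem psi_coeff (g h : ℕ) (H : R[X][X]) (j : ℕ) :
    (psi g h H).coeff j = if j ≤ g then (H.coeff j).coeff (h * (g - j)) else 0 := by
  unfold psi
  rw [finset_sum_coeff]
  simp only [coeff_C_mul_X_pow]
  by_cases hj : j ≤ g
  · rw [if_pos hj, Finset.sum_eq_single j]
    · rw [if_pos rfl]
    · intro b _ hb
      rw [if_neg (Ne.symm hb)]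
    · intro hn
      exact absurd (Finset.mem_range.2 (by omega)) hn
  · rw [if_neg hj]
    refine Finset.sum_eq_zero fun b hb => ?_
    rw [Finset.mem_range] at hb
    rw [if_neg (by omega)]

variable {g h : ℕ}

theorem IsPl.top (hh : 0 < h) {H : R[X][X]} (hH : IsPl g h H) : H.coeff g = 1 := by
  ext i
  rw [coeff_one]
  by_cases hi : i = 0
  · rw [if_pos hi, hi, hH.2]
  · rw [if_neg hi]
    by_contra h0
    have h1 := hH.1 i g h0
    rw [mul_comm] at h1
    omega

theorem IsPl.high (hh : 0 < h) {H : R[X][X]} (hH : IsPl g h H) {j : ℕ} (hj : g < j) : H.coeff j = 0 := by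
  ext i
  rw [coeff_zero]
  by_contra h0
  have h1 := hH.1 i j h0
  have h2 : g * h < h * j := by
    rw [mul_comm g h]
    exact Nat.mul_lt_mul_of_pos_left hj hh
  omega

theorem IsPl.monic [Nontrivial R] (hh : 0 < h) {H : R[X][X]} (hH : IsPl g h H) :
    H.Monic ∧ H.natDegree = g := by
  have h1 : H.natDegree = g := by
    apply le_antisymm
    · rw [natDegree_le_iff_coeff_eq_zero]
      intro j hj
      exact hH.high hh hj
    · apply le_natDegree_of_ne_zero
      rw [hH.top hh]
      exact one_ne_zero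
  refine ⟨?_, h1⟩
  unfold Monic leadingCoeff
  rw [h1, hH.top hh]

theorem IsPl.map {S : Type*} [CommRing S] {H : R[X][X]} (hH : IsPl g h H) (f : R →+* S) :
    IsPl g h (H.map (mapRingHom f)) := by
  refine ⟨?_, ?_⟩
  · intro i j hc
    apply hH.1 i j
    intro h0
    apply hc
    rw [coeff_map, coe_mapRingHom, coeff_map, h0, map_zero]
  · rw [coeff_map, coe_mapRingHom, coeff_map, hH.2, map_one]

theorem IsPl.of_map {S : Type*} [CommRing S] {H : R[X][X]} (f : R →+* S) (hf : Function.Injective f)
    (hH : IsPl g h (H.map (mapRingHom f))) : IsPl g h H := by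
  refine ⟨?_, ?_⟩
  · intro i j hc
    apply hH.1 i j
    rw [coeff_map, coe_mapRingHom, coeff_map]
    exact (map_ne_zero_iff f hf).2 hc
  · have h1 := hH.2
    rw [coeff_map, coe_mapRingHom, coeff_map] at h1
    apply hf
    rw [h1, map_one]

theorem psi_map {S : Type*} [CommRing S] (H : R[X][X]) (f : R →+* S) :
    psi g h (H.map (mapRingHom f)) = (psi g h H).map f := by
  ext j
  rw [coeff_map, psi_coeff, psi_coeff]
  split_ifs
  · rw [coeff_map, coe_mapRingHom, coeff_map]
  · rw [map_zero]

theorem psi_monic [Nontrivial R] {H : R[X][X]} (hH : IsPl g h H) :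
    (psi g h H).Monic ∧ (psi g h H).natDegree = g := by
  have h0 : (psi g h H).coeff g = 1 := by
    rw [psi_coeff, if_pos le_rfl, Nat.sub_self, mul_zero, hH.2]
  have h1 : (psi g h H).natDegree = g := by
    apply le_antisymm
    · rw [natDegree_le_iff_coeff_eq_zero]
      intro j hj
      rw [psi_coeff, if_neg (by omega)]
    · apply le_natDegree_of_ne_zero
      rw [h0]
      exact one_ne_zero
  refine ⟨?_, h1⟩
  unfold Monic leadingCoeff
  rw [h1, h0]

/-- the value of the inner variable is `1` -/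
noncomputable def at1 : R[X][X] →+* R[X] := mapRingHom (evalRingHom 1)

/-- the leading form at `x = 1` -/
noncomputable def lf1 (h : ℕ) (P : R[X][X]) : R[X] := at1 (lf 1 h P)

theorem lf1_coeff (P : R[X][X]) (j : ℕ) : (lf1 h P).coeff j =
    if h * j ≤ wd 1 h P then (P.coeff j).coeff (wd 1 h P - h * j) else 0 := by
  unfold lf1 at1
  rw [coe_mapRingHom, coeff_map, coe_evalRingHom]
  have h1 : ∀ i, ((lf 1 h P).coeff j).coeff i = if i + h * j = wd 1 h P then (P.coeff j).coeff i else 0 := by
    intro i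
    rw [lf_coeff, one_mul]
  by_cases hj : h * j ≤ wd 1 h P
  · rw [if_pos hj]
    have h2 : (lf 1 h P).coeff j = monomial (wd 1 h P - h * j) ((P.coeff j).coeff (wd 1 h P - h * j)) := by
      ext i
      rw [h1, coeff_monomial]
      by_cases h3 : i + h * j = wd 1 h P
      · rw [if_pos h3, if_pos (by omega)]
        congr 1
        omega
      · rw [if_neg h3, if_neg (by omega)]
    rw [h2, eval_monomial, one_pow, mul_one]
  · rw [if_neg hj]
    have h2 : (lf 1 h P).coeff j = 0 := by
      ext i
      rw [h1, if_neg (by omega), coeff_zero]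
    rw [h2, eval_zero]

theorem lf1_ne {P : R[X][X]} (hP : P ≠ 0) : lf1 h P ≠ 0 := by
  intro h0
  apply lf_ne (n := 1) (m := h) hP
  ext j i
  rw [lf_coeff, one_mul, coeff_zero, coeff_zero]
  split_ifs with h1
  · have h2 := lf1_coeff (h := h) P j
    rw [h0, coeff_zero, if_pos (by omega)] at h2
    rw [h2]
    congr 1
    omega
  · rfl

theorem lf1_mul [IsDomain R] (P Q : R[X][X]) : lf1 h (P * Q) = lf1 h P * lf1 h Q := by
  unfold lf1
  rw [lf_mul, map_mul]

theorem lf1_natDegree (P : R[X][X]) : (lf1 h P).natDegree ≤ P.natDegree := by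
  rw [natDegree_le_iff_coeff_eq_zero]
  intro j hj
  rw [lf1_coeff, coeff_eq_zero_of_natDegree_lt hj, coeff_zero, ite_self]

theorem IsPl.wd_eq [Nontrivial R] (hh : 0 < h) {H : R[X][X]} (hH : IsPl g h H) : wd 1 h H = g * h := by
  apply le_antisymm
  · apply wd_le
    intro i j hc
    rw [one_mul]
    exact hH.1 i j hc
  · have h1 : (H.coeff g).coeff 0 ≠ 0 := by
      rw [hH.2]
      exact one_ne_zero
    have h2 := le_wd (n := 1) (m := h) h1
    rw [mul_comm g h]
    omega

theorem IsPl.lf1_eq [Nontrivial R] (hh : 0 < h) {H : R[X][X]} (hH : IsPl g h H) :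
    lf1 h H = psi g h H := by
  ext j
  rw [lf1_coeff, psi_coeff, hH.wd_eq hh]
  by_cases hj : j ≤ g
  · have h1 : h * j ≤ g * h := by
      rw [mul_comm g h]
      exact Nat.mul_le_mul_left h hj
    rw [if_pos h1, if_pos hj]
    congr 1
    rw [Nat.mul_sub, mul_comm g h]
  · rw [if_neg hj, hH.high hh (by omega), coeff_zero, ite_self]

end

end Pool.Agent.Run7.h642.PL
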