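import Pool.Agent.Run7.h642.PL.Md
import Pool.Agent.R410.NG.Ci

/-!
# The points at infinity
-/

set_option autoImplicit false
set_option linter.all false
set_option maxHeartbeats 1000000

open Polynomial

namespace Pool.Agent.Run7.h642.PL

open Pool.Agent.R410.NG (Asy Ff finsum_sub sH asy_sH)
open Pool.Agent.R410.LW (ft_int FG)
open Pool.Agent.Run7.h954.CP

/-- the number of the rational zeros of a polynomial -/
noncomputable def nz (F : Type) [Field F] (p : F[X]) : ℝ := (Nat.card {x : F // p.eval x = 0} : ℝ)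

/-- the number of the factors of a polynomial which are monic and irreducible -/
noncomputable def nfac {K : Type} [Field K] (p : K[X]) : ℕ := (Ideal.span {p}).minimalPrimes.ncard

/-- the minimal primes over a monic polynomial do not contain constants -/
theorem minimal_const {R : Type} [CommRing R] [IsDomain R] {p : R[X]} (hp : p.Monic) (𝔭 : Ideal R[X])
    (h𝔭 : 𝔭 ∈ (Ideal.span {p}).minimalPrimes) {a : R} (ha : a ≠ 0) : C a ∉ 𝔭 := by
  rw [Ideal.minimalPrimes_eq_comap] at h𝔭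
  obtain ⟨𝔮, h𝔮, rfl⟩ := h𝔭
  intro h1
  have h2 : AdjoinRoot.mk p (C a) ∈ 𝔮 := h1
  have hd := Ideal.disjoint_nonZeroDivisors_of_mem_minimalPrimes h𝔮
  have hfree : Module.Free R (AdjoinRoot p) := hp.free_adjoinRoot
  have hns : Module.IsTorsionFree R (AdjoinRoot p) := inferInstance
  have h4 : AdjoinRoot.mk p (C a) ∈ nonZeroDivisors (AdjoinRoot p) := by
    refine mem_nonZeroDivisors_iff_right.2 ?_
    intro x hx
    have h3 : a • (x : AdjoinRoot p) = 0 := by
      rw [Algebra.smul_def, mul_comm]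
      exact hx
    rcases smul_eq_zero.1 h3 with h | h
    · exact (ha h).elim
    · exact h
  exact Set.disjoint_left.1 hd h2 h4

/-- the points of a family of finite sets -/
noncomputable def lineEquiv (R : Type) [CommRing R] (F : Type) [Field F] (p : R[X]) :
    {ψ : R[X] →+* F // ψ p = 0} ≃ Σ φ : R →+* F, {x : F // (p.map φ).eval x = 0} where
  toFun ψ := ⟨ψ.1.comp C, ψ.1 X, by
    rw [eval_map]
    have h1 := congrArg (fun f : R[X] →+* F => f p)
      (show eval₂RingHom (ψ.1.comp C) (ψ.1 X) = ψ.1 from by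
        apply Polynomial.ringHom_ext
        · intro a
          rw [coe_eval₂RingHom, eval₂_C]
          rfl
        · rw [coe_eval₂RingHom, eval₂_X])
    exact h1.trans ψ.2⟩
  invFun w := ⟨eval₂RingHom w.1 w.2.1, by
    rw [coe_eval₂RingHom, ← eval_map]
    exact w.2.2⟩
  left_inv ψ := by
    apply Subtype.ext
    apply Polynomial.ringHom_ext
    · intro a
      show eval₂RingHom (ψ.1.comp C) (ψ.1 X) (C a) = _
      rw [coe_eval₂RingHom, eval₂_C]
      rfl
    · show eval₂RingHom (ψ.1.comp C) (ψ.1 X) X = _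
      rw [coe_eval₂RingHom, eval₂_X]
  right_inv w := by
    rcases w with ⟨φ, ⟨x, h⟩⟩
    have gen : ∀ (φ' : R →+* F) (x' : F) (h' : (p.map φ').eval x' = 0), φ' = φ → x' = x →
        (⟨φ', x', h'⟩ : Σ φ : R →+* F, {x : F // (p.map φ).eval x = 0}) = ⟨φ, x, h⟩ := by
      rintro φ' z' h' rfl rfl
      rfl
    refine gen _ _ _ ?_ ?_
    · refine RingHom.ext fun a => ?_
      rw [RingHom.comp_apply]
      show eval₂RingHom φ x (C a) = _
      rw [coe_eval₂RingHom, eval₂_C]
    · show eval₂RingHom φ x X = _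
      rw [coe_eval₂RingHom, eval₂_X]

/-- the sum of the numbers of zeros -/
noncomputable def sZ {R : Type} [CommRing R] (p : R[X]) (N : R) : Ff := fun F _ _ =>
  ∑ᶠ φ : {φ : R →+* F // φ N ≠ 0}, nz F (p.map φ.1)

theorem sZ_eq {R : Type} [CommRing R] (p : R[X]) (N : R) (F : Type) [Field F] [Finite F]
    [Finite (R →+* F)] :
    sZ p N F = (Nat.card {ψ : R[X] →+* F // ψ (C N) ≠ 0 ∧ ψ p = 0} : ℝ) := by
  classical
  let _ : Fintype {φ : R →+* F // φ N ≠ 0} := Fintype.ofFinite _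
  unfold sZ nz
  rw [finsum_eq_sum_of_fintype]
  have e1 : {ψ : R[X] →+* F // ψ (C N) ≠ 0 ∧ ψ p = 0} ≃
      {ψ : {ψ : R[X] →+* F // ψ p = 0} // ψ.1 (C N) ≠ 0} :=
    { toFun := fun ψ => ⟨⟨ψ.1, ψ.2.2⟩, ψ.2.1⟩
      invFun := fun ψ => ⟨ψ.1.1, ψ.2, ψ.1.2⟩
      left_inv := fun w => rfl
      right_inv := fun w => rfl }
  have e2 : {ψ : {ψ : R[X] →+* F // ψ p = 0} // ψ.1 (C N) ≠ 0} ≃
      {w : Σ φ : R →+* F, {x : F // (p.map φ).eval x = 0} // w.1 N ≠ 0} :=
    (lineEquiv R F p).subtypeEquiv fun ψ => Iff.rfl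
  have e3 : {w : Σ φ : R →+* F, {x : F // (p.map φ).eval x = 0} // w.1 N ≠ 0} ≃
      Σ φ : {φ : R →+* F // φ N ≠ 0}, {x : F // (p.map φ.1).eval x = 0} :=
    { toFun := fun w => ⟨⟨w.1.1, w.2⟩, w.1.2⟩
      invFun := fun w => ⟨⟨w.1.1, w.2⟩, w.1.2⟩
      left_inv := fun w => rfl
      right_inv := fun w => rfl }
  rw [Nat.card_congr ((e1.trans e2).trans e3), Nat.card_sigma]
  push_cast
  rfl

/-- **The sums of the numbers of zeros.** -/
theorem asy_sZ {K : Type} [Field K] [CharZero K] {e : ℕ} (he : Algebra.trdeg ℚ K = e) {R : Type}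
    [CommRing R] [IsDomain R] [Algebra.FiniteType ℤ R] [Algebra R K] [IsFractionRing R K]
    {p : R[X]} (hp : p.Monic) {N : R} (hN : N ≠ 0) :
    Asy (sZ p N) e (nfac (p.map (algebraMap R K)) : ℝ) := by
  classical
  have hft : @Algebra.FiniteType ℤ R[X] _ _ (Ring.toIntAlgebra _) := by
    have h1 : Algebra.FiniteType R R[X] := inferInstance
    exact ft_int _ (Algebra.FiniteType.trans (inferInstance : Algebra.FiniteType ℤ R) h1)
  have hlocK : IsLoc (nonZeroDivisors R) (algebraMap R K) := isLoc_iff.2 inferInstance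
  letI : Algebra R[X] K[X] := (mapRingHom (algebraMap R K)).toAlgebra
  have hloc : IsLocalization ((nonZeroDivisors R).map (C : R →+* R[X])) K[X] := hlocK.poly
  have h1 := asy_zeros (C := R[X]) ((nonZeroDivisors R).map (C : R →+* R[X])) (B := K[X]) (g := p)
    (s := C N) (e := e) ?_ ?_
  · have h2 : Asy (fun F _ _ => (Nat.card {ψ : R[X] →+* F // ψ (C N) ≠ 0 ∧ ψ p = 0} : ℝ)) e
        (nfac (p.map (algebraMap R K)) : ℝ) := h1
    refine h2.congr 1 one_ne_zero fun F _ _ _ => ?_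
    have hF1 : Finite (R →+* F) := Pool.Agent.TH958.An.finite_hom F
    exact sZ_eq p N F
  · intro 𝔭 h𝔭
    constructor
    · intro _
      rw [Set.disjoint_left]
      rintro _ ⟨a, ha, rfl⟩
      exact minimal_const hp 𝔭 h𝔭 (nonZeroDivisors.ne_zero ha)
    · intro _
      exact minimal_const hp 𝔭 h𝔭 hN
  · intro 𝔮 h𝔮
    have hq : 𝔮.IsPrime := h𝔮.1.1
    have h1 : p.map (algebraMap R K) ∈ 𝔮 := h𝔮.1.2 (Ideal.mem_span_singleton_self _)
    have hne : 𝔮 ≠ ⊥ := by
      rintro rfl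
      exact (hp.map (algebraMap R K)).ne_zero h1
    have hmax : 𝔮.IsMaximal := hq.isMaximal hne
    exact trdeg_pt (K := K) (A := K[X]) he 𝔮 hmax

end Pool.Agent.Run7.h642.PL
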