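import Pool.Agent.Run7.h642.PL.Prm
import Pool.Agent.Run7.h954.CP.Scl

/-!
# Scaling of the second coordinate
-/

set_option autoImplicit false
set_option linter.all false
set_option maxHeartbeats 1000000

open Polynomial

namespace Pool.Agent.Run7.h642.PL

open Pool.Agent.Run7.h954.CP

section
variable {R S : Type} [CommRing R] [CommRing S] {g h : ℕ}

/-- the scaling of the second coordinate; `l'` is the inverse of `l` -/
noncomputable def ysc (g : ℕ) (l l' : R) (H : R[X][X]) : R[X][X] := C (C (l ^ g)) * sbs 1 l' H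

theorem ysc_coeff (l l' : R) (H : R[X][X]) (i j : ℕ) :
    ((ysc g l l' H).coeff j).coeff i = l ^ g * l' ^ j * (H.coeff j).coeff i := by
  unfold ysc
  rw [coeff_C_mul, coeff_C_mul, sbs_coeff, one_pow]
  ring

theorem ysc_map (φ : R →+* S) (l l' : R) (H : R[X][X]) :
    (ysc g l l' H).map (mapRingHom φ) = ysc g (φ l) (φ l') (H.map (mapRingHom φ)) := by
  ext j i
  rw [coeff_map, coe_mapRingHom, coeff_map, ysc_coeff, ysc_coeff, coeff_map, coe_mapRingHom, coeff_map,
    map_mul, map_mul, map_pow, map_pow]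

theorem IsPl.ysc {H : R[X][X]} (hH : IsPl g h H) {l l' : R} (hl : l * l' = 1) :
    IsPl g h (ysc g l l' H) := by
  refine ⟨?_, ?_⟩
  · intro i j hc
    rw [ysc_coeff] at hc
    exact hH.1 i j (right_ne_zero_of_mul hc)
  · rw [ysc_coeff, hH.2, ← mul_pow, hl, one_pow, one_mul]

end

section
variable {F : Type} [Field F] {g : ℕ}

/-- the number of the points does not change -/
theorem trc2_ysc {l l' : F} (hl : l * l' = 1) (H : F[X][X]) :
    trc2 F (ysc g l l' H) = trc2 F H := by
  unfold trc2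
  congr 2
  have hl0 : l ≠ 0 := left_ne_zero_of_mul_eq_one hl
  have hev : ∀ x y : F, evalEval x y (ysc g l l' H) = 0 ↔ evalEval x (l' * y) H = 0 := by
    intro x y
    unfold ysc
    rw [evalEval_mul, evalEval_C, eval_C, eval_sbs, one_mul]
    constructor
    · intro h
      exact (mul_eq_zero.1 h).resolve_left (pow_ne_zero _ hl0)
    · intro h
      rw [h, mul_zero]
  refine Nat.card_congr
    { toFun := fun z => ⟨(z.1.1, l' * z.1.2), (hev _ _).1 z.2⟩
      invFun := fun z => ⟨(z.1.1, l * z.1.2), by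
        rw [hev, ← mul_assoc, mul_comm l' l, hl, one_mul]
        exact z.2⟩
      left_inv := fun z => by
        apply Subtype.ext
        refine Prod.ext rfl ?_
        show l * (l' * z.1.2) = z.1.2
        rw [← mul_assoc, hl, one_mul]
      right_inv := fun z => by
        apply Subtype.ext
        refine Prod.ext rfl ?_
        show l' * (l * z.1.2) = z.1.2
        rw [← mul_assoc, mul_comm l' l, hl, one_mul] }

end

section
variable {K : Type} [Field K] {g h : ℕ}

theorem span_ysc {l l' : K} (hl : l * l' = 1) (H : K[X][X]) :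
    (Ideal.span {ysc g l l' H} : Ideal K[X][X]) = (Ideal.span {H}).map
      ((sbsE 1 l' 1 l (by rw [one_mul]) (by rw [mul_comm l' l, hl]) : K[X][X] ≃+* K[X][X]) :
        K[X][X] →+* K[X][X]) := by
  rw [Ideal.map_span, Set.image_singleton]
  have hu : IsUnit (C (C (l ^ g)) : K[X][X]) :=
    ((isUnit_iff_ne_zero.2 (pow_ne_zero _ (left_ne_zero_of_mul_eq_one hl))).map C).map C
  exact Ideal.span_singleton_mul_left_unit hu _

/-- the isomorphism of the coordinate rings -/
noncomputable def yscE {l l' : K} (hl : l * l' = 1) (H : K[X][X]) :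
    AdjoinRoot H ≃+* AdjoinRoot (ysc g l l' H) :=
  Ideal.quotientEquiv (Ideal.span {H}) (Ideal.span {ysc g l l' H})
    (sbsE 1 l' 1 l (by rw [one_mul]) (by rw [mul_comm l' l, hl])) (span_ysc hl H)

theorem yscE_C {l l' : K} (hl : l * l' = 1) (H : K[X][X]) (κ : K) :
    yscE (g := g) hl H (cst H κ) = cst (ysc g l l' H) κ := by
  show Ideal.quotientEquiv _ _ _ _ (Ideal.Quotient.mk (Ideal.span {H}) (C (C κ))) = _
  rw [Ideal.quotientEquiv_mk]
  show Ideal.Quotient.mk _ (sbs _ _ (C (C κ))) = _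
  rw [sbs_C]
  rfl

theorem dx_coeff' {R : Type} [CommRing R] (H : R[X][X]) (i j : ℕ) :
    ((dx H).coeff j).coeff i = (H.coeff j).coeff (i + 1) * ((i : R) + 1) := by
  have sw : ∀ (P : R[X][X]) (i j : ℕ), ((Bivariate.swap P).coeff i).coeff j = (P.coeff j).coeff i := by
    intro P i j
    induction P using Polynomial.induction_on' with
    | add p q hp hq => rw [map_add]; simp only [coeff_add]; rw [hp, hq]
    | monomial a p =>
      induction p using Polynomial.induction_on' with
      | add p q hp hq => rw [map_add, map_add]; simp only [coeff_add]; rw [hp, hq]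
      | monomial b r =>
        rw [Bivariate.swap_monomial_monomial]
        simp only [coeff_monomial]
        by_cases h1 : a = j <;> by_cases h2 : b = i <;> simp [h1, h2, coeff_monomial]
  unfold dx
  rw [sw, coeff_derivative]
  have h1 : ((i : R[X]) + 1) = C ((i : R) + 1) := by simp
  rw [h1, coeff_mul_C, sw]

theorem ysc_smooth {l l' : K} (hl : l * l' = 1) {H : K[X][X]} (hs : IsSmooth H) :
    IsSmooth (ysc g l l' H) := by
  have hl0 : l ≠ 0 := left_ne_zero_of_mul_eq_one hl
  unfold IsSmooth at hs ⊢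
  rw [Ideal.eq_top_iff_one, Ideal.mem_span_insert] at hs
  obtain ⟨a, z, hz, h3⟩ := hs
  rw [Ideal.mem_span_insert] at hz
  obtain ⟨b, z', hz', rfl⟩ := hz
  obtain ⟨c, rfl⟩ := Ideal.mem_span_singleton'.1 hz'
  have h4 := congrArg (sbs 1 l') h3
  rw [map_one, map_add, map_add, map_mul, map_mul, map_mul] at h4
  have e1 : sbs 1 l' (derivative H) = C (C (l'⁻¹ * l' ^ g)) * derivative (ysc g l l' H) := by
    have hl0' : l' ≠ 0 := right_ne_zero_of_mul_eq_one hl
    ext j i
    rw [sbs_coeff, coeff_derivative, coeff_C_mul, coeff_C_mul, coeff_derivative]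
    have h5 : ((j : K[X]) + 1) = C ((j : K) + 1) := by simp
    rw [h5, coeff_mul_C, coeff_mul_C, ysc_coeff, one_pow, pow_succ]
    have h6 : l' ^ g * l ^ g = 1 := by rw [← mul_pow, mul_comm, hl, one_pow]
    have h7 : l'⁻¹ * l' = 1 := inv_mul_cancel₀ hl0'
    linear_combination (-(l' ^ j * ((H.coeff (j + 1)).coeff i * ((j : K) + 1))) * (l'⁻¹ * l')) * h6 +
      (-(l' ^ j * ((H.coeff (j + 1)).coeff i * ((j : K) + 1)))) * h7
  have e2 : sbs 1 l' (dx H) = C (C (l' ^ g)) * dx (ysc g l l' H) := by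
    ext j i
    rw [sbs_coeff, dx_coeff', coeff_C_mul, coeff_C_mul, dx_coeff', ysc_coeff, one_pow]
    have h6 : l' ^ g * l ^ g = 1 := by rw [← mul_pow, mul_comm, hl, one_pow]
    linear_combination (-(l' ^ j * ((H.coeff j).coeff (i + 1) * ((i : K) + 1)))) * h6
  have e3 : sbs 1 l' H = C (C (l' ^ g)) * ysc g l l' H := by
    unfold ysc
    rw [← mul_assoc, ← C_mul, ← C_mul, ← mul_pow, mul_comm l' l, hl, one_pow, C_1, C_1, one_mul]
  rw [e1, e2, e3] at h4
  rw [Ideal.eq_top_iff_one, Ideal.mem_span_insert]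
  refine ⟨sbs 1 l' a * C (C (l' ^ g)), sbs 1 l' b * C (C (l'⁻¹ * l' ^ g)) * derivative (ysc g l l' H) +
    sbs 1 l' c * C (C (l' ^ g)) * dx (ysc g l l' H), ?_, ?_⟩
  · rw [Ideal.mem_span_insert]
    exact ⟨sbs 1 l' b * C (C (l'⁻¹ * l' ^ g)), sbs 1 l' c * C (C (l' ^ g)) * dx (ysc g l l' H),
      Ideal.mem_span_singleton'.2 ⟨sbs 1 l' c * C (C (l' ^ g)), rfl⟩, rfl⟩
  · rw [h4]
    ring

theorem psi_ysc (hh : 0 < h) {l l' : K} (hl : l * l' = 1) {H : K[X][X]} :
    psi g h (ysc g l l' H) = C (l ^ g) * (psi g h H).comp (C l' * X) := by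
  ext j
  rw [coeff_C_mul, comp_C_mul_X_coeff, psi_coeff, psi_coeff, ysc_coeff]
  split_ifs
  · ring
  · ring

theorem ysc_sep (hh : 0 < h) {l l' : K} (hl : l * l' = 1) {H : K[X][X]}
    (hψ : (psi g h H).Separable) : (psi g h (ysc g l l' H)).Separable := by
  rw [psi_ysc hh hl]
  have hl0 : l ≠ 0 := left_ne_zero_of_mul_eq_one hl
  have hl0' : l' ≠ 0 := right_ne_zero_of_mul_eq_one hl
  have hu : IsUnit (C (l ^ g) : K[X]) := (isUnit_iff_ne_zero.2 (pow_ne_zero _ hl0)).map C
  rw [separable_def] at hψ ⊢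
  obtain ⟨a, b, hab⟩ := hψ
  have h1 := congrArg (fun p : K[X] => p.comp (C l' * X)) hab
  simp only [add_comp, mul_comp, one_comp] at h1
  rw [derivative_mul, derivative_C, zero_mul, zero_add, derivative_comp, derivative_mul, derivative_C,
    zero_mul, zero_add, derivative_X, mul_one]
  refine ⟨a.comp (C l' * X) * C (l' ^ g), b.comp (C l' * X) * C (l' ^ g) * C l, ?_⟩
  have h2 : (C (l' ^ g) : K[X]) * C (l ^ g) = 1 := by
    rw [← C_mul, ← mul_pow, mul_comm l' l, hl, one_pow, C_1]
  have h3 : (C l : K[X]) * C l' = 1 := by rw [← C_mul, hl, C_1]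
  linear_combination h1 + (a.comp (C l' * X) * (psi g h H).comp (C l' * X) +
    b.comp (C l' * X) * (derivative (psi g h H)).comp (C l' * X) * (C l * C l')) * h2 +
    (b.comp (C l' * X) * (derivative (psi g h H)).comp (C l' * X)) * h3

end

section
variable {P K : Type} [CommRing P] [IsDomain P] [Field K] {φ : P →+* K}

/-- **Integral models.** -/
theorem exists_int' {g h : ℕ} (hh : 0 < h) (hφ : IsLoc (nonZeroDivisors P) φ)
    (hi : Function.Injective φ) {H : K[X][X]} (hH : IsPl g h H) :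
    ∃ (l : P) (H₀ : P[X][X]), l ≠ 0 ∧ IsPl g h H₀ ∧
      H₀.map (mapRingHom φ) = ysc g (φ l) (φ l)⁻¹ H := by
  classical
  obtain ⟨l, hl, hden⟩ := exists_den hφ
    (H.support.biUnion fun j => (H.coeff j).support.image (H.coeff j).coeff)
  have hl0 : φ l ≠ 0 := (map_ne_zero_iff _ hi).2 hl
  obtain ⟨H₀, hH₀⟩ := exists_lift φ (ysc g (φ l) (φ l)⁻¹ H) (by
    intro i j
    rw [ysc_coeff]
    by_cases h0 : (H.coeff j).coeff i = 0
    · exact ⟨0, by rw [h0, mul_zero, map_zero]⟩
    · have h1 : j ≤ g := by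
        by_contra h2
        rw [hH.high hh (by omega), coeff_zero] at h0
        exact h0 rfl
      rcases h1.eq_or_lt with rfl | h1
      · refine ⟨1, ?_⟩
        have h2 : i = 0 := by
          by_contra h3
          rw [hH.top hh, coeff_one, if_neg h3] at h0
          exact h0 rfl
        rw [map_one, h2, hH.2, inv_pow, mul_inv_cancel₀ (pow_ne_zero _ hl0), one_mul]
      · obtain ⟨y, hy⟩ := hden ((H.coeff j).coeff i) (by
          rw [Finset.mem_biUnion]
          refine ⟨j, ?_, ?_⟩
          · rw [mem_support_iff]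
            intro h2
            rw [h2, coeff_zero] at h0
            exact h0 rfl
          · rw [Finset.mem_image]
            exact ⟨i, mem_support_iff.2 h0, rfl⟩)
        refine ⟨l ^ (g - j - 1) * y, ?_⟩
        rw [map_mul, map_pow, hy, ← mul_assoc, ← pow_succ]
        congr 1
        rw [inv_pow, eq_mul_inv_iff_mul_eq₀ (pow_ne_zero _ hl0), ← pow_add]
        congr 1
        omega)
  refine ⟨l, H₀, hl, ?_, hH₀⟩
  apply IsPl.of_map φ hi
  rw [hH₀]
  exact hH.ysc (mul_inv_cancel₀ hl0)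

end

end Pool.Agent.Run7.h642.PL
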