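import Pool.Agent.Run7.h642.PL.Prm
import Pool.Agent.Run7.h642.NG.Pr
import Pool.Agent.Run7.h954.CP.WeilC
import Pool.Agent.Run7.h954.CP.Cnt

/-!
# The Weil bound for the smooth curves which are transversal to infinity
-/

set_option autoImplicit false
set_option linter.all false
set_option maxHeartbeats 1000000

open Polynomial

namespace Pool.Agent.Run7.h642.PL

open Pool.Agent.Run7.h954.CP
open Pool.Agent.Run7.h642.NG (smooth_map)

theorem weil_pl' {g h : ℕ} (hg : 0 < g) (hh : 0 < h) (F : Type) [Field F] [Finite F]
    (H : F[X][X]) (hH : IsPl g h H) (hs : IsSmooth H) (hψ : (psi g h H).Separable) :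
    |(Nat.card F : ℝ) - Nat.card {z : F × F // evalEval z.1 z.2 H = 0}| ≤
      (R410.PW.WC g (g * h) (2 * g * (g * h)) : ℝ) * √(Nat.card F : ℝ) := by
  classical
  obtain ⟨hfm, hfd⟩ := hH.monic hh
  set φ := algebraMap F[X] (RatFunc F) with hφ
  have hφi : Function.Injective φ := IsFractionRing.injective F[X] (RatFunc F)
  have hirr : Irreducible (H.map (mapRingHom (algebraMap F (AlgebraicClosure F)))) :=
    (pl_prime hg hh (hH.map _) (smooth_map hs _) (by
      rw [psi_map]
      exact hψ.map)).irreducible
  have hirrk : Irreducible H := (pl_prime hg hh hH hs hψ).irreducible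
  have hirrK : Irreducible (H.map φ) :=
    (hfm.irreducible_iff_irreducible_map_fraction_map (K := RatFunc F)).1 hirrk
  have hco0 : ∀ j, (H.coeff j).natDegree ≤ g * h := by
    intro j
    rw [natDegree_le_iff_coeff_eq_zero]
    intro i hi
    by_contra h0
    have h1 := hH.1 i j h0
    omega
  have hder : derivative H ≠ 0 := by
    intro h0
    have h1 : derivative (psi g h H) = 0 := by
      ext j
      rw [coeff_derivative, coeff_zero, psi_coeff]
      by_cases hj : j + 1 ≤ g
      · rw [if_pos hj]
        have h2 := congrArg (fun p => (coeff p j).coeff (h * (g - (j + 1)))) h0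
        simp only [coeff_derivative, coeff_zero] at h2
        have h3 : ((j : F[X]) + 1) = C ((j : F) + 1) := by simp
        rw [h3, coeff_mul_C] at h2
        exact h2
      · rw [if_neg hj, zero_mul]
    rw [separable_def, h1, isCoprime_zero_right] at hψ
    obtain ⟨hpm, hpd⟩ := psi_monic hH
    rw [hpm.isUnit_iff] at hψ
    rw [hψ, natDegree_one] at hpd
    omega
  have hsep : (H.map φ).Separable := by
    rw [separable_iff_derivative_ne_zero hirrK, derivative_map]
    rw [Ne, Polynomial.map_eq_zero_iff hφi]
    exact hder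
  set e := (derivative H).natDegree with he
  have heD : e ≤ g := (natDegree_derivative_le H).trans (by omega)
  obtain ⟨δ, hδ⟩ : ∃ δ, δ = resultant H (derivative H) g e := ⟨_, rfl⟩
  have hδ0 : δ ≠ 0 := by
    intro h0
    have h1 := resultant_ne_zero (H.map φ) ((derivative H).map φ) (by
      rw [← derivative_map]; exact hsep)
    rw [natDegree_map_eq_of_injective hφi, natDegree_map_eq_of_injective hφi, hfd, ← he,
      resultant_map_map, ← hδ, h0, map_zero] at h1
    exact h1 rfl
  obtain ⟨p, q, -, -, hpq⟩ := exists_mul_add_mul_eq_C_resultant (m := g) (n := e) H (derivative H)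
    hfd.le le_rfl (Or.inl (by omega))
  rw [← hδ] at hpq
  have hco : ∀ j, ((derivative H).coeff j).natDegree ≤ g * h := by
    intro j
    rw [coeff_derivative]
    have : ((j : F[X]) + 1) = C ((j : F) + 1) := by simp
    rw [this]
    exact (natDegree_mul_C_le _ _).trans (hco0 _)
  have hδd : δ.natDegree ≤ 2 * g * (g * h) := by
    rw [hδ, resultant]
    refine (WeilC.det_natDegree (B := g * h) _ ?_).trans ?_
    · intro i j
      rw [sylvester, Matrix.of_apply]
      refine Fin.addCases (fun j => ?_) (fun j => ?_) j
      · rw [Fin.addCases_left]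
        split_ifs
        · exact hco _
        · simp
      · rw [Fin.addCases_right]
        split_ifs
        · exact hco0 _
        · simp
    · exact Nat.mul_le_mul_right _ (by omega)
  have hAB : p * H + q * derivative H = C δ := by rw [← hpq]; ring
  have hw := R410.PW.weil (AlgebraicClosure F) hfm (by omega) hAB hδ0 hδd (d := g * h) hco0 hirr
  rw [hfd] at hw
  have hc : Nat.card {z : F × F // evalEval z.1 z.2 H = 0} =
      {z : F × F | evalEval z.1 z.2 H = 0}.ncard := rfl
  rw [hc, abs_sub_comm]
  exact hw

/-- **The Weil bound.** -/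
theorem weil_pl {g h : ℕ} (hg : 0 < g) (hh : 0 < h) : ∃ c : ℝ, 0 ≤ c ∧
    ∀ (F : Type) [Field F] [Finite F] (H : F[X][X]), IsPl g h H → IsSmooth H →
      (psi g h H).Separable → |trc2 F H| ≤ c * √(Nat.card F : ℝ) :=
  ⟨(R410.PW.WC g (g * h) (2 * g * (g * h)) : ℝ), by positivity, fun F _ _ H h1 h2 h3 =>
    weil_pl' hg hh F H h1 h2 h3⟩

end Pool.Agent.Run7.h642.PL
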