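import Pool.Agent.Run7.h642.PL.Co
import Pool.Agent.Run7.h642.PL.Sc
import Pool.Agent.Run7.h642.PL.Wl
import Pool.Agent.Run7.h954.CP.Mdl

/-!
# The rank and the sums of the traces for every model
-/

set_option autoImplicit false
set_option linter.all false
set_option maxHeartbeats 1000000

open Polynomial

namespace Pool.Agent.Run7.h642.PL

open Pool.Agent.R410.NG (Asy Ff finsum_sub)
open Pool.Agent.R410.BS (transfer_equiv good_le hom_le)
open Pool.Agent.R410.LW (ft_int FG)
open Pool.Agent.Run7.h954.CP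

/-- the fibres outside the zeros of `N` are smooth and transversal to infinity -/
def Gd (g h : ℕ) {R : Type} [CommRing R] (G : R[X][X]) (N : R) : Prop :=
  ∀ (F : Type) [Field F] (φ : R →+* F), φ N ≠ 0 →
    IsSmooth (G.map (mapRingHom φ)) ∧ (psi g h (G.map (mapRingHom φ))).Separable

theorem Gd.map {g h : ℕ} {R S : Type} [CommRing R] [CommRing S] {G : R[X][X]} {N : R}
    (hG : Gd g h G N) (ι : R →+* S) {N' : S} (hN' : ι N ∣ N') :
    Gd g h (G.map (mapRingHom ι)) N' := by
  intro F _ φ hφ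
  rw [Polynomial.map_map, mapRingHom_comp]
  refine hG F (φ.comp ι) fun h0 => hφ ?_
  obtain ⟨t, ht⟩ := hN'
  rw [ht, map_mul]
  rw [RingHom.comp_apply] at h0
  rw [h0, zero_mul]

section
variable {R : Type} [CommRing R] [Algebra.FiniteType ℤ R]

/-- the points outside a closed subset -/
theorem part_le' {G : R[X][X]} {c : ℝ} (hc0 : 0 ≤ c) {N r : R}
    (hc : ∀ (F : Type) [Field F] [Finite F] (φ : R →+* F), φ N ≠ 0 →
      |trc2 F (G.map (mapRingHom φ))| ≤ c * √(Nat.card F : ℝ)) (hN : N ∣ r)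
    (F : Type) [Field F] [Finite F] :
    |sC G N F - sC G r F| ≤ Nat.card {φ : R →+* F // φ r = 0} * (c * √(Nat.card F : ℝ)) := by
  classical
  let _ : Fintype (R →+* F) := Fintype.ofFinite _
  rw [sC_sum, sC_sum, ← Finset.sum_sub_distrib]
  refine (Finset.abs_sum_le_sum_abs _ _).trans ?_
  have hcs : 0 ≤ c * √(Nat.card F : ℝ) := mul_nonneg hc0 (Real.sqrt_nonneg _)
  have h2 : ∀ φ : R →+* F, |(if φ N ≠ 0 then trc2 F (G.map (mapRingHom φ)) else 0) -
      (if φ r ≠ 0 then trc2 F (G.map (mapRingHom φ)) else 0)| ≤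
      if φ r = 0 then c * √(Nat.card F : ℝ) else 0 := by
    intro φ
    by_cases hr : φ r = 0
    · rw [if_pos hr, if_neg (not_not.2 hr), sub_zero]
      split_ifs with h5
      · exact hc F φ h5
      · rw [abs_zero]
        exact hcs
    · have hNn : φ N ≠ 0 := by
        obtain ⟨t, ht⟩ := hN
        intro h
        apply hr
        rw [ht, map_mul, h, zero_mul]
      rw [if_neg hr, if_pos hr, if_pos hNn, sub_self, abs_zero]
  refine (Finset.sum_le_sum fun φ _ => h2 φ).trans (le_of_eq ?_)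
  rw [← Finset.sum_filter, Finset.sum_const, nsmul_eq_mul, ← Fintype.card_subtype,
    ← Nat.card_eq_fintype_card]

end

section
variable {R B K : Type} [CommRing R] [IsDomain R] [CommRing B] [IsDomain B] [Field K]
  [CharZero K] [Algebra R K] [IsFractionRing R K] [Algebra B K] [IsFractionRing B K]
  [Algebra.FiniteType ℤ R] [Algebra.FiniteType ℤ B]

/-- **The sums of the traces for two models of the same curve.** -/
theorem transfer_sC' {e : ℕ} (he : Algebra.trdeg ℚ K ≤ e) {G : R[X][X]} {G' : B[X][X]}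
    (hgg : G.map (mapRingHom (algebraMap R K)) = G'.map (mapRingHom (algebraMap B K))) {c c' : ℝ}
    (hc0 : 0 ≤ c) (hc0' : 0 ≤ c') {N : R} (hN : N ≠ 0) {N' : B} (hN' : N' ≠ 0)
    (hc : ∀ (F : Type) [Field F] [Finite F] (φ : R →+* F), φ N ≠ 0 →
      |trc2 F (G.map (mapRingHom φ))| ≤ c * √(Nat.card F : ℝ))
    (hc' : ∀ (F : Type) [Field F] [Finite F] (φ : B →+* F), φ N' ≠ 0 →
      |trc2 F (G'.map (mapRingHom φ))| ≤ c' * √(Nat.card F : ℝ)) :
    ∃ (C : ℝ) (m : ℕ), 0 ≤ C ∧ m ≠ 0 ∧ ∀ (F : Type) [Field F] [Finite F], ((m : ℕ) : F) ≠ 0 →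
      |sC G N F - sC G' N' F| * √(Nat.card F : ℝ) ≤ C * (Nat.card F : ℝ) ^ e := by
  classical
  have hiR : Function.Injective (algebraMap R K) := IsFractionRing.injective R K
  have hiB : Function.Injective (algebraMap B K) := IsFractionRing.injective B K
  let v : ℕ × ℕ → R := fun z => (G.coeff z.2).coeff z.1
  let v' : ℕ × ℕ → B := fun z => (G'.coeff z.2).coeff z.1
  have hv : ∀ i, algebraMap R K (v i) = algebraMap B K (v' i) := by
    intro z
    have h1 := congrArg (fun p : K[X][X] => (p.coeff z.2).coeff z.1) hgg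
    simp only [coeff_map, coe_mapRingHom] at h1
    exact h1
  obtain ⟨u, b, hu0, hb0, hNu, hNb, hbij⟩ := transfer_equiv v v' hv N hN N' hN'
  obtain ⟨C1, N1, hC1, hN1, g1⟩ := good_le (R := R) (K := K) hiR he hu0
  obtain ⟨C2, N2, hC2, hN2, g2⟩ := good_le (R := B) (K := K) hiB he hb0
  refine ⟨c * C1 + c' * C2, N1 * N2, add_nonneg (mul_nonneg hc0 hC1) (mul_nonneg hc0' hC2),
    mul_ne_zero hN1 hN2, ?_⟩
  intro F _ _ hm
  rw [Nat.cast_mul] at hm
  have c1 := (g1 F (left_ne_zero_of_mul hm)).2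
  have c2 := (g2 F (right_ne_zero_of_mul hm)).2
  obtain ⟨E, hE⟩ := hbij F
  have hpoly : ∀ (φ : {φ : R →+* F // φ u ≠ 0}), G.map (mapRingHom φ.1) = G'.map (mapRingHom (E φ).1) := by
    intro φ
    ext j i
    rw [coeff_map, coeff_map, coe_mapRingHom, coe_mapRingHom, coeff_map, coeff_map]
    exact hE φ (i, j)
  have hS : sC G u F = sC G' b F := by
    unfold sC
    let _ : Fintype {φ : R →+* F // φ u ≠ 0} := Fintype.ofFinite _
    let _ : Fintype {φ : B →+* F // φ b ≠ 0} := Fintype.ofFinite _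
    rw [finsum_eq_sum_of_fintype, finsum_eq_sum_of_fintype]
    refine Fintype.sum_equiv E _ _ fun φ => ?_
    rw [hpoly φ]
  have p1 := part_le' hc0 hc hNu F
  have p2 := part_le' hc0' hc' hNb F
  rw [hS] at p1
  set q : ℝ := (Nat.card F : ℝ) with hq
  have hs0 : 0 ≤ √q := Real.sqrt_nonneg _
  have hss : √q * √q = q := Real.mul_self_sqrt (Nat.cast_nonneg _)
  calc |sC G N F - sC G' N' F| * √q
      ≤ (|sC G N F - sC G' b F| + |sC G' N' F - sC G' b F|) * √q := by
        refine mul_le_mul_of_nonneg_right ?_ hs0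
        rw [abs_sub_comm (sC G' N' F)]
        exact abs_sub_le _ _ _
    _ ≤ (Nat.card {φ : R →+* F // φ u = 0} * (c * √q) +
        Nat.card {φ : B →+* F // φ b = 0} * (c' * √q)) * √q :=
        mul_le_mul_of_nonneg_right (add_le_add p1 p2) hs0
    _ = c * (Nat.card {φ : R →+* F // φ u = 0} * (√q * √q)) +
        c' * (Nat.card {φ : B →+* F // φ b = 0} * (√q * √q)) := by ring
    _ ≤ c * (C1 * q ^ e) + c' * (C2 * q ^ e) := by
        rw [hss]
        exact add_le_add (mul_le_mul_of_nonneg_left c1 hc0) (mul_le_mul_of_nonneg_left c2 hc0')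
    _ = (c * C1 + c' * C2) * q ^ e := by ring

end

/-- **The rank and the sums of the traces for every model.** -/
theorem rank_asy' {M K E : Type} [Field M] [CharZero M] [Field K] [CharZero K] [Field E] [Algebra M K]
    [Algebra K E] [Algebra M E] [IsScalarTower M K E] (hM : FG M)
    {d k : ℕ} {w : Fin (k + 1) → K} {z : Fin (k + 2) → E} {g h : ℕ} {H : K[X][X]}
    (hd : Algebra.trdeg ℚ M = d) (hw : AlgebraicIndependent M w)
    (hK : IntermediateField.adjoin M (Set.range w) = ⊤)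
    (hz : AlgebraicIndependent M z) (hE : IntermediateField.adjoin M (Set.range z) = ⊤)
    (hg : 0 < g) (hh : 0 < h) (hH : IsPl g h H) (hs : IsSmooth H) (hψ : (psi g h H).Separable)
    [IsDedekindDomain (AdjoinRoot H)]
    [Algebra (AdjoinRoot H) E] [IsFractionRing (AdjoinRoot H) E] [IsScalarTower K (AdjoinRoot H) E] :
    ∃ ρ u : ℕ, Module.rank ℤ (Additive (ClassGroup (AdjoinRoot H))) = ρ ∧
      urank K (AdjoinRoot H) = u ∧
      ∀ (R : Type) [CommRing R] [IsDomain R] [Algebra R K] [IsFractionRing R K]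
        [Algebra.FiniteType ℤ R] (G : R[X][X]), G.map (mapRingHom (algebraMap R K)) = H →
        ∀ N : R, N ≠ 0 → Gd g h G N →
          Asy (fun F _ _ => sC G N F) (d + (k + 1)) ((u : ℝ) - ρ) := by
  classical
  obtain ⟨A₀, iA1, iA2, iA3, iA4, hft⟩ := exists_A hM
  have hA : Function.Injective (algebraMap A₀ M) := IsFractionRing.injective A₀ M
  have hφ := evw_loc (A₀ := A₀) hw hK
  have hi : Function.Injective (evw A₀ M w) := evw_inj hA hw
  obtain ⟨l, H₀, hl, hH₀, hHm⟩ := exists_int' hh hφ hi hH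
  obtain ⟨lK, hlK⟩ : ∃ lK, lK = evw A₀ M w l := ⟨_, rfl⟩
  rw [← hlK] at hHm
  have hl0 : lK ≠ 0 := by
    rw [hlK]
    exact (map_ne_zero_iff _ hi).2 hl
  have hll : lK * lK⁻¹ = 1 := mul_inv_cancel₀ hl0
  have hs' : IsSmooth (ysc g lK lK⁻¹ H) := ysc_smooth hll hs
  have hψ' : (psi g h (ysc g lK lK⁻¹ H)).Separable := ysc_sep hh hll hψ
  have hprH : Prime (ysc g lK lK⁻¹ H) := pl_prime hg hh (hH.ysc hll) hs' hψ'
  have hdomH' : IsDomain (AdjoinRoot (ysc g lK lK⁻¹ H)) := AdjoinRoot.isDomain_of_prime hprH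
  let ε : AdjoinRoot H ≃+* AdjoinRoot (ysc g lK lK⁻¹ H) := yscE hll H
  have hεC : ∀ κ : K, ε (cst H κ) = cst (ysc g lK lK⁻¹ H) κ := yscE_C hll H
  -- the scaled curve
  have hded' : IsDedekindDomain (AdjoinRoot (ysc g lK lK⁻¹ H)) := by
    letI : Algebra (AdjoinRoot H) (AdjoinRoot (ysc g lK lK⁻¹ H)) := (ε : AdjoinRoot H →+* AdjoinRoot (ysc g lK lK⁻¹ H)).toAlgebra
    have h1 : IsLoc (⊥ : Submonoid (AdjoinRoot H)) (ε : AdjoinRoot H →+* AdjoinRoot (ysc g lK lK⁻¹ H)) := by
      refine isLoc_of ε.injective ?_ ?_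
      · intro s hs
        rw [Submonoid.mem_bot] at hs
        rw [hs, map_one]
        exact isUnit_one
      · intro x
        obtain ⟨y, rfl⟩ := ε.surjective x
        exact ⟨1, Submonoid.mem_bot.2 rfl, y, by rw [map_one, mul_one]; rfl⟩
    have h2 : IsLocalization (⊥ : Submonoid (AdjoinRoot H)) (AdjoinRoot (ysc g lK lK⁻¹ H)) := h1
    exact IsLocalization.isDedekindDomain (AdjoinRoot H) bot_le _
  letI aE : Algebra (AdjoinRoot (ysc g lK lK⁻¹ H)) E :=
    ((algebraMap (AdjoinRoot H) E).comp (ε.symm : AdjoinRoot (ysc g lK lK⁻¹ H) →+* AdjoinRoot H)).toAlgebra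
  have hfrE : IsFractionRing (AdjoinRoot (ysc g lK lK⁻¹ H)) E := by
    have h1 : IsLoc (⊥ : Submonoid (AdjoinRoot (ysc g lK lK⁻¹ H))) (ε.symm : AdjoinRoot (ysc g lK lK⁻¹ H) →+* AdjoinRoot H) := by
      refine isLoc_of ε.symm.injective ?_ ?_
      · intro s hs
        rw [Submonoid.mem_bot] at hs
        rw [hs, map_one]
        exact isUnit_one
      · intro x
        obtain ⟨y, rfl⟩ := ε.symm.surjective x
        exact ⟨1, Submonoid.mem_bot.2 rfl, y, by rw [map_one, mul_one]; rfl⟩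
    exact loc_frac h1 ε.symm.injective
  have htow : IsScalarTower K (AdjoinRoot (ysc g lK lK⁻¹ H)) E := by
    refine IsScalarTower.of_algebraMap_eq fun κ => ?_
    show _ = algebraMap (AdjoinRoot H) E (ε.symm (cst (ysc g lK lK⁻¹ H) κ))
    rw [← hεC, RingEquiv.symm_apply_apply, IsScalarTower.algebraMap_apply K (AdjoinRoot H) E]
    rfl
  obtain ⟨ρ, u, N₀, hN₀, hgd, hρ, hu, hasy⟩ := core' hd hw hK hz hE hg hh hH₀ hHm hs' hψ'
  refine ⟨ρ, u, ?_, ?_, ?_⟩
  · rw [← hρ]
    let e1 : Additive (ClassGroup (AdjoinRoot H)) ≃+ Additive (ClassGroup (AdjoinRoot (ysc g lK lK⁻¹ H))) :=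
      MulEquiv.toAdditive (ClassGroup.mulEquiv ε)
    exact e1.toIntLinearEquiv.rank_eq
  · rw [← hu]
    refine qrank_congr (Units.mapEquiv (ε : AdjoinRoot H ≃* AdjoinRoot (ysc g lK lK⁻¹ H))) _ _ ?_
    intro x
    constructor
    · rintro ⟨κ, rfl⟩
      refine ⟨κ, ?_⟩
      ext
      exact (hεC κ).symm
    · rintro ⟨κ, hκ⟩
      refine ⟨κ, ?_⟩
      ext
      apply ε.injective
      have h1 := congrArg Units.val hκ
      refine (hεC κ).trans ?_
      exact h1
  · intro R _ _ _ _ _ G hG N hN hgN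
    have hiR : Function.Injective (algebraMap R K) := IsFractionRing.injective R K
    have hGpl : IsPl g h G := IsPl.of_map (algebraMap R K) hiR (by rw [hG]; exact hH)
    have he : Algebra.trdeg ℚ K ≤ (d + (k + 1) : ℕ) := (trdeg_rat hw hK hd).le
    obtain ⟨c, hc0, hc⟩ := weil_pl hg hh
    have hcm : ∀ (R : Type) [CommRing R] (G : R[X][X]) (N : R), IsPl g h G → Gd g h G N →
        ∀ (F : Type) [Field F] [Finite F] (φ : R →+* F), φ N ≠ 0 →
        |trc2 F (G.map (mapRingHom φ))| ≤ c * √(Nat.card F : ℝ) := by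
      intro R _ G N hG hgd F _ _ φ hφ
      obtain ⟨h1, h2⟩ := hgd F φ hφ
      exact hc F _ (hG.map φ) h1 h2
    letI aP : Algebra (MvPolynomial (Fin (k + 1)) A₀) K := (evw A₀ M w).toAlgebra
    have hfrP : IsFractionRing (MvPolynomial (Fin (k + 1)) A₀) K := hφ
    have hftP : @Algebra.FiniteType ℤ (MvPolynomial (Fin (k + 1)) A₀) _ _ (Ring.toIntAlgebra _) := by
      have h1 : Algebra.FiniteType A₀ (MvPolynomial (Fin (k + 1)) A₀) := inferInstance
      exact ft_int _ (Algebra.FiniteType.trans (inferInstance : Algebra.FiniteType ℤ A₀) h1)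
    obtain ⟨C₃, i1, i2, i3, i4, i5, ι, κ, hι, hκ, hT⟩ := exists_top (R := R)
      (B := MvPolynomial (Fin (k + 1)) A₀) (K := K) {lK, lK⁻¹}
    obtain ⟨lC, hlC⟩ := hT lK (by simp)
    obtain ⟨lC', hlC'⟩ := hT lK⁻¹ (by simp)
    have hiC : Function.Injective (algebraMap C₃ K) := IsFractionRing.injective C₃ K
    have hlC1 : lC * lC' = 1 := by
      apply hiC
      rw [map_mul, hlC, hlC', map_one, hll]
    have hιc : (algebraMap C₃ K).comp ι = algebraMap R K := RingHom.ext hι
    have hκc : (algebraMap C₃ K).comp κ = algebraMap (MvPolynomial (Fin (k + 1)) A₀) K := RingHom.ext hκ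
    have hιi : Function.Injective ι := by
      have h1 : Function.Injective ((algebraMap C₃ K).comp ι) := by rw [hιc]; exact hiR
      exact Function.Injective.of_comp h1
    have hκi : Function.Injective κ := by
      have h1 : Function.Injective ((algebraMap C₃ K).comp κ) := by rw [hκc]; exact hi
      exact Function.Injective.of_comp h1
    have hN₃ : ι N * κ N₀ ≠ 0 := mul_ne_zero ((map_ne_zero_iff _ hιi).2 hN)
      ((map_ne_zero_iff _ hκi).2 hN₀)
    have hinj2 : Function.Injective (Polynomial.map (mapRingHom (algebraMap C₃ K))) :=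
      Polynomial.map_injective _ (Polynomial.map_injective _ hiC)
    have hGC : (G.map (mapRingHom ι)).map (mapRingHom (algebraMap C₃ K)) = H := by
      rw [Polynomial.map_map, mapRingHom_comp, hιc, hG]
    have hHC : (H₀.map (mapRingHom κ)).map (mapRingHom (algebraMap C₃ K)) = ysc g lK lK⁻¹ H := by
      rw [Polynomial.map_map, mapRingHom_comp, hκc]
      exact hHm
    have hrel : H₀.map (mapRingHom κ) = ysc g lC lC' (G.map (mapRingHom ι)) := by
      apply hinj2
      show (H₀.map (mapRingHom κ)).map (mapRingHom (algebraMap C₃ K)) =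
        (ysc g lC lC' (G.map (mapRingHom ι))).map (mapRingHom (algebraMap C₃ K))
      rw [hHC, ysc_map, hlC, hlC', hGC]
    have hGCpl : IsPl g h (G.map (mapRingHom ι)) := hGpl.map ι
    have hHCpl : IsPl g h (H₀.map (mapRingHom κ)) := hH₀.map κ
    have hgG : Gd g h (G.map (mapRingHom ι)) (ι N * κ N₀) := hgN.map ι (Dvd.intro _ rfl)
    have hgH : Gd g h (H₀.map (mapRingHom κ)) (ι N * κ N₀) :=
      Gd.map (G := H₀) (N := N₀) hgd κ (Dvd.intro_left _ rfl)
    -- the first transfer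
    have a1 : Asy (fun F _ _ => sC (H₀.map (mapRingHom κ)) (ι N * κ N₀) F) (d + (k + 1)) ((u : ℝ) - ρ) := by
      refine hasy.near ?_
      exact transfer_sC' (R := C₃) (B := MvPolynomial (Fin (k + 1)) A₀) (K := K) he (by
        rw [hHC]
        exact hHm.symm) hc0 hc0 hN₃ hN₀ (fun F _ _ φ => hcm _ _ _ hHCpl hgH F φ)
        (fun F _ _ φ => hcm _ _ _ hH₀ hgd F φ)
    have a2 : Asy (fun F _ _ => sC (G.map (mapRingHom ι)) (ι N * κ N₀) F) (d + (k + 1)) ((u : ℝ) - ρ) := by
      refine a1.congr 1 one_ne_zero fun F _ _ _ => ?_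
      unfold sC
      refine finsum_congr fun φ => ?_
      rw [hrel, ysc_map, trc2_ysc]
      rw [← map_mul, hlC1, map_one]
    refine a2.near ?_
    exact transfer_sC' (R := R) (B := C₃) (K := K) he (by rw [hG, hGC]) hc0 hc0 hN hN₃
      (fun F _ _ φ => hcm _ _ _ hGpl hgN F φ) (fun F _ _ φ => hcm _ _ _ hGCpl hgG F φ)

end Pool.Agent.Run7.h642.PL
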