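import Pool.Agent.Run7.h642.PL.If
import Pool.Agent.Run7.h642.PL.Dd
import Pool.Agent.Run7.h642.NG.Mn
import Pool.Agent.Run7.h642.NG.Rf

/-!
# The averages for the plane curves with a rational total space
-/

set_option autoImplicit false
set_option linter.all false
set_option maxHeartbeats 1000000

open Polynomial NumberField IsDedekindDomain Filter Topology

namespace Pool.Agent.Run7.h642.PL

open Pool.Agent.R410.NG (Asy Ff finsum_sub sH asy_sH exists_ringk rho rho_apply)
open Pool.Agent.R410.BS (hom_le)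
open Pool.Agent.R410.LW (ft_int FG)
open Pool.Agent.Run7.h954.CP
open Pool.Agent.Run7.h642.NG

section
variable {P : Type} [CommRing P]

/-- the number of the zeros of a monic polynomial -/
theorem nz_le {F : Type} [Field F] [Finite F] {p : F[X]} (hp : p ≠ 0) : nz F p ≤ p.natDegree := by
  classical
  unfold nz
  have h1 : Nat.card {x : F // p.eval x = 0} ≤ p.roots.toFinset.card := by
    have e : {x : F // p.eval x = 0} ≃ {x : F // x ∈ p.roots.toFinset} :=
      Equiv.subtypeEquivRight fun x => by rw [Multiset.mem_toFinset, mem_roots hp]; rfl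
    rw [Nat.card_congr e, Nat.card_eq_fintype_card, Fintype.card_coe]
  have h2 : p.roots.toFinset.card ≤ p.natDegree :=
    (Multiset.toFinset_card_le _).trans (card_roots' p)
  exact_mod_cast h1.trans h2

theorem nz_nonneg {F : Type} [Field F] (p : F[X]) : 0 ≤ nz F p := Nat.cast_nonneg _

/-- the trace of the Frobenius for the projective curve -/
noncomputable def tp (g h : ℕ) (G : P[X][X]) : Pf P := fun F _ φ =>
  trc2 F (G.map (mapRingHom φ)) + (1 - nz F (psi g h (G.map (mapRingHom φ))))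

theorem nz_iso {F F' : Type} [Field F] [Field F'] (e : F ≃+* F') (p : F[X]) :
    nz F' (p.map (e : F →+* F')) = nz F p := by
  unfold nz
  congr 1
  refine (Nat.card_congr ((e : F ≃ F').subtypeEquiv fun x => ?_)).symm
  have h1 : (p.map (e : F →+* F')).eval (e x) = e (p.eval x) := by
    rw [eval_map]
    exact (hom_eval₂ p (RingHom.id F) (e : F →+* F') x).symm
  show _ ↔ (p.map (e : F →+* F')).eval (e x) = 0
  rw [h1, map_eq_zero_iff e e.injective]

theorem piso_tp (g h : ℕ) (G : P[X][X]) : PIso (tp g h G) := by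
  intro F F' _ _ e φ
  have h1 := piso_tf G F F' e φ
  unfold tf at h1
  unfold tp
  rw [h1]
  congr 2
  have h2 : psi g h (G.map (mapRingHom ((e : F →+* F').comp φ))) =
      (psi g h (G.map (mapRingHom φ))).map (e : F →+* F') := by
    rw [psi_map, psi_map, Polynomial.map_map]
  rw [h2, nz_iso]

/-- the function for the points at infinity -/
noncomputable def ti (g h : ℕ) (G : P[X][X]) : Pf P := fun F _ φ =>
  1 - nz F (psi g h (G.map (mapRingHom φ)))

theorem sO_add {O : Type} [CommRing O] (f f' : Pf P) (ρ : O →+* P) (N : P) (F : Type) [Field F]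
    [Finite (P →+* F)] (ψ : O →+* F) :
    sO (fun F _ φ => f F φ + f' F φ) ρ N F ψ = sO f ρ N F ψ + sO f' ρ N F ψ := by
  unfold sO
  exact finsum_add_distrib (Set.toFinite _) (Set.toFinite _)

theorem sA_add (f f' : Pf P) (N : P) (F : Type) [Field F] [Finite (P →+* F)] :
    sA (fun F _ φ => f F φ + f' F φ) N F = sA f N F + sA f' N F := by
  unfold sA
  exact finsum_add_distrib (Set.toFinite _) (Set.toFinite _)

theorem sA_ti (g h : ℕ) (G : P[X][X]) (N : P) (F : Type) [Field F] [Finite F] [Finite (P →+* F)] :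
    sA (ti g h G) N F = sH N F - sZ (psi g h G) N F := by
  classical
  let _ : Fintype {φ : P →+* F // φ N ≠ 0} := Fintype.ofFinite _
  unfold sA ti sH sZ
  rw [finsum_eq_sum_of_fintype, finsum_eq_sum_of_fintype, Finset.sum_sub_distrib, Finset.sum_const,
    Finset.card_univ, nsmul_eq_mul, ← Nat.card_eq_fintype_card, mul_one]
  congr 1
  refine Finset.sum_congr rfl fun φ _ => ?_
  rw [psi_map]

end

section
variable {k₀ : Type} [Field k₀] [NumberField k₀] {M K E : Type} [Field M] [CharZero M] [Algebra k₀ M]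
  [Field K] [CharZero K] [Field E] [Algebra M K] [Algebra K E] [Algebra M E] [IsScalarTower M K E]

/-- **The two estimates for every model.** -/
theorem pl_model (hM : FG M) {d k : ℕ} {w : Fin (k + 1) → K} {z : Fin (k + 2) → E} {g h : ℕ}
    {H : K[X][X]} (hd : Algebra.trdeg ℚ M = d) (hw : AlgebraicIndependent M w)
    (hK : IntermediateField.adjoin M (Set.range w) = ⊤)
    (hz : AlgebraicIndependent M z) (hE : IntermediateField.adjoin M (Set.range z) = ⊤)
    (hg : 0 < g) (hh : 0 < h) (hH : IsPl g h H) (hs : IsSmooth H) (hψ : (psi g h H).Separable)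
    [IsDedekindDomain (AdjoinRoot H)]
    [Algebra (AdjoinRoot H) E] [IsFractionRing (AdjoinRoot H) E] [IsScalarTower K (AdjoinRoot H) E] :
    ∃ ρ u : ℕ, Module.rank ℤ (Additive (ClassGroup (AdjoinRoot H))) = ρ ∧
      urank K (AdjoinRoot H) = u ∧
      ∀ (R : Type) [CommRing R] [IsDomain R] [Algebra R K] [IsFractionRing R K]
        [Algebra.FiniteType ℤ R] [Algebra (𝓞 k₀) R],
        (∀ x : 𝓞 k₀, algebraMap R K (algebraMap (𝓞 k₀) R x) = algebraMap M K (algebraMap k₀ M x)) →
        ∀ (G : R[X][X]), G.map (mapRingHom (algebraMap R K)) = H → ∀ N : R, N ≠ 0 → Gd g h G N →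
          Asy (fun F _ _ => sA (tp g h G) N F) (d + (k + 1))
            (-(((ρ : ℤ) + (nfac (psi g h H) : ℤ) - 1 - (u : ℤ) : ℤ) : ℝ)) ∧
          ∃ (C : ℝ) (m : ℕ), 0 ≤ C ∧ m ≠ 0 ∧ ∀ (F : Type) [Field F] [Finite F], ((m : ℕ) : F) ≠ 0 →
            ∀ ψ : 𝓞 k₀ →+* F, |sO (tp g h G) (algebraMap (𝓞 k₀) R) N F ψ| ≤
              C * (Nat.card F : ℝ) ^ (d + (k + 1)) := by
  obtain ⟨ρ, u, hρ, hu, hasy⟩ := rank_asy' hM hd hw hK hz hE hg hh hH hs hψ
  refine ⟨ρ, u, hρ, hu, ?_⟩
  intro R _ _ _ _ _ _ hk G hG N hN hgd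
  have hpl : IsPl g h G :=
    IsPl.of_map (algebraMap R K) (IsFractionRing.injective R K) (by rw [hG]; exact hH)
  have htr : Algebra.trdeg ℚ K = (d + (k + 1) : ℕ) := trdeg_rat hw hK hd
  have hKF : FG K := fg_rat hM hK
  constructor
  · have h1 := hasy R G hG N hN hgd
    have h2 := asy_sH hKF htr hN
    have h3 := (asy_sZ htr (p := psi g h G) (psi_monic hpl).1 hN).neg
    have h4 := (h1.add h2).add h3
    have e1 : (psi g h G).map (algebraMap R K) = psi g h H := by
      rw [← hG, psi_map]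
    rw [e1] at h4
    have e2 : (u : ℝ) - ρ + 1 + -(nfac (psi g h H) : ℝ) =
        -(((ρ : ℤ) + (nfac (psi g h H) : ℤ) - 1 - (u : ℤ) : ℤ) : ℝ) := by
      push_cast
      ring
    rw [e2] at h4
    refine h4.congr 1 one_ne_zero fun F _ _ _ => ?_
    have hfR : Finite (R →+* F) := Pool.Agent.TH958.An.finite_hom F
    have h5 : sA (tp g h G) N F = sA (tf G) N F + sA (ti g h G) N F := sA_add (tf G) (ti g h G) N F
    rw [h5, sA_ti]
    show sC G N F + _ = _
    ring
  · obtain ⟨A, -, hft, hfr, hAk⟩ := exists_ringk (k := k₀) hM ∅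
    have hft' : @Algebra.FiniteType ℤ A _ _ (Ring.toIntAlgebra _) := ft_int _ hft
    have hmon : G.Monic := (hpl.monic hh).1
    obtain ⟨C1, m1, hC1, hm1, g1⟩ := over_bound (A₀ := A) hd hw hK hz hE (rho hAk)
      (algebraMap (𝓞 k₀) R) (fun x => by rw [hk, rho_apply]) hG hmon hN
    obtain ⟨C3, hC3, g3⟩ := hom_le (R := R) (K := K) (IsFractionRing.injective R K)
      (e := d + (k + 1)) (by rw [htr])
    refine ⟨C1 + C3 * (1 + g), m1, add_nonneg hC1 (mul_nonneg hC3 (by positivity)), hm1, ?_⟩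
    intro F _ _ hF ψ
    have hfR : Finite (R →+* F) := Pool.Agent.TH958.An.finite_hom F
    have h5 : sO (tp g h G) (algebraMap (𝓞 k₀) R) N F ψ =
        sO (tf G) (algebraMap (𝓞 k₀) R) N F ψ + sO (ti g h G) (algebraMap (𝓞 k₀) R) N F ψ :=
      sO_add (tf G) (ti g h G) _ N F ψ
    have h6 := g1 F hF ψ
    have h7 : |sO (ti g h G) (algebraMap (𝓞 k₀) R) N F ψ| ≤ (Nat.card (R →+* F) : ℝ) * (1 + g) := by
      refine sO_bound (by positivity) (fun φ => ?_) ψ
      have hp := psi_monic (hpl.map φ)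
      have e1 := nz_le (F := F) hp.1.ne_zero
      have e2 := nz_nonneg (psi g h (G.map (mapRingHom φ)))
      have e3 : (psi g h (G.map (mapRingHom φ))).natDegree ≤ g := hp.2.le
      have e4 : ((psi g h (G.map (mapRingHom φ))).natDegree : ℝ) ≤ g := by exact_mod_cast e3
      unfold ti
      rw [abs_le]
      constructor
      · linarith
      · have : (0 : ℝ) ≤ g := Nat.cast_nonneg _
        linarith
    have h8 := g3 F
    rw [h5]
    calc _ ≤ |sO (tf G) (algebraMap (𝓞 k₀) R) N F ψ| + |sO (ti g h G) (algebraMap (𝓞 k₀) R) N F ψ| :=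
          abs_add_le _ _
      _ ≤ C1 * (Nat.card F : ℝ) ^ (d + (k + 1)) + (C3 * (Nat.card F : ℝ) ^ (d + (k + 1))) * (1 + g) :=
          add_le_add h6 (h7.trans (mul_le_mul_of_nonneg_right h8 (by positivity)))
      _ = _ := by ring

end

end Pool.Agent.Run7.h642.PL
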