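import Pool.Agent.Run7.h954.CP.RkB

/-!
# Rank of the class group and of the group of units
-/

set_option autoImplicit false
set_option linter.all false

namespace Pool.Agent.Run7.h642.PL

open IsDedekindDomain FractionalIdeal
open scoped nonZeroDivisors
open Pool.Agent.Run7.h954.CP (vv cl count_span val_eq vv_nonneg_iff vv_pos_iff vv_nonneg_of_mem
  vv_pos_iff_mem vv_zero_of_not_mem mem_of_vv_nonneg finite_mem class_rel Loc mem_Loc alg_mem_Loc
  inv_mem_Loc inv_mem_Loc_of_dvd sp_ne vv_mul vv_one vv_inv vv_zpow vv_prod fi_ext prod_zpow_sum pu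
  mk_pu count_prod_pu mk_prod_pu mk_eq_one mk_eq_one' tors_of_primes exists_factor minp_factor minp_iff
  minp_finite Sp mem_Sp U_le_Sp g_mem_Sp Sp_mono UU eu eu_val eu_mul eu_unit gq gq_prime gq_dvd gq_span
  gq_inj gq_surj eu_mem_Sp prod_gq_unit UK minp_dedekind)

/-- the rank of a quotient group -/
noncomputable def qrank {G : Type} [CommGroup G] (N : Subgroup G) : Cardinal :=
  Module.rank ℤ (Additive (G ⧸ N))

theorem rank_lem {G : Type} [CommGroup G] (N : Subgroup G) {V : Type} [AddCommGroup V]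
    (θ : V →+ Additive G) (hs : ∀ e : G, ∃ x : V, (Additive.toMul (θ x))⁻¹ * e ∈ N)
    (S : Submodule ℤ V) (hS : ∀ x, x ∈ S ↔ Additive.toMul (θ x) ∈ N) :
    Module.rank ℤ V = qrank N + Module.rank ℤ S := by
  let Θ : V →+ Additive (G ⧸ N) :=
    (MonoidHom.toAdditive (QuotientGroup.mk' N)).comp θ
  let Θl : V →ₗ[ℤ] Additive (G ⧸ N) := Θ.toIntLinearMap
  have hΘ : ∀ x, Θl x = Additive.ofMul (QuotientGroup.mk' N (Additive.toMul (θ x))) := fun x => rfl
  have hsurj : LinearMap.range Θl = ⊤ := by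
    rw [LinearMap.range_eq_top]
    intro c
    obtain ⟨e, he⟩ := QuotientGroup.mk'_surjective N (Additive.toMul c)
    obtain ⟨x, hx⟩ := hs e
    refine ⟨x, ?_⟩
    rw [hΘ]
    apply Additive.toMul.injective
    rw [← he, toMul_ofMul]
    exact QuotientGroup.eq.2 hx
  have hker : LinearMap.ker Θl = S := by
    ext x
    rw [LinearMap.mem_ker, hS, hΘ]
    constructor
    · intro h
      exact (QuotientGroup.eq_one_iff _).1 (Additive.ofMul.injective h)
    · intro h
      exact congrArg Additive.ofMul ((QuotientGroup.eq_one_iff _).2 h)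
  have r := LinearMap.rank_range_add_rank_ker Θl
  rw [hsurj, rank_top, hker] at r
  exact r.symm

section
variable {A E : Type} [CommRing A] [IsDedekindDomain A] [Field E] [Algebra A E]
    [IsFractionRing A E] {I : Type} [Fintype I]

theorem rank_lattice' {T P : Type} [Fintype T] [Fintype P]
    (𝔭 : I → IsDedekindDomain.HeightOneSpectrum A) (hinj : Function.Injective 𝔭)
    (g : T → Eˣ) (p : P → Eˣ) (UK U0 UA : Subgroup Eˣ) (h0K : U0 ≤ UK)
    (hUA : ∀ e : Eˣ, e ∈ UA ↔ ∀ 𝔮 : IsDedekindDomain.HeightOneSpectrum A, vv 𝔮 e = 0)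
    (a1 : ∀ 𝔮 : IsDedekindDomain.HeightOneSpectrum A, ∃ k : ℕ, k ≠ 0 ∧
      cl 𝔮 ^ k ∈ Subgroup.closure (Set.range fun i => cl (𝔭 i)))
    (a2 : ∀ j, ∀ 𝔮, 𝔮 ∉ Set.range 𝔭 → vv 𝔮 (g j) = 0)
    (a3 : ∀ e : Eˣ, (∀ 𝔮, 𝔮 ∉ Set.range 𝔭 → vv 𝔮 e = 0) →
      ∃ (κ : Eˣ) (x : T → ℤ), κ ∈ UK ∧ e = κ * ∏ j, g j ^ x j)
    (a4 : ∀ κ ∈ UK, ∀ 𝔮 : IsDedekindDomain.HeightOneSpectrum A, vv 𝔮 κ = 0)
    (a6 : ∀ x : T → ℤ, ∏ j, g j ^ x j ∈ UK → ∃ (ε : Eˣ) (y : P → ℤ), ε ∈ U0 ∧
      ∏ j, g j ^ x j = ε * ∏ i, p i ^ y i)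
    (a7 : ∀ i, p i ∈ UK ∧ ∃ (ε : Eˣ) (x : T → ℤ), ε ∈ U0 ∧ p i = ε * ∏ j, g j ^ x j)
    (a8 : ∀ x : T → ℤ, ∏ j, g j ^ x j ∈ U0 → x = 0)
    (a9 : ∀ y : P → ℤ, ∏ i, p i ^ y i ∈ U0 → y = 0) :
    Module.rank ℤ (Additive (ClassGroup A)) + (Fintype.card T : Cardinal) =
      (Fintype.card I : Cardinal) + (Fintype.card P : Cardinal) +
        qrank (UK.subgroupOf UA) ∧ qrank (UK.subgroupOf UA) ≤ (Fintype.card T : Cardinal) := by
  classical
  choose hpK ε₀ Yx hε₀ hYx using a7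
  set α : (I → ℤ) →ₗ[ℤ] Additive (ClassGroup A) :=
    Fintype.linearCombination ℤ (fun i => Additive.ofMul (cl (𝔭 i))) with hα
  set W : (T → ℤ) →ₗ[ℤ] (I → ℤ) :=
    Fintype.linearCombination ℤ (fun j => (fun i => vv (𝔭 i) (g j))) with hW
  set Y : (P → ℤ) →ₗ[ℤ] (T → ℤ) := Fintype.linearCombination ℤ Yx with hY
  have hWapp : ∀ (x : T → ℤ) (i : I), W x i = vv (𝔭 i) (∏ j, g j ^ x j) := by
    intro x i
    rw [vv_prod, hW, Fintype.linearCombination_apply, Finset.sum_apply]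
    refine Finset.sum_congr rfl fun j _ => ?_
    rw [Pi.smul_apply, smul_eq_mul]
  -- products of the `p i`
  have hYapp : ∀ y : P → ℤ, ∃ ε ∈ U0, ∏ i, p i ^ y i = ε * ∏ j, g j ^ (Y y) j := by
    intro y
    refine ⟨∏ i, ε₀ i ^ y i, Subgroup.prod_mem _ fun i _ => U0.zpow_mem (hε₀ i) _, ?_⟩
    have h1 : ∀ i, p i ^ y i = ε₀ i ^ y i * ∏ j, g j ^ (y i * Yx i j) := by
      intro i
      conv_lhs => rw [hYx i]
      rw [mul_zpow, ← Finset.prod_zpow]
      congr 1
      refine Finset.prod_congr rfl fun j _ => ?_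
      rw [← zpow_mul, mul_comm]
    rw [Finset.prod_congr rfl fun i _ => h1 i, Finset.prod_mul_distrib, Finset.prod_comm]
    congr 1
    refine Finset.prod_congr rfl fun j _ => ?_
    rw [prod_zpow_sum]
    congr 1
    rw [hY, Fintype.linearCombination_apply, Finset.sum_apply]
    refine Finset.sum_congr rfl fun i _ => ?_
    rw [Pi.smul_apply, smul_eq_mul]
  -- (1)
  have h1 : LinearMap.ker α = LinearMap.range W := by
    ext x
    rw [LinearMap.mem_ker, LinearMap.mem_range]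
    constructor
    · intro hx
      rw [hα, ← mk_prod_pu (E := E)] at hx
      have hx' : ClassGroup.mk E (∏ i, pu E (𝔭 i) ^ x i) = 1 := Additive.ofMul.injective hx
      obtain ⟨e, he⟩ := mk_eq_one hx'
      have hve : ∀ 𝔮, vv 𝔮 e = ∑ i, x i * count E 𝔮 ((𝔭 i).asIdeal : FractionalIdeal A⁰ E) := by
        intro 𝔮
        unfold vv
        rw [← he, count_prod_pu]
      obtain ⟨κ, z, hκ, hez⟩ := a3 e (by
        intro 𝔮 h𝔮
        rw [hve]
        refine Finset.sum_eq_zero fun i _ => ?_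
        rw [count_maximal_coprime E 𝔮 (fun h => h𝔮 ⟨i, h⟩), mul_zero])
      refine ⟨z, ?_⟩
      funext i
      rw [hWapp]
      have h2 : vv (𝔭 i) e = x i := by
        rw [hve, Finset.sum_eq_single i]
        · rw [count_self, mul_one]
        · intro b _ hb
          rw [count_maximal_coprime E (𝔭 i) (fun h => hb (hinj h)), mul_zero]
        · intro h; exact absurd (Finset.mem_univ _) h
      rw [← h2, hez, vv_mul, a4 κ hκ, zero_add]
    · rintro ⟨z, rfl⟩
      rw [hα, ← mk_prod_pu (E := E)]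
      have : ClassGroup.mk E (∏ i, pu E (𝔭 i) ^ (W z) i) = 1 := by
        apply mk_eq_one' (e := ∏ j, g j ^ z j)
        apply fi_ext (Units.ne_zero _) (sp_ne _)
        intro 𝔮
        rw [count_prod_pu]
        show _ = vv 𝔮 (∏ j, g j ^ z j)
        by_cases h𝔮 : 𝔮 ∈ Set.range 𝔭
        · obtain ⟨i, rfl⟩ := h𝔮
          rw [Finset.sum_eq_single i, count_self, mul_one, hWapp]
          · intro b _ hb
            rw [count_maximal_coprime E (𝔭 i) (fun h => hb (hinj h)), mul_zero]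
          · intro h; exact absurd (Finset.mem_univ _) h
        · rw [vv_prod]
          trans (0 : ℤ)
          · refine Finset.sum_eq_zero fun i _ => ?_
            rw [count_maximal_coprime E 𝔮 (fun h => h𝔮 ⟨i, h⟩), mul_zero]
          · symm
            refine Finset.sum_eq_zero fun j _ => ?_
            rw [a2 j 𝔮 h𝔮, mul_zero]
      rw [this]
      rfl
  -- (2)
  have hprod : ∀ x x' : T → ℤ, ∏ j, g j ^ (x + x') j = (∏ j, g j ^ x j) * ∏ j, g j ^ x' j := by
    intro x x'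
    rw [← Finset.prod_mul_distrib]
    exact Finset.prod_congr rfl fun j _ => by rw [Pi.add_apply, zpow_add]
  have hker : ∀ x : T → ℤ, x ∈ LinearMap.ker W ↔ ∏ j, g j ^ x j ∈ UA := by
    intro x
    rw [LinearMap.mem_ker, hUA]
    constructor
    · intro hx 𝔮
      by_cases h𝔮 : 𝔮 ∈ Set.range 𝔭
      · obtain ⟨i, rfl⟩ := h𝔮
        rw [← hWapp, hx]; rfl
      · rw [vv_prod]
        refine Finset.sum_eq_zero fun j _ => ?_
        rw [a2 j 𝔮 h𝔮, mul_zero]
    · intro hx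
      funext i
      rw [hWapp, hx]
      rfl
  have hKA : UK ≤ UA := fun κ hκ => (hUA κ).2 (a4 κ hκ)
  let Θ : ↥(LinearMap.ker W) →+ Additive ↥UA :=
    { toFun := fun x => Additive.ofMul (⟨∏ j, g j ^ x.1 j, (hker x.1).1 x.2⟩ : UA)
      map_zero' := by
        have h0 : (⟨∏ j, g j ^ (0 : ↥(LinearMap.ker W)).1 j, (hker _).1 (0 : ↥(LinearMap.ker W)).2⟩ : UA) = 1 := by
          apply Subtype.ext
          show ∏ j, g j ^ (0 : T → ℤ) j = 1
          simp
        rw [h0]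
        rfl
      map_add' := fun x x' => by
        have h0 : (⟨∏ j, g j ^ (x + x').1 j, (hker _).1 (x + x').2⟩ : UA) =
            ⟨∏ j, g j ^ x.1 j, (hker x.1).1 x.2⟩ * ⟨∏ j, g j ^ x'.1 j, (hker x'.1).1 x'.2⟩ := by
          apply Subtype.ext
          exact hprod x.1 x'.1
        rw [h0]
        rfl }
  have hΘ : ∀ x : ↥(LinearMap.ker W), ((Additive.toMul (Θ x) : UA) : Eˣ) = ∏ j, g j ^ x.1 j := fun x => rfl
  have hYK : ∀ y : P → ℤ, ∏ j, g j ^ (Y y) j ∈ UK := by
    intro y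
    obtain ⟨ε', hε', hy'⟩ := hYapp y
    have hyK : ∏ i, p i ^ y i ∈ UK := Subgroup.prod_mem _ fun i _ => UK.zpow_mem (hpK i) _
    have h6 : ∏ j, g j ^ (Y y) j = ε'⁻¹ * ∏ i, p i ^ y i := by rw [hy', inv_mul_cancel_left]
    rw [h6]
    exact UK.mul_mem (UK.inv_mem (h0K hε')) hyK
  have hYle : LinearMap.range Y ≤ LinearMap.ker W := by
    rintro _ ⟨y, rfl⟩
    exact (hker _).2 (hKA (hYK y))
  have hrk := rank_lem (UK.subgroupOf UA) Θ (by
    rintro ⟨e, he⟩
    obtain ⟨κ, x, hκ, hex⟩ := a3 e fun 𝔮 _ => (hUA e).1 he 𝔮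
    have hx : ∏ j, g j ^ x j ∈ UA := by
      have h4 : ∏ j, g j ^ x j = κ⁻¹ * e := by rw [hex, inv_mul_cancel_left]
      rw [h4]
      exact UA.mul_mem (UA.inv_mem (hKA hκ)) he
    refine ⟨⟨x, (hker x).2 hx⟩, ?_⟩
    rw [Subgroup.mem_subgroupOf]
    show (∏ j, g j ^ x j)⁻¹ * e ∈ UK
    rw [hex, mul_comm κ, inv_mul_cancel_left]
    exact hκ) ((LinearMap.range Y).comap (LinearMap.ker W).subtype) (by
    intro x
    rw [Subgroup.mem_subgroupOf, hΘ, Submodule.mem_comap]
    constructor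
    · rintro ⟨y, hy⟩
      have hy1 : Y y = x.1 := hy
      rw [← hy1]
      exact hYK y
    · intro h4
      obtain ⟨ε, y, hε, hy⟩ := a6 x.1 h4
      obtain ⟨ε', hε', hy'⟩ := hYapp y
      refine ⟨y, ?_⟩
      show Y y = x.1
      have h3 : x.1 - Y y = 0 := by
        apply a8
        have : ∏ j, g j ^ (x.1 - Y y) j = ε * ε' := by
          have h4 : ∀ j, g j ^ (x.1 - Y y) j = g j ^ x.1 j * (g j ^ (Y y) j)⁻¹ := by
            intro j
            rw [Pi.sub_apply, zpow_sub]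
          rw [Finset.prod_congr rfl fun j _ => h4 j, Finset.prod_mul_distrib, Finset.prod_inv_distrib,
            hy, hy']
          rw [mul_inv_eq_iff_eq_mul]
          exact (mul_assoc _ _ _).symm
        rw [this]
        exact U0.mul_mem hε hε'
      exact (sub_eq_zero.1 h3).symm)
  have r5 : Module.rank ℤ ((LinearMap.range Y).comap (LinearMap.ker W).subtype) =
      Module.rank ℤ (LinearMap.range Y) := (Submodule.comapSubtypeEquivOfLe hYle).rank_eq
  -- (3)
  have h3 : LinearMap.ker Y = ⊥ := by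
    rw [LinearMap.ker_eq_bot']
    intro y hy
    apply a9
    obtain ⟨ε', hε', hy'⟩ := hYapp y
    rw [hy', hy]
    simpa using hε'
  -- (4)
  have h4 : Module.rank ℤ (Additive (ClassGroup A)) = Module.rank ℤ (LinearMap.range α) := by
    rw [← Submodule.rank_quotient_add_rank (LinearMap.range α)]
    have : Module.rank ℤ (Additive (ClassGroup A) ⧸ LinearMap.range α) = 0 := by
      rw [rank_eq_zero_iff]
      intro c
      obtain ⟨c, rfl⟩ := Submodule.Quotient.mk_surjective _ c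
      obtain ⟨k, hk, hck⟩ := tors_of_primes _ a1 (Additive.toMul c)
      refine ⟨k, by exact_mod_cast hk, ?_⟩
      rw [← Submodule.Quotient.mk_smul, Submodule.Quotient.mk_eq_zero]
      have hle : Subgroup.closure (Set.range fun i => cl (𝔭 i)) ≤
          AddSubgroup.toSubgroup' (LinearMap.range α).toAddSubgroup := by
        rw [Subgroup.closure_le]
        rintro _ ⟨i, rfl⟩
        show Additive.ofMul (cl (𝔭 i)) ∈ LinearMap.range α
        refine ⟨Pi.single i 1, ?_⟩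
        rw [hα, Fintype.linearCombination_apply_single, one_smul]
      have h5 := hle hck
      show ((k : ℤ) • c) ∈ LinearMap.range α
      rw [natCast_zsmul]
      exact h5
    rw [this, zero_add]
  have r1 := LinearMap.rank_range_add_rank_ker α
  have r2 := LinearMap.rank_range_add_rank_ker W
  have r3 := LinearMap.rank_range_add_rank_ker Y
  rw [rank_fun'] at r1 r2 r3
  rw [h3, rank_bot, add_zero] at r3
  rw [r5, r3] at hrk
  rw [h1] at r1
  refine ⟨?_, ?_⟩
  · rw [h4, ← r1, ← r2, hrk]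
    ring
  · rw [← r2, hrk]
    exact le_add_left (self_le_add_right _ _)

end

/-- The situation of the pieces RKA and RKB.  `P` and `T` are factorial, `P ⊆ C ⊆ A ⊆ E ⊇ T`, `A` is the
localisation of `C` at the nonzero elements of `P`, `E` is the fraction field of `A`, `C`, and `T`, and
`C[1/(f r)] = T[1/g]`. -/
structure SitU (P T C A E : Type) [CommRing P] [IsDomain P] [UniqueFactorizationMonoid P]
    [CommRing T] [IsDomain T] [UniqueFactorizationMonoid T] [CommRing C] [IsDomain C]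
    [CommRing A] [IsDedekindDomain A] [Field E] [Algebra P C] [Algebra P A] [Algebra C A] [Algebra P E]
    [Algebra C E] [Algebra A E] [Algebra T E] (f : C) (r : P) (g : T) : Prop where
  tPCA : IsScalarTower P C A
  tCAE : IsScalarTower C A E
  tPCE : IsScalarTower P C E
  inj : Function.Injective (algebraMap P C)
  loc : IsLocalization (Algebra.algebraMapSubmonoid C (nonZeroDivisors P)) A
  frA : IsFractionRing A E
  frT : IsFractionRing T E
  unitT : ∀ t : T, IsUnit t → ∃ p : P, IsUnit p ∧ algebraMap P E p = algebraMap T E t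
  unitP : ∀ p : P, IsUnit p → ∃ t : T, IsUnit t ∧ algebraMap P E p = algebraMap T E t
  prime : ∀ q : P, Irreducible q → ¬ q ∣ r → Prime (algebraMap P C q)
  dvd : ∀ q p : P, Irreducible q → algebraMap P C q ∣ algebraMap P C p → q ∣ p
  f0 : f ≠ 0
  r0 : r ≠ 0
  g0 : g ≠ 0
  eq : ∀ e : E, (∃ k : ℕ, e * algebraMap C E (f * algebraMap P C r) ^ k ∈ (algebraMap C E).range) ↔
    ∃ k : ℕ, e * algebraMap T E g ^ k ∈ (algebraMap T E).range
  vert : ∀ q : P, Irreducible q → ¬ q ∣ r → ¬ algebraMap P C q ∣ f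

section
variable {P T C A E : Type} [CommRing P] [IsDomain P] [UniqueFactorizationMonoid P]
    [CommRing T] [IsDomain T] [UniqueFactorizationMonoid T] [CommRing C] [IsDomain C]
    [CommRing A] [IsDedekindDomain A] [Field E] [Algebra P C] [Algebra P A] [Algebra C A] [Algebra P E]
    [Algebra C E] [Algebra A E] [Algebra T E] {f : C} {r : P} {g : T}

namespace SitU

variable (h : SitU P T C A E f r g)

include h

theorem Deq : Loc C E (f * algebraMap P C r) = Loc T E g := by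
  ext e
  exact h.eq e

theorem algPE (p : P) : algebraMap P E p = algebraMap C E (algebraMap P C p) := by
  have := h.tPCE
  exact IsScalarTower.algebraMap_apply P C E p

theorem algCE (c : C) : algebraMap C E c = algebraMap A E (algebraMap C A c) := by
  have := h.tCAE
  exact IsScalarTower.algebraMap_apply C A E c

theorem algPA (p : P) : algebraMap P A p = algebraMap C A (algebraMap P C p) := by
  have := h.tPCA
  exact IsScalarTower.algebraMap_apply P C A p

theorem algPE' (p : P) : algebraMap P E p = algebraMap A E (algebraMap P A p) := by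
  rw [h.algPE, h.algCE, h.algPA]

theorem injAE : Function.Injective (algebraMap A E) := by
  have := h.frA
  exact IsFractionRing.injective A E

theorem injTE : Function.Injective (algebraMap T E) := by
  have := h.frT
  exact IsFractionRing.injective T E

theorem subm : Algebra.algebraMapSubmonoid C (nonZeroDivisors P) ≤ nonZeroDivisors C := by
  rintro _ ⟨p, hp, rfl⟩
  apply mem_nonZeroDivisors_of_ne_zero
  intro h0
  exact nonZeroDivisors.ne_zero hp (h.inj (by rw [h0, map_zero]))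

theorem injCA : Function.Injective (algebraMap C A) := by
  have := h.loc
  exact IsLocalization.injective A h.subm

theorem injCE : Function.Injective (algebraMap C E) := by
  intro x y hxy
  rw [h.algCE, h.algCE] at hxy
  exact h.injCA (h.injAE hxy)

theorem injPE : Function.Injective (algebraMap P E) := by
  intro x y hxy
  rw [h.algPE, h.algPE] at hxy
  exact h.inj (h.injCE hxy)

theorem fE0 : algebraMap C E f ≠ 0 := fun h0 => h.f0 (h.injCE (by rw [h0, map_zero]))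

theorem fA0 : algebraMap C A f ≠ 0 := fun h0 => h.f0 (h.injCA (by rw [h0, map_zero]))

theorem gE0 : algebraMap T E g ≠ 0 := fun h0 => h.g0 (h.injTE (by rw [h0, map_zero]))

theorem PE0 {p : P} (hp : p ≠ 0) : algebraMap P E p ≠ 0 := fun h0 => hp (h.injPE (by rw [h0, map_zero]))

theorem TE0 {t : T} (ht : t ≠ 0) : algebraMap T E t ≠ 0 := fun h0 => ht (h.injTE (by rw [h0, map_zero]))

theorem PC0 {p : P} (hp : p ≠ 0) : algebraMap P C p ≠ 0 := fun h0 => hp (h.inj (by rw [h0, map_zero]))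

theorem sE0 : algebraMap C E (f * algebraMap P C r) ≠ 0 := by
  rw [map_mul, ← h.algPE]
  exact mul_ne_zero h.fE0 (h.PE0 h.r0)

/-- elements of `P` are units of `A` -/
theorem unitPA {p : P} (hp : p ≠ 0) : ∃ a : A, a * algebraMap P A p = 1 := by
  have := h.loc
  have : IsUnit (algebraMap C A (algebraMap P C p)) :=
    IsLocalization.map_units A
      (⟨algebraMap P C p, p, mem_nonZeroDivisors_of_ne_zero hp, rfl⟩ :
        Algebra.algebraMapSubmonoid C (nonZeroDivisors P))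
  obtain ⟨a, ha⟩ := this.exists_left_inv
  exact ⟨a, by rw [h.algPA, ha]⟩

theorem invP_mem {p : P} (hp : p ≠ 0) : (algebraMap P E p)⁻¹ ∈ Loc A E (algebraMap C A f) := by
  obtain ⟨a, ha⟩ := h.unitPA hp
  have : (algebraMap P E p)⁻¹ = algebraMap A E a := by
    apply inv_eq_of_mul_eq_one_left
    rw [h.algPE', ← map_mul, ha, map_one]
  rw [this]
  exact alg_mem_Loc _

/-- `D ⊆ A_f` -/
theorem D_le : Loc C E (f * algebraMap P C r) ≤ Loc A E (algebraMap C A f) := by
  rintro e ⟨k, c, hc⟩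
  have h1 : e * algebraMap A E (algebraMap C A f) ^ k =
      algebraMap C E c * (algebraMap P E r)⁻¹ ^ k := by
    rw [hc, map_mul, ← h.algCE, ← h.algPE, mul_pow, inv_pow, ← mul_assoc, mul_inv_cancel_right₀]
    exact pow_ne_zero _ (h.PE0 h.r0)
  have hf : algebraMap A E (algebraMap C A f) ≠ 0 := by rw [← h.algCE]; exact h.fE0
  have h2 : e = algebraMap C E c * (algebraMap P E r)⁻¹ ^ k *
      (algebraMap A E (algebraMap C A f))⁻¹ ^ k := by
    rw [← h1, inv_pow, mul_inv_cancel_right₀]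
    exact pow_ne_zero _ hf
  rw [h2]
  refine Subring.mul_mem _ (Subring.mul_mem _ ?_ (Subring.pow_mem _ (h.invP_mem h.r0) _))
    (Subring.pow_mem _ (inv_mem_Loc hf) _)
  rw [h.algCE]
  exact alg_mem_Loc _

theorem T_mem (t : T) : algebraMap T E t ∈ Loc A E (algebraMap C A f) := by
  apply h.D_le
  rw [h.Deq]
  exact alg_mem_Loc t

theorem invg_mem : (algebraMap T E g)⁻¹ ∈ Loc A E (algebraMap C A f) := by
  apply h.D_le
  rw [h.Deq]
  exact inv_mem_Loc h.gE0

theorem C_mem (c : C) : algebraMap C E c ∈ Loc T E g := by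
  rw [← h.Deq]
  exact alg_mem_Loc c

/-- every element of `A` is a fraction of elements of `T` -/
theorem rep (a : A) : ∃ t m : T, algebraMap T E m ≠ 0 ∧
    (algebraMap T E m)⁻¹ ∈ Loc A E (algebraMap C A f) ∧
    algebraMap A E a * algebraMap T E m = algebraMap T E t := by
  have := h.loc
  obtain ⟨⟨c, ⟨_, p, hp, rfl⟩⟩, hc⟩ :=
    IsLocalization.surj (Algebra.algebraMapSubmonoid C (nonZeroDivisors P)) a
  have hp0 : p ≠ 0 := nonZeroDivisors.ne_zero hp
  have hc' : a * algebraMap C A (algebraMap P C p) = algebraMap C A c := hc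
  obtain ⟨i, x, hx⟩ := h.C_mem c
  obtain ⟨j, y, hy⟩ := h.C_mem (algebraMap P C p)
  have hyE : algebraMap T E y = algebraMap P E p * algebraMap T E g ^ j := by
    rw [hy, h.algPE]
  have hxE : algebraMap T E x = algebraMap C E c * algebraMap T E g ^ i := hx
  have hcE : algebraMap A E a * algebraMap P E p = algebraMap C E c := by
    rw [h.algPE, h.algCE, h.algCE, ← hc', map_mul]
  refine ⟨x * g ^ j, y * g ^ i, ?_, ?_, ?_⟩
  · rw [map_mul, map_pow, hyE]
    exact mul_ne_zero (mul_ne_zero (h.PE0 hp0) (pow_ne_zero _ h.gE0)) (pow_ne_zero _ h.gE0)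
  · have : (algebraMap T E (y * g ^ i))⁻¹ =
        (algebraMap P E p)⁻¹ * (algebraMap T E g)⁻¹ ^ j * (algebraMap T E g)⁻¹ ^ i := by
      rw [map_mul, map_pow, hyE, mul_inv, mul_inv, inv_pow, inv_pow]
    rw [this]
    exact Subring.mul_mem _ (Subring.mul_mem _ (h.invP_mem hp0) (Subring.pow_mem _ h.invg_mem _))
      (Subring.pow_mem _ h.invg_mem _)
  · rw [map_mul, map_mul, map_pow, map_pow, hyE, hxE, ← hcE]
    ring

theorem rep' {e : E} (he : e ∈ Loc A E (algebraMap C A f)) : ∃ t m : T, algebraMap T E m ≠ 0 ∧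
    (algebraMap T E m)⁻¹ ∈ Loc A E (algebraMap C A f) ∧
    e * algebraMap T E m = algebraMap T E t := by
  obtain ⟨k, a, ha⟩ := he
  obtain ⟨t, m, hm, hm', htm⟩ := h.rep a
  obtain ⟨i, x, hx⟩ := h.C_mem f
  have hf : algebraMap A E (algebraMap C A f) = algebraMap C E f := by rw [← h.algCE]
  have hxE : algebraMap T E x = algebraMap C E f * algebraMap T E g ^ i := hx
  refine ⟨t * (g ^ i) ^ k, m * x ^ k, ?_, ?_, ?_⟩
  · rw [map_mul, map_pow, hxE]
    exact mul_ne_zero hm (pow_ne_zero _ (mul_ne_zero h.fE0 (pow_ne_zero _ h.gE0)))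
  · have : (algebraMap T E (m * x ^ k))⁻¹ =
        (algebraMap T E m)⁻¹ * ((algebraMap A E (algebraMap C A f))⁻¹ * (algebraMap T E g)⁻¹ ^ i) ^ k := by
      rw [map_mul, map_pow, hxE, mul_inv, inv_pow, hf, ← inv_pow, mul_inv]
    rw [this]
    refine Subring.mul_mem _ hm' (Subring.pow_mem _ (Subring.mul_mem _ ?_ (Subring.pow_mem _ h.invg_mem _)) _)
    apply inv_mem_Loc
    rw [hf]; exact h.fE0
  · rw [map_mul, map_mul, map_pow, map_pow, map_pow, hxE, ← htm, ha, hf]
    ring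

/-- the valuation is nonnegative on `A_f` if `f` is not in the prime -/
theorem vv_Af [IsFractionRing A E] {𝔮 : HeightOneSpectrum A} (hf : algebraMap C A f ∉ 𝔮.asIdeal) {e : Eˣ}
    (he : (e : E) ∈ Loc A E (algebraMap C A f)) : 0 ≤ vv 𝔮 e := by
  obtain ⟨k, a, ha⟩ := he
  have hfE : algebraMap A E (algebraMap C A f) ≠ 0 := by rw [← h.algCE]; exact h.fE0
  have h1 : vv 𝔮 (e * Units.mk0 _ hfE ^ (k : ℤ)) = vv 𝔮 e := by
    rw [vv_mul, vv_zpow, vv_zero_of_not_mem 𝔮 (Units.val_mk0 hfE) hf, mul_zero, add_zero]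
  rw [← h1]
  refine vv_nonneg_of_mem 𝔮 (a := a) ?_
  rw [Units.val_mul, zpow_natCast, Units.val_pow_eq_pow_val, Units.val_mk0, ha]

theorem vv_Af0 [IsFractionRing A E] {𝔮 : HeightOneSpectrum A} (hf : algebraMap C A f ∉ 𝔮.asIdeal) {e : Eˣ}
    (he : (e : E) ∈ Loc A E (algebraMap C A f)) (he' : (e : E)⁻¹ ∈ Loc A E (algebraMap C A f)) :
    vv 𝔮 e = 0 := by
  have h1 := h.vv_Af hf he
  have h2 := h.vv_Af hf (e := e⁻¹) (by rwa [Units.val_inv_eq_inv_val])
  rw [vv_inv] at h2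
  omega

/-- a nonzero element of `T` as a unit of `E` -/
noncomputable def tu (t : T) (ht : t ≠ 0) : Eˣ := Units.mk0 (algebraMap T E t) (h.TE0 ht)

theorem tu_val (t : T) (ht : t ≠ 0) : (h.tu t ht : E) = algebraMap T E t := rfl

end SitU

/-- Piece RKA: every class is torsion modulo the classes of the primes which contain `f`. -/
theorem class_gen (h : SitU P T C A E f r g) (𝔮 : IsDedekindDomain.HeightOneSpectrum A) :
    ∃ k : ℕ, k ≠ 0 ∧ cl 𝔮 ^ k ∈ Subgroup.closure
      {c | ∃ 𝔭 : IsDedekindDomain.HeightOneSpectrum A, algebraMap C A f ∈ 𝔭.asIdeal ∧ c = cl 𝔭} := by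
  classical
  by_cases hf : algebraMap C A f ∈ 𝔮.asIdeal
  · exact ⟨1, one_ne_zero, by rw [pow_one]; exact Subgroup.subset_closure ⟨𝔮, hf, rfl⟩⟩
  have frA := h.frA
  -- an element of `T` with positive valuation
  have s1 : ∃ (t : T) (ht : t ≠ 0), 0 < vv 𝔮 (h.tu t ht) := by
    obtain ⟨a, ha𝔮, ha0⟩ := Submodule.exists_mem_ne_zero_of_ne_bot 𝔮.ne_bot
    obtain ⟨t, m, hm, hm', htm⟩ := h.rep a
    have haE : algebraMap A E a ≠ 0 := fun h0 => ha0 (h.injAE (by rw [h0, map_zero]))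
    have ht : t ≠ 0 := by
      rintro rfl
      rw [map_zero] at htm
      exact mul_ne_zero haE hm htm
    refine ⟨t, ht, ?_⟩
    have h1 : h.tu t ht = Units.mk0 _ haE * Units.mk0 _ hm := by
      ext
      rw [Units.val_mul, Units.val_mk0, Units.val_mk0, h.tu_val, htm]
    have h2 : vv 𝔮 (Units.mk0 _ hm) = 0 := h.vv_Af0 hf (h.T_mem m) hm'
    rw [h1, vv_mul, h2, add_zero]
    exact (vv_pos_iff_mem 𝔮 (Units.val_mk0 haE)).2 ha𝔮
  -- a prime element of `T` with positive valuation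
  have s2 : ∃ (t : T) (ht : t ≠ 0), Prime t ∧ 0 < vv 𝔮 (h.tu t ht) := by
    obtain ⟨t, ht, hpos⟩ := s1
    revert ht hpos
    induction t using UniqueFactorizationMonoid.induction_on_prime with
    | h₁ => intro ht; exact absurd rfl ht
    | h₂ t hu =>
      intro ht hpos
      exfalso
      obtain ⟨u, rfl⟩ := hu
      have : (algebraMap T E (u : T))⁻¹ = algebraMap T E ((u⁻¹ : Tˣ) : T) := by
        apply inv_eq_of_mul_eq_one_left
        rw [← map_mul, Units.inv_mul, map_one]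
      have h2 : vv 𝔮 (h.tu (u : T) ht) = 0 := h.vv_Af0 hf (h.T_mem u) (by
        show (algebraMap T E (u : T))⁻¹ ∈ _
        rw [this]
        exact h.T_mem _)
      omega
    | h₃ t q ht0 hq ih =>
      intro ht hpos
      by_cases hq1 : 0 < vv 𝔮 (h.tu q hq.ne_zero)
      · exact ⟨q, hq.ne_zero, hq, hq1⟩
      · apply ih ht0
        have h1 : h.tu (q * t) ht = h.tu q hq.ne_zero * h.tu t ht0 := by
          ext
          rw [Units.val_mul, h.tu_val, h.tu_val, h.tu_val, map_mul]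
        rw [h1, vv_mul] at hpos
        omega
  obtain ⟨g₁, hg0, hg, hpos⟩ := s2
  set γ : E := algebraMap T E g₁ with hγ
  have hγ0 : γ ≠ 0 := h.TE0 hg0
  -- the ideal
  let 𝔥 : Ideal A :=
    { carrier := {a | algebraMap A E a * γ⁻¹ ∈ Loc A E (algebraMap C A f)}
      zero_mem' := by
        show algebraMap A E 0 * γ⁻¹ ∈ Loc A E (algebraMap C A f)
        rw [map_zero, zero_mul]
        exact Subring.zero_mem _
      add_mem' := by
        intro a b ha hb
        show algebraMap A E (a + b) * γ⁻¹ ∈ Loc A E (algebraMap C A f)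
        rw [map_add, add_mul]
        exact Subring.add_mem _ ha hb
      smul_mem' := by
        intro c a ha
        show algebraMap A E (c * a) * γ⁻¹ ∈ Loc A E (algebraMap C A f)
        rw [map_mul, mul_assoc]
        exact Subring.mul_mem _ (alg_mem_Loc c) ha }
  have mem𝔥 : ∀ a : A, a ∈ 𝔥 ↔ algebraMap A E a * γ⁻¹ ∈ Loc A E (algebraMap C A f) := fun a => Iff.rfl
  have hle : 𝔥 ≤ 𝔮.asIdeal := by
    intro a ha
    by_cases ha0 : a = 0
    · rw [ha0]; exact 𝔮.asIdeal.zero_mem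
    have haE : algebraMap A E a ≠ 0 := fun h0 => ha0 (h.injAE (by rw [h0, map_zero]))
    rw [← vv_pos_iff_mem 𝔮 (Units.val_mk0 haE)]
    have h1 : Units.mk0 _ haE = (Units.mk0 _ haE * (h.tu g₁ hg0)⁻¹) * h.tu g₁ hg0 := by
      rw [inv_mul_cancel_right]
    rw [h1, vv_mul]
    have h2 : 0 ≤ vv 𝔮 (Units.mk0 _ haE * (h.tu g₁ hg0)⁻¹) := by
      apply h.vv_Af hf
      rw [Units.val_mul, Units.val_inv_eq_inv_val, h.tu_val, Units.val_mk0]
      exact ha
    omega
  have hne : 𝔥 ≠ ⊤ := by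
    intro h0
    apply 𝔮.isPrime.ne_top
    rw [eq_top_iff, ← h0]
    exact hle
  have hprime : 𝔥.IsPrime := by
    refine ⟨hne, ?_⟩
    intro a b hab
    obtain ⟨ta, ma, hma, hma', hta⟩ := h.rep a
    obtain ⟨tb, mb, hmb, hmb', htb⟩ := h.rep b
    obtain ⟨t, m, hm, hm', htm⟩ := h.rep' hab
    have h1 : ta * tb * m = g₁ * (t * ma * mb) := by
      apply h.injTE
      simp only [map_mul]
      rw [← hta, ← htb, ← htm, map_mul]
      rw [← hγ]
      field_simp
    have h2 : g₁ ∣ ta * tb * m := ⟨_, h1⟩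
    have h3 : ¬ g₁ ∣ m := by
      rintro ⟨m₁, rfl⟩
      have hm0 : m₁ ≠ 0 := by
        rintro rfl
        rw [mul_zero, map_zero] at hm
        exact hm rfl
      have h4 : vv 𝔮 (Units.mk0 _ hm) = 0 := h.vv_Af0 hf (h.T_mem _) hm'
      have h5 : Units.mk0 _ hm = h.tu g₁ hg0 * h.tu m₁ hm0 := by
        ext
        rw [Units.val_mul, h.tu_val, h.tu_val, Units.val_mk0, map_mul]
      have h6 : 0 ≤ vv 𝔮 (h.tu m₁ hm0) := h.vv_Af hf (h.T_mem _)
      rw [h5, vv_mul] at h4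
      omega
    have key : ∀ (a : A) (ta ma : T), algebraMap T E ma ≠ 0 →
        (algebraMap T E ma)⁻¹ ∈ Loc A E (algebraMap C A f) →
        algebraMap A E a * algebraMap T E ma = algebraMap T E ta → g₁ ∣ ta → a ∈ 𝔥 := by
      rintro a _ ma hma hma' hta ⟨t', rfl⟩
      rw [mem𝔥]
      have : algebraMap A E a * γ⁻¹ = (algebraMap T E ma)⁻¹ * algebraMap T E t' := by
        rw [map_mul, ← hγ] at hta
        field_simp
        rw [hta]
        try ring
      rw [this]
      exact Subring.mul_mem _ hma' (h.T_mem _)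
    rcases hg.dvd_or_dvd h2 with h4 | h4
    · rcases hg.dvd_or_dvd h4 with h5 | h5
      · exact Or.inl (key a ta ma hma hma' hta h5)
      · exact Or.inr (key b tb mb hmb hmb' htb h5)
    · exact absurd h4 h3
  have hbot : 𝔥 ≠ ⊥ := by
    obtain ⟨k, a, ha⟩ := h.T_mem g₁
    have hfE : algebraMap A E (algebraMap C A f) ≠ 0 := by rw [← h.algCE]; exact h.fE0
    intro h0
    have ha𝔥 : a ∈ 𝔥 := by
      rw [mem𝔥, ha, ← hγ, mul_comm, ← mul_assoc, inv_mul_cancel₀ hγ0, one_mul]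
      exact Subring.pow_mem _ (alg_mem_Loc _) _
    rw [h0, Ideal.mem_bot] at ha𝔥
    rw [ha𝔥, map_zero] at ha
    exact mul_ne_zero hγ0 (pow_ne_zero _ hfE) ha.symm
  have hmax : 𝔥.IsMaximal := hprime.isMaximal hbot
  have heq : 𝔥 = 𝔮.asIdeal := hmax.eq_of_le 𝔮.isPrime.ne_top hle
  have hcl := class_rel (E := E) h.fA0 𝔮 hf (h.tu g₁ hg0) (by
    intro 𝔮' hf' hne'
    have h1 : ∃ a ∈ 𝔮.asIdeal, a ∉ 𝔮'.asIdeal := by
      by_contra hcon
      push Not at hcon
      apply hne'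
      apply HeightOneSpectrum.ext
      exact (𝔮.isMaximal.eq_of_le 𝔮'.isPrime.ne_top hcon).symm
    obtain ⟨a, ha, ha'⟩ := h1
    have ha0 : a ≠ 0 := by
      rintro rfl
      exact ha' 𝔮'.asIdeal.zero_mem
    have haE : algebraMap A E a ≠ 0 := fun h0 => ha0 (h.injAE (by rw [h0, map_zero]))
    rw [← heq, mem𝔥] at ha
    have h2 : 0 ≤ vv 𝔮' (Units.mk0 _ haE * (h.tu g₁ hg0)⁻¹) := by
      apply h.vv_Af hf'
      rw [Units.val_mul, Units.val_inv_eq_inv_val, h.tu_val, Units.val_mk0]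
      exact ha
    rw [vv_mul, vv_inv, vv_zero_of_not_mem 𝔮' (Units.val_mk0 haE) ha'] at h2
    have h3 : 0 ≤ vv 𝔮' (h.tu g₁ hg0) := h.vv_Af hf' (h.T_mem _)
    omega)
  refine ⟨(vv 𝔮 (h.tu g₁ hg0)).toNat, by omega, ?_⟩
  rw [← zpow_natCast, Int.toNat_of_nonneg hpos.le]
  exact hcl

end

section
variable {P T C A E : Type} [CommRing P] [IsDomain P] [UniqueFactorizationMonoid P]
    [CommRing T] [IsDomain T] [UniqueFactorizationMonoid T] [CommRing C] [IsDomain C]
    [CommRing A] [IsDedekindDomain A] [Field E] [Algebra P C] [Algebra P A] [Algebra C A] [Algebra P E]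
    [Algebra C E] [Algebra A E] [Algebra T E] {f : C} {r : P} {g : T}

namespace SitU

variable (h : SitU P T C A E f r g)

include h

theorem UU_eq : UU T E = UU P E := by
  ext e
  constructor
  · rintro ⟨u, rfl⟩
    obtain ⟨p, hp, hpt⟩ := h.unitT u u.isUnit
    obtain ⟨v, rfl⟩ := hp
    exact ⟨v, by ext; exact hpt⟩
  · rintro ⟨u, rfl⟩
    obtain ⟨t, ht, hpt⟩ := h.unitP u u.isUnit
    obtain ⟨v, rfl⟩ := ht
    exact ⟨v, by ext; exact hpt.symm⟩

end SitU


namespace SitU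

variable (h : SitU P T C A E f r g)

include h

theorem UU_le : UU T E ≤ UK P E := by
  rw [h.UU_eq]
  rintro _ ⟨u, rfl⟩
  exact ⟨u, 1, u.ne_zero, one_ne_zero, by simp⟩

/-- the units of `D` -/
theorem unitD [Fintype ↥(Ideal.span {g}).minimalPrimes] {e : Eˣ} (he : (e : E) ∈ Loc T E g)
    (he' : (e : E)⁻¹ ∈ Loc T E g) :
    e ∈ Sp (UU T E) (fun j => eu h.injTE (gq h.g0 j) (gq_prime h.g0 j).ne_zero) := by
  obtain ⟨k, t, ht⟩ := he
  obtain ⟨l, t', ht'⟩ := he'
  have h1 : t * t' = g ^ (k + l) := by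
    apply h.injTE
    rw [map_mul, ht, ht', map_pow, pow_add]
    field_simp
  have hg : g ^ (k + l) ≠ 0 := pow_ne_zero _ h.g0
  have ht0 : t ≠ 0 := by
    rintro rfl
    rw [zero_mul] at h1
    exact hg h1.symm
  have hdiv : ∀ q : T, Prime q → q ∣ t → q ∣ g := by
    intro q hq hqt
    exact hq.dvd_of_dvd_pow ((hqt.trans (dvd_mul_right t t')).trans h1.dvd)
  have h2 : e = eu h.injTE t ht0 * (eu h.injTE g h.g0 ^ k)⁻¹ := by
    rw [eq_mul_inv_iff_mul_eq]
    ext
    rw [Units.val_mul, Units.val_pow_eq_pow_val, eu_val, eu_val, ht]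
  rw [h2]
  exact Subgroup.mul_mem _ (eu_mem_Sp h.injTE h.g0 t ht0 hdiv) (Subgroup.inv_mem _
    (Subgroup.pow_mem _ (eu_mem_Sp h.injTE h.g0 g h.g0 fun _ _ hq => hq) _))

/-- an element with nonnegative valuation outside `f` is in `A_f` -/
theorem mem_Af [IsFractionRing A E] {e : Eˣ} (he : ∀ 𝔮 : HeightOneSpectrum A,
    algebraMap C A f ∉ 𝔮.asIdeal → 0 ≤ vv 𝔮 e) : (e : E) ∈ Loc A E (algebraMap C A f) := by
  classical
  have hfE : algebraMap A E (algebraMap C A f) ≠ 0 := by rw [← h.algCE]; exact h.fE0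
  set F := (finite_mem h.fA0).toFinset with hF
  set N := ∑ 𝔮 ∈ F, (vv 𝔮 e).natAbs with hN
  have h1 : ∀ 𝔮 : HeightOneSpectrum A, 0 ≤ vv 𝔮 (e * Units.mk0 _ hfE ^ (N : ℤ)) := by
    intro 𝔮
    rw [vv_mul, vv_zpow]
    by_cases h𝔮 : algebraMap C A f ∈ 𝔮.asIdeal
    · have h2 : 0 < vv 𝔮 (Units.mk0 _ hfE) := (vv_pos_iff_mem 𝔮 (Units.val_mk0 hfE)).2 h𝔮
      have h3 : (vv 𝔮 e).natAbs ≤ N :=
        Finset.single_le_sum (f := fun 𝔮 => (vv 𝔮 e).natAbs) (fun _ _ => Nat.zero_le _)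
          (by rw [hF, Set.Finite.mem_toFinset]; exact h𝔮)
      have h4 : (N : ℤ) * 1 ≤ N * vv 𝔮 (Units.mk0 _ hfE) :=
        mul_le_mul_of_nonneg_left (by omega) (by positivity)
      omega
    · rw [vv_zero_of_not_mem 𝔮 (Units.val_mk0 hfE) h𝔮, mul_zero, add_zero]
      exact he 𝔮 h𝔮
  obtain ⟨a, ha⟩ := mem_of_vv_nonneg _ h1
  refine ⟨N, a, ?_⟩
  rw [ha, Units.val_mul, zpow_natCast, Units.val_pow_eq_pow_val, Units.val_mk0]

theorem P_mem' (p : P) : algebraMap P E p ∈ Loc C E (f * algebraMap P C r) := by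
  rw [h.algPE]
  exact alg_mem_Loc _

theorem invf_mem' : (algebraMap C E f)⁻¹ ∈ Loc C E (f * algebraMap P C r) :=
  inv_mem_Loc_of_dvd h.sE0 (dvd_mul_right _ _)

theorem invP_mem' {q : P} (hq : q ∣ r) : (algebraMap P E q)⁻¹ ∈ Loc C E (f * algebraMap P C r) := by
  rw [h.algPE]
  exact inv_mem_Loc_of_dvd h.sE0 ((map_dvd (algebraMap P C) hq).mul_left _)

/-- clear denominators in `P` -/
theorem Af_clear {e : E} (he : e ∈ Loc A E (algebraMap C A f)) :
    ∃ p : P, p ≠ 0 ∧ e * algebraMap P E p ∈ Loc C E (f * algebraMap P C r) := by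
  have := h.loc
  obtain ⟨k, a, ha⟩ := he
  obtain ⟨⟨c, ⟨_, p, hp, rfl⟩⟩, hc⟩ :=
    IsLocalization.surj (Algebra.algebraMapSubmonoid C (nonZeroDivisors P)) a
  have hc' : a * algebraMap C A (algebraMap P C p) = algebraMap C A c := hc
  refine ⟨p, nonZeroDivisors.ne_zero hp, ?_⟩
  have h1 : e * algebraMap P E p = algebraMap C E c * (algebraMap C E f)⁻¹ ^ k := by
    have h2 := congrArg (algebraMap A E) hc'
    rw [map_mul, ha, ← h.algCE, ← h.algCE, ← h.algCE, ← h.algPE] at h2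
    rw [← h2, inv_pow, mul_right_comm e, mul_inv_cancel_right₀]
    exact pow_ne_zero _ h.fE0
  rw [h1]
  exact Subring.mul_mem _ (alg_mem_Loc c) (Subring.pow_mem _ h.invf_mem' _)

theorem not_dvd_s {q : P} (hq : Prime q) (hqr : ¬ q ∣ r) :
    ¬ algebraMap P C q ∣ f * algebraMap P C r := by
  intro hd
  rcases (h.prime q hq.irreducible hqr).dvd_or_dvd hd with h1 | h1
  · exact h.vert q hq.irreducible hqr h1
  · exact hqr (h.dvd q r hq.irreducible h1)

/-- a prime of `P` which does not divide `r` is a prime element of `D` -/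
theorem primeD {q : P} (hq : Prime q) (hqr : ¬ q ∣ r) {x y : E}
    (hx : x ∈ Loc C E (f * algebraMap P C r)) (hy : y ∈ Loc C E (f * algebraMap P C r))
    (hxy : x * y * (algebraMap P E q)⁻¹ ∈ Loc C E (f * algebraMap P C r)) :
    x * (algebraMap P E q)⁻¹ ∈ Loc C E (f * algebraMap P C r) ∨
      y * (algebraMap P E q)⁻¹ ∈ Loc C E (f * algebraMap P C r) := by
  obtain ⟨k, c₁, h1⟩ := hx
  obtain ⟨l, c₂, h2⟩ := hy
  obtain ⟨m, c₃, h3⟩ := hxy
  have hqE : algebraMap P E q ≠ 0 := h.PE0 hq.ne_zero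
  have h4 : c₁ * c₂ * (f * algebraMap P C r) ^ m =
      algebraMap P C q * (c₃ * (f * algebraMap P C r) ^ (k + l)) := by
    apply h.injCE
    simp only [map_mul, map_pow] at h1 h2 h3 ⊢
    rw [h1, h2, h3, ← h.algPE, ← h.algPE]
    field_simp
    ring
  have hqp := h.prime q hq.irreducible hqr
  have h5 : algebraMap P C q ∣ c₁ * c₂ * (f * algebraMap P C r) ^ m := ⟨_, h4⟩
  have key : ∀ (z : E) (k : ℕ) (c : C), algebraMap C E c = z * algebraMap C E (f * algebraMap P C r) ^ k →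
      algebraMap P C q ∣ c → z * (algebraMap P E q)⁻¹ ∈ Loc C E (f * algebraMap P C r) := by
    rintro z k _ hz ⟨c, rfl⟩
    refine ⟨k, c, ?_⟩
    rw [map_mul, ← h.algPE] at hz
    rw [mul_right_comm, ← hz]
    field_simp
  rcases hqp.dvd_or_dvd h5 with h6 | h6
  · rcases hqp.dvd_or_dvd h6 with h7 | h7
    · exact Or.inl (key x k c₁ h1 h7)
    · exact Or.inr (key y l c₂ h2 h7)
  · exact absurd (hqp.dvd_of_dvd_pow h6) (h.not_dvd_s hq hqr)

theorem dvdD {q : P} (hq : Prime q) (hqr : ¬ q ∣ r) {b : P}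
    (hb : algebraMap P E b * (algebraMap P E q)⁻¹ ∈ Loc C E (f * algebraMap P C r)) : q ∣ b := by
  obtain ⟨m, c, hc⟩ := hb
  have hqE : algebraMap P E q ≠ 0 := h.PE0 hq.ne_zero
  have h4 : algebraMap P C b * (f * algebraMap P C r) ^ m = algebraMap P C q * c := by
    apply h.injCE
    rw [map_mul, map_mul, hc, map_pow, ← h.algPE, ← h.algPE]
    field_simp
  have hqp := h.prime q hq.irreducible hqr
  rcases hqp.dvd_or_dvd ⟨_, h4⟩ with h6 | h6
  · exact h.dvd q b hq.irreducible h6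
  · exact absurd (hqp.dvd_of_dvd_pow h6) (h.not_dvd_s hq hqr)

/-- a divisor in `D` of an element of `P` is a unit times an element of `P` -/
theorem divP (p : P) (hp : p ≠ 0) (δ δ' : E) (hδ : δ ∈ Loc C E (f * algebraMap P C r))
    (hδ' : δ' ∈ Loc C E (f * algebraMap P C r)) (heq : δ * δ' = algebraMap P E p) :
    ∃ (κ : P) (η : E), κ ≠ 0 ∧ η ≠ 0 ∧ η ∈ Loc C E (f * algebraMap P C r) ∧
      η⁻¹ ∈ Loc C E (f * algebraMap P C r) ∧ δ = algebraMap P E κ * η := by
  revert hp δ δ'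
  induction p using UniqueFactorizationMonoid.induction_on_prime with
  | h₁ => intro hp; exact absurd rfl hp
  | h₂ p hu =>
    intro hp δ δ' hδ hδ' heq
    have hpE := h.PE0 hp
    have hδ0 : δ ≠ 0 := by
      rintro rfl
      rw [zero_mul] at heq
      exact hpE heq.symm
    refine ⟨1, δ, one_ne_zero, hδ0, hδ, ?_, by rw [map_one, one_mul]⟩
    obtain ⟨v, hv⟩ := hu.exists_left_inv
    have : δ⁻¹ = δ' * algebraMap P E v := by
      apply inv_eq_of_mul_eq_one_right
      rw [← mul_assoc, heq, ← map_mul, mul_comm, hv, map_one]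
    rw [this]
    exact Subring.mul_mem _ hδ' (h.P_mem' v)
  | h₃ p q hp0 hq ih =>
    intro hp δ δ' hδ hδ' heq
    have hqE : algebraMap P E q ≠ 0 := h.PE0 hq.ne_zero
    rw [map_mul] at heq
    by_cases hqr : q ∣ r
    · refine ih hp0 δ (δ' * (algebraMap P E q)⁻¹) hδ (Subring.mul_mem _ hδ' (h.invP_mem' hqr)) ?_
      rw [← mul_assoc, heq]
      field_simp
    · have h1 : δ * δ' * (algebraMap P E q)⁻¹ ∈ Loc C E (f * algebraMap P C r) := by
        have : δ * δ' * (algebraMap P E q)⁻¹ = algebraMap P E p := by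
          rw [heq]
          field_simp
        rw [this]
        exact h.P_mem' p
      rcases h.primeD hq hqr hδ hδ' h1 with h2 | h2
      · obtain ⟨κ, η, hκ, hη, hη1, hη2, h3⟩ := ih hp0 (δ * (algebraMap P E q)⁻¹) δ' h2 hδ' (by
          rw [mul_right_comm, heq]
          field_simp)
        refine ⟨q * κ, η, mul_ne_zero hq.ne_zero hκ, hη, hη1, hη2, ?_⟩
        rw [map_mul, mul_assoc, ← h3]
        field_simp
      · refine ih hp0 δ (δ' * (algebraMap P E q)⁻¹) hδ h2 ?_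
        rw [← mul_assoc, heq]
        field_simp

/-- a quotient of elements of `P` which is a unit of `D` -/
theorem UK_unitD [Fintype ↥(Ideal.span {r}).minimalPrimes] {κ : Eˣ} (hκ : κ ∈ UK P E)
    (h1 : (κ : E) ∈ Loc C E (f * algebraMap P C r)) (h2 : (κ : E)⁻¹ ∈ Loc C E (f * algebraMap P C r)) :
    κ ∈ Sp (UU T E) (fun i => eu h.injPE (gq h.r0 i) (gq_prime h.r0 i).ne_zero) := by
  rw [h.UU_eq]
  obtain ⟨a₀, b₀, ha₀, hb₀, hab₀⟩ := hκ
  obtain ⟨a, b, c, hrel, rfl, rfl⟩ := UniqueFactorizationMonoid.exists_reduced_factors a₀ ha₀ b₀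
  have ha : a ≠ 0 := right_ne_zero_of_mul ha₀
  have hb : b ≠ 0 := right_ne_zero_of_mul hb₀
  have hc : c ≠ 0 := left_ne_zero_of_mul hb₀
  have hcE := h.PE0 hc
  have hab : (κ : E) * algebraMap P E b = algebraMap P E a := by
    rw [map_mul, map_mul] at hab₀
    apply mul_left_cancel₀ hcE
    rw [← hab₀]
    ring
  have hdiva : ∀ q : P, Prime q → q ∣ a → q ∣ r := by
    intro q hq hqa
    by_contra hqr
    obtain ⟨a', rfl⟩ := hqa
    have hqE : algebraMap P E q ≠ 0 := h.PE0 hq.ne_zero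
    have h3 : algebraMap P E b * (algebraMap P E q)⁻¹ = (κ : E)⁻¹ * algebraMap P E a' := by
      rw [map_mul] at hab
      field_simp
      linear_combination hab
    have h4 : q ∣ b := h.dvdD hq hqr (by
      rw [h3]
      exact Subring.mul_mem _ h2 (h.P_mem' a'))
    exact hq.not_isUnit (hrel (dvd_mul_right q a') h4)
  have hdivb : ∀ q : P, Prime q → q ∣ b → q ∣ r := by
    intro q hq hqb
    by_contra hqr
    obtain ⟨b', rfl⟩ := hqb
    have hqE : algebraMap P E q ≠ 0 := h.PE0 hq.ne_zero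
    have h3 : algebraMap P E a * (algebraMap P E q)⁻¹ = (κ : E) * algebraMap P E b' := by
      rw [← hab, map_mul]
      field_simp
    have h4 : q ∣ a := h.dvdD hq hqr (by
      rw [h3]
      exact Subring.mul_mem _ h1 (h.P_mem' b'))
    exact hq.not_isUnit (hrel h4 (dvd_mul_right q b'))
  have h5 : κ = eu h.injPE a ha * (eu h.injPE b hb)⁻¹ := by
    rw [eq_mul_inv_iff_mul_eq]
    ext
    rw [Units.val_mul, eu_val, eu_val, hab]
  rw [h5]
  exact Subgroup.mul_mem _ (eu_mem_Sp h.injPE h.r0 a ha hdiva)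
    (Subgroup.inv_mem _ (eu_mem_Sp h.injPE h.r0 b hb hdivb))

end SitU

/-- Piece RKB: the rank of the class group. -/
theorem rank_rel' (h : SitU P T C A E f r g) :
    Module.rank ℤ (Additive (ClassGroup A)) + (((Ideal.span {g}).minimalPrimes.ncard : ℕ) : Cardinal) =
      (((Ideal.span {algebraMap C A f}).minimalPrimes.ncard : ℕ) : Cardinal) +
        (((Ideal.span {r}).minimalPrimes.ncard : ℕ) : Cardinal) +
        qrank ((UK P E).subgroupOf (UU A E)) ∧
      qrank ((UK P E).subgroupOf (UU A E)) ≤ (((Ideal.span {g}).minimalPrimes.ncard : ℕ) : Cardinal) := by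
  classical
  have frA := h.frA
  have fT : Fintype ↥(Ideal.span {g}).minimalPrimes := (minp_finite h.g0).fintype
  have fP : Fintype ↥(Ideal.span {r}).minimalPrimes := (minp_finite h.r0).fintype
  have fI : Fintype {𝔭 : HeightOneSpectrum A // algebraMap C A f ∈ 𝔭.asIdeal} :=
    (finite_mem h.fA0).fintype
  have hrange : Set.range (Subtype.val : {𝔭 : HeightOneSpectrum A // algebraMap C A f ∈ 𝔭.asIdeal} →
      HeightOneSpectrum A) = {𝔭 | algebraMap C A f ∈ 𝔭.asIdeal} := Subtype.range_coe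
  have hnot : ∀ 𝔮 : HeightOneSpectrum A, 𝔮 ∉ Set.range (Subtype.val :
      {𝔭 : HeightOneSpectrum A // algebraMap C A f ∈ 𝔭.asIdeal} → HeightOneSpectrum A) ↔
      algebraMap C A f ∉ 𝔮.asIdeal := by
    intro 𝔮
    rw [hrange]
    rfl
  have hgD : ∀ j, (algebraMap T E (gq h.g0 j))⁻¹ ∈ Loc T E g := fun j =>
    inv_mem_Loc_of_dvd h.gE0 (gq_dvd h.g0 j)
  have key := rank_lattice' (E := E)
    (Subtype.val : {𝔭 : HeightOneSpectrum A // algebraMap C A f ∈ 𝔭.asIdeal} → HeightOneSpectrum A)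
    Subtype.val_injective
    (fun j : ↥(Ideal.span {g}).minimalPrimes => eu h.injTE (gq h.g0 j) (gq_prime h.g0 j).ne_zero)
    (fun i : ↥(Ideal.span {r}).minimalPrimes => eu h.injPE (gq h.r0 i) (gq_prime h.r0 i).ne_zero)
    (UK P E) (UU T E) (UU A E) h.UU_le ?_ ?_ ?_ ?_ ?_ ?_ ?_ ?_ ?_
  · rw [minp_dedekind h.fA0, Set.ncard_image_of_injective _ (fun a b hab => HeightOneSpectrum.ext hab)]
    have e1 : {𝔭 : HeightOneSpectrum A | algebraMap C A f ∈ 𝔭.asIdeal}.ncard =
        Fintype.card {𝔭 : HeightOneSpectrum A // algebraMap C A f ∈ 𝔭.asIdeal} := by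
      rw [← Nat.card_eq_fintype_card, ← Nat.card_coe_set_eq]
      rfl
    have e2 : (Ideal.span {g}).minimalPrimes.ncard = Fintype.card ↥(Ideal.span {g}).minimalPrimes := by
      rw [← Nat.card_eq_fintype_card, ← Nat.card_coe_set_eq]
    have e3 : (Ideal.span {r}).minimalPrimes.ncard = Fintype.card ↥(Ideal.span {r}).minimalPrimes := by
      rw [← Nat.card_eq_fintype_card, ← Nat.card_coe_set_eq]
    rw [e1, e2, e3]
    exact key
  · -- hUA
    intro e
    constructor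
    · rintro ⟨u, rfl⟩ 𝔮
      refine vv_zero_of_not_mem 𝔮 (a := (u : A)) rfl ?_
      intro hmem
      exact 𝔮.isPrime.ne_top (Ideal.eq_top_of_isUnit_mem _ hmem u.isUnit)
    · intro he
      obtain ⟨a, ha⟩ := mem_of_vv_nonneg e fun 𝔮 => (he 𝔮).ge
      obtain ⟨b, hb⟩ := mem_of_vv_nonneg (A := A) e⁻¹ fun 𝔮 => by rw [vv_inv, he 𝔮, neg_zero]
      have hab : a * b = 1 := by
        apply h.injAE
        rw [map_mul, ha, hb, Units.mul_inv, map_one]
      exact ⟨Units.mk a b hab (by rw [mul_comm]; exact hab), by ext; exact ha⟩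
  · -- a1
    intro 𝔮
    obtain ⟨k, hk, hk'⟩ := class_gen h 𝔮
    refine ⟨k, hk, ?_⟩
    have : (Set.range fun i : {𝔭 : HeightOneSpectrum A // algebraMap C A f ∈ 𝔭.asIdeal} => cl i.1) =
        {c | ∃ 𝔭 : IsDedekindDomain.HeightOneSpectrum A, algebraMap C A f ∈ 𝔭.asIdeal ∧ c = cl 𝔭} := by
      ext c
      constructor
      · rintro ⟨⟨𝔭, h𝔭⟩, rfl⟩
        exact ⟨𝔭, h𝔭, rfl⟩
      · rintro ⟨𝔭, h𝔭, rfl⟩
        exact ⟨⟨𝔭, h𝔭⟩, rfl⟩
    rw [this]
    exact hk'
  · -- a2
    intro j 𝔮 h𝔮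
    rw [hnot] at h𝔮
    apply h.vv_Af0 h𝔮 (h.T_mem _)
    apply h.D_le
    rw [h.Deq]
    exact hgD j
  · -- a3
    intro e he
    have he1 : ∀ 𝔮 : HeightOneSpectrum A, algebraMap C A f ∉ 𝔮.asIdeal → vv 𝔮 e = 0 := by
      intro 𝔮 h𝔮
      exact he 𝔮 ((hnot 𝔮).2 h𝔮)
    have h1 : (e : E) ∈ Loc A E (algebraMap C A f) := h.mem_Af fun 𝔮 h𝔮 => (he1 𝔮 h𝔮).ge
    have h2 : ((e⁻¹ : Eˣ) : E) ∈ Loc A E (algebraMap C A f) := h.mem_Af fun 𝔮 h𝔮 => by
      rw [vv_inv, he1 𝔮 h𝔮, neg_zero]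
    obtain ⟨p, hp, hp'⟩ := h.Af_clear h1
    obtain ⟨q, hq, hq'⟩ := h.Af_clear h2
    obtain ⟨κ, η, hκ, hη0, hη1, hη2, h3⟩ := h.divP (p * q) (mul_ne_zero hp hq) _ _ hp' hq' (by
      rw [map_mul, mul_mul_mul_comm, Units.mul_inv, one_mul])
    have h4 : e = (eu h.injPE κ hκ * (eu h.injPE p hp)⁻¹) * Units.mk0 η hη0 := by
      rw [mul_right_comm, eq_mul_inv_iff_mul_eq]
      ext
      rw [Units.val_mul, Units.val_mul, eu_val, eu_val, Units.val_mk0, h3]
    rw [← mem_Sp, h4]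
    refine Subgroup.mul_mem _ (U_le_Sp ?_) (Sp_mono h.UU_le (h.unitD ?_ ?_))
    · refine ⟨κ, p, hκ, hp, ?_⟩
      rw [Units.val_mul, Units.val_inv_eq_inv_val, eu_val, eu_val, inv_mul_cancel_right₀ (h.PE0 hp)]
    · rw [← h.Deq]; exact hη1
    · rw [← h.Deq]; exact hη2
  · -- a4
    rintro κ ⟨a, b, ha, hb, hab⟩ 𝔮
    have h1 : ∀ (p : P) (hp : p ≠ 0), vv 𝔮 (eu h.injPE p hp) = 0 := by
      intro p hp
      obtain ⟨a, ha⟩ := h.unitPA hp
      apply vv_zero_of_not_mem 𝔮 (a := algebraMap P A p)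
      · rw [eu_val, h.algPE']
      · intro hmem
        apply 𝔮.isPrime.ne_top
        rw [Ideal.eq_top_iff_one, ← ha]
        exact 𝔮.asIdeal.mul_mem_left _ hmem
    have h2 : κ = eu h.injPE a ha * (eu h.injPE b hb)⁻¹ := by
      rw [eq_mul_inv_iff_mul_eq]
      ext
      rw [Units.val_mul, eu_val, eu_val, hab]
    rw [h2, vv_mul, vv_inv, h1, h1]
    rfl
  · -- a6
    intro x hx
    refine h.UK_unitD hx ?_ ?_
    · rw [h.Deq, Units.coe_prod]
      refine Subring.prod_mem _ fun j _ => ?_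
      have h1 : ∀ n : ℤ, ((eu h.injTE (gq h.g0 j) (gq_prime h.g0 j).ne_zero ^ n : Eˣ) : E) ∈ Loc T E g := by
        intro n
        obtain ⟨m, rfl | rfl⟩ := n.eq_nat_or_neg
        · rw [zpow_natCast, Units.val_pow_eq_pow_val]
          exact Subring.pow_mem _ (alg_mem_Loc _) _
        · rw [zpow_neg, zpow_natCast, ← inv_pow, Units.val_pow_eq_pow_val, Units.val_inv_eq_inv_val]
          exact Subring.pow_mem _ (hgD j) _
      exact h1 _
    · rw [h.Deq, ← Units.val_inv_eq_inv_val, ← Finset.prod_inv_distrib, Units.coe_prod]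
      refine Subring.prod_mem _ fun j _ => ?_
      have h1 : ∀ n : ℤ, ((eu h.injTE (gq h.g0 j) (gq_prime h.g0 j).ne_zero ^ n : Eˣ) : E) ∈ Loc T E g := by
        intro n
        obtain ⟨m, rfl | rfl⟩ := n.eq_nat_or_neg
        · rw [zpow_natCast, Units.val_pow_eq_pow_val]
          exact Subring.pow_mem _ (alg_mem_Loc _) _
        · rw [zpow_neg, zpow_natCast, ← inv_pow, Units.val_pow_eq_pow_val, Units.val_inv_eq_inv_val]
          exact Subring.pow_mem _ (hgD j) _
      rw [← zpow_neg]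
      exact h1 _
  · -- a7
    intro i
    refine ⟨⟨gq h.r0 i, 1, (gq_prime h.r0 i).ne_zero, one_ne_zero, by rw [map_one, mul_one]; rfl⟩, ?_⟩
    refine h.unitD ?_ ?_
    · rw [← h.Deq]
      exact h.P_mem' _
    · rw [← h.Deq]
      exact h.invP_mem' (gq_dvd h.r0 i)
  · -- a8
    intro x hx
    exact prod_gq_unit h.injTE h.g0 x hx
  · -- a9
    intro y hy
    rw [h.UU_eq] at hy
    exact prod_gq_unit h.injPE h.r0 y hy

end

end Pool.Agent.Run7.h642.PL
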